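import Pool.Agent.Lib.N2.Chain

/-!
# The big step and the main theorem of the `n^2`-block
-/

set_option autoImplicit false

open Finset Matrix Filter

namespace Pool.Agent.Lib.N2

theorem ev_two_mul_le {η : ℝ} (hη : 0 < η) : ∀ᶠ m : ℕ in atTop, (2 * m : ℝ) ≤ 2 ^ (η * m) := by
  have h1 : Tendsto (fun m : ℕ => (m : ℝ) * ((2 : ℝ) ^ (-η)) ^ m) atTop (nhds 0) := by
    refine tendsto_self_mul_const_pow_of_lt_one (by positivity) ?_
    exact Real.rpow_lt_one_of_one_lt_of_neg (by norm_num) (by linarith)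
  have h2 : ∀ᶠ m : ℕ in atTop, (m : ℝ) * ((2 : ℝ) ^ (-η)) ^ m < 1 / 2 :=
    h1.eventually_lt_const (by norm_num)
  filter_upwards [h2] with m hm
  have h3 : ((2 : ℝ) ^ (-η)) ^ m = 2 ^ (-(η * m)) := by
    rw [← Real.rpow_natCast, ← Real.rpow_mul (by norm_num)]
    congr 1
    ring
  rw [h3, Real.rpow_neg (by norm_num)] at hm
  have h4 : (0 : ℝ) < 2 ^ (η * m) := by positivity
  rw [← div_eq_mul_inv, div_lt_iff₀ h4] at hm
  linarith

theorem ev_factor (C : ℝ) {η : ℝ} (hη : 0 < η) : ∀ᶠ m : ℕ in atTop, ∀ r : ℕ, r ≤ m →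
    (2 : ℝ) ^ r * (m : ℝ) ^ r * C ≤ 2 ^ (η * m * m) := by
  have h1 := ev_two_mul_le (half_pos hη)
  have h2 : ∀ᶠ m : ℕ in atTop, |C| ≤ m := by
    obtain ⟨n, hn⟩ := exists_nat_ge |C|
    filter_upwards [eventually_ge_atTop n] with m hm
    exact hn.trans (by exact_mod_cast hm)
  filter_upwards [h1, h2, eventually_ge_atTop 1] with m hm1 hm2 hm3 r hr
  have hm4 : (1 : ℝ) ≤ m := by exact_mod_cast hm3
  have h3 : (2 : ℝ) ^ r * (m : ℝ) ^ r = (2 * m : ℝ) ^ r := by rw [mul_pow]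
  have h4 : (2 * m : ℝ) ^ r ≤ (2 * m : ℝ) ^ m := pow_le_pow_right₀ (by linarith) hr
  have h5 : (2 * m : ℝ) ^ m ≤ 2 ^ (η / 2 * m * m) := by
    calc (2 * m : ℝ) ^ m ≤ ((2 : ℝ) ^ (η / 2 * m)) ^ m := pow_le_pow_left₀ (by positivity) hm1 _
      _ = 2 ^ (η / 2 * m * m) := by
          rw [← Real.rpow_natCast, ← Real.rpow_mul (by norm_num)]
  have h6 : C ≤ 2 ^ (η / 2 * m * m) := by
    refine (le_abs_self C).trans (hm2.trans ?_)
    refine le_trans (by linarith : (m : ℝ) ≤ 2 * m) (hm1.trans ?_)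
    refine Real.rpow_le_rpow_of_exponent_le (by norm_num) ?_
    have : η / 2 * m * 1 ≤ η / 2 * m * m := mul_le_mul_of_nonneg_left hm4 (by positivity)
    linarith
  calc (2 : ℝ) ^ r * (m : ℝ) ^ r * C ≤ (2 : ℝ) ^ r * (m : ℝ) ^ r * 2 ^ (η / 2 * m * m) := by
        gcongr
    _ ≤ 2 ^ (η / 2 * m * m) * 2 ^ (η / 2 * m * m) := by
        rw [h3]
        exact mul_le_mul_of_nonneg_right (h4.trans h5) (by positivity)
    _ = 2 ^ (η * m * m) := by
        rw [← Real.rpow_add (by norm_num)]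
        congr 1
        ring

theorem ev_ge (C : ℝ) {η : ℝ} (hη : 0 < η) : ∀ᶠ m : ℕ in atTop, C ≤ η * m := by
  have h : Tendsto (fun m : ℕ => η * (m : ℝ)) atTop atTop :=
    tendsto_natCast_atTop_atTop.const_mul_atTop hη
  exact h.eventually_ge_atTop C

theorem big_step (α : ℝ) (hα : 0 < α) (k : ℕ) (hk : 1 ≤ k) (ζ' : ℝ) (hζ : 0 < ζ') :
    ∃ K : ℕ, k ≤ K ∧ ∃ ζ : ℝ, 0 < ζ ∧ ∃ δ : ℝ, 0 < δ ∧ ∃ M0 : ℕ, ∀ m : ℕ, M0 ≤ m →
      ∀ lab : Fin m → ℕ, (∀ x, lab x ≤ 1) → (K : ℝ) * nsp lab ≤ δ * m →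
      (2 : ℝ) ^ ((1 / 2 - ζ) * (m : ℝ) ^ 2) < (NI K m lab α : ℝ) →
      (2 : ℝ) ^ ((1 / 2 - ζ') * (m : ℝ) ^ 2) < (NI k m lab (1.3 * α) : ℝ) := by
  rcases lt_or_ge 2 α with hα2 | hα2
  · refine ⟨k, le_refl _, 1, one_pos, 1, one_pos, 1, ?_⟩
    intro m hm lab hlab hs hbig
    exfalso
    have hm' : (1 : ℝ) ≤ m := by exact_mod_cast hm
    have h0 : NI k m lab α = 0 := ni_large hk lab α (by nlinarith)
    rw [h0] at hbig
    have : (0 : ℝ) < (2 : ℝ) ^ ((1 / 2 - 1) * (m : ℝ) ^ 2) := by positivity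
    simp only [Nat.cast_zero] at hbig
    linarith
  -- parameters
  obtain ⟨κ, hκ, hκα, hκζ, hκ1⟩ : ∃ κ : ℝ, 0 < κ ∧ κ ≤ α / 100 ∧ κ ≤ ζ' / 8 ∧ κ ≤ 1 / 10 :=
    ⟨min (α / 100) (min (ζ' / 8) (1 / 10)),
      lt_min (by positivity) (lt_min (by positivity) (by norm_num)),
      min_le_left _ _, (min_le_right _ _).trans (min_le_left _ _),
      (min_le_right _ _).trans (min_le_right _ _)⟩
  obtain ⟨t, ht1, ht2⟩ : ∃ t : ℕ, (t : ℝ) ≤ 0.7 * α / κ ∧ 0.7 * α / κ < t + 1 :=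
    ⟨⌊0.7 * α / κ⌋₊, Nat.floor_le (by positivity), Nat.lt_floor_add_one _⟩
  obtain ⟨N, hN⟩ := exists_nat_ge (400 / κ)
  have hN1 : 1 ≤ N := by
    have : (0 : ℝ) < N := lt_of_lt_of_le (by positivity) hN
    exact_mod_cast this
  have hN0 : (0 : ℝ) < N := by exact_mod_cast hN1
  have hNinv : 1 / (N : ℝ) ≤ κ / 400 := by
    rw [div_le_div_iff₀ hN0 (by norm_num)]
    rw [div_le_iff₀ hκ] at hN
    linarith
  obtain ⟨Kf, hKt, hmono, hpos, δ0, hδ0, M0, hconv⟩ :=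
    conv_chain (κ / 2) (κ / 400) (by positivity) (by positivity) t k hk
  obtain ⟨δ, hδ, hδδ0, hδκ⟩ : ∃ δ : ℝ, 0 < δ ∧ δ ≤ δ0 ∧ δ ≤ κ ^ 2 / 400 :=
    ⟨min δ0 (κ ^ 2 / 400), lt_min hδ0 (by positivity), min_le_left _ _, min_le_right _ _⟩
  have hkK : k ≤ Kf 0 := by
    have : ∀ i, i ≤ t → Kf i ≤ Kf 0 := by
      intro i
      induction i with
      | zero => intro _; exact le_refl _
      | succ i ih => intro hi; exact (hmono i (by omega)).trans (ih (by omega))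
    rw [← hKt]
    exact this t le_rfl
  have hκ2 : κ ^ 2 ≤ κ / 10 := by nlinarith
  have hκ3 : κ ^ 2 ≤ α * κ / 100 := by nlinarith
  have hδ1 : δ ≤ 1 := by nlinarith
  have hη : 0 < κ ^ 2 / 400 := by positivity
  have hev : ∀ᶠ m : ℕ in atTop, M0 ≤ m ∧ 1 ≤ m ∧ (200 : ℝ) ≤ κ * m ∧
      (∀ r : ℕ, r ≤ m → (2 : ℝ) ^ r * (m : ℝ) ^ r * (2 * N + 1) ≤ 2 ^ (κ ^ 2 / 400 * m * m)) := by
    filter_upwards [eventually_ge_atTop M0, eventually_ge_atTop 1, ev_ge 200 hκ,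
      ev_factor (2 * N + 1) hη] with m h1 h2 h3 h4
    exact ⟨h1, h2, h3, h4⟩
  obtain ⟨M1, hM1⟩ := eventually_atTop.1 hev
  refine ⟨Kf 0, hkK, α * κ / 400, by positivity, δ, hδ, M1, ?_⟩
  intro m hm lab hlab hs hbig
  obtain ⟨hmM, hm1, hmκ, hmF⟩ := hM1 m hm
  have hm1' : (1 : ℝ) ≤ m := by exact_mod_cast hm1
  have hm0 : (0 : ℝ) < m := by linarith
  obtain ⟨r, hr1, hr2⟩ : ∃ r : ℕ, (r : ℝ) ≤ κ * m ∧ κ * m < r + 1 :=
    ⟨⌊κ * m⌋₊, Nat.floor_le (by positivity), Nat.lt_floor_add_one _⟩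
  have hr3 : 0.99 * κ * m ≤ (r : ℝ) - 1 := by nlinarith
  have hrm : r ≤ m := by
    have : (r : ℝ) ≤ m := hr1.trans (by nlinarith)
    exact_mod_cast this
  have hr0' : (0 : ℝ) < r := by nlinarith
  have hr0 : 0 < r := by exact_mod_cast hr0'
  have hK1 : (1 : ℝ) ≤ Kf 0 := by exact_mod_cast hk.trans hkK
  have hnsp : (nsp lab : ℝ) ≤ δ * m := by
    refine le_trans ?_ hs
    have : (0 : ℝ) ≤ nsp lab := Nat.cast_nonneg _
    nlinarith
  set ψ : ℝ := (κ / 400 + 1 / N) * κ + δ + κ ^ 2 / 400 with hψ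
  have hψ1 : ψ ≤ κ ^ 2 / 100 := by
    rw [hψ]
    nlinarith
  have hψ0 : 0 ≤ ψ := by
    rw [hψ]
    positivity
  have htκ : (t : ℝ) * κ ≤ 0.7 * α := by
    rw [le_div_iff₀ hκ] at ht1
    exact ht1
  have htκ2 : 0.7 * α - κ ≤ (t : ℝ) * κ := by
    rw [div_lt_iff₀ hκ] at ht2
    linarith
  have htψ : (t : ℝ) * ψ ≤ 0.007 * α * κ := by
    have h1 : (t : ℝ) * ψ ≤ t * (κ ^ 2 / 100) := mul_le_mul_of_nonneg_left hψ1 (Nat.cast_nonneg _)
    have h2 : (t : ℝ) * (κ ^ 2 / 100) = (t * κ) * (κ / 100) := by ring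
    rw [h2] at h1
    have h3 : ((t : ℝ) * κ) * (κ / 100) ≤ (0.7 * α) * (κ / 100) :=
      mul_le_mul_of_nonneg_right htκ (by positivity)
    nlinarith
  have hF : (2 : ℝ) ^ r * (m : ℝ) ^ r * (2 * N + 1) * (2 : ℝ) ^ (δ * m * m)
          * (2 : ℝ) ^ ((κ / 400 + 1 / N) * r * m) ≤ (2 : ℝ) ^ (ψ * m * m) := by
    have h1 := hmF r hrm
    have h2 : (2 : ℝ) ^ ((κ / 400 + 1 / N) * r * m)
        ≤ (2 : ℝ) ^ ((κ / 400 + 1 / N) * κ * m * m) := by
      refine Real.rpow_le_rpow_of_exponent_le (by norm_num) ?_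
      have h3 : (0 : ℝ) ≤ κ / 400 + 1 / N := by positivity
      have h4 : (κ / 400 + 1 / N) * r ≤ (κ / 400 + 1 / N) * (κ * m) :=
        mul_le_mul_of_nonneg_left hr1 h3
      calc (κ / 400 + 1 / N) * r * m ≤ (κ / 400 + 1 / N) * (κ * m) * m :=
            mul_le_mul_of_nonneg_right h4 hm0.le
        _ = _ := by ring
    calc (2 : ℝ) ^ r * (m : ℝ) ^ r * (2 * N + 1) * (2 : ℝ) ^ (δ * m * m)
          * (2 : ℝ) ^ ((κ / 400 + 1 / N) * r * m)
        ≤ (2 : ℝ) ^ (κ ^ 2 / 400 * m * m) * (2 : ℝ) ^ (δ * m * m)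
          * (2 : ℝ) ^ ((κ / 400 + 1 / N) * κ * m * m) := by gcongr
      _ = (2 : ℝ) ^ (ψ * m * m) := by
          rw [← Real.rpow_add (by norm_num), ← Real.rpow_add (by norm_num), hψ]
          congr 1
          ring
  have hsum : α * κ / 400 + δ + t * ψ ≤ 0.01 * (α * κ) := by nlinarith
  have hrr : 0 ≤ (r : ℝ) * (r - 1) / 2 := by
    have : 0 ≤ (r : ℝ) - 1 := le_trans (by positivity) hr3
    positivity
  have hακ : α * κ * m ^ 2 * 0.99 ≤ α * r * m := by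
    have h1 : 0.99 * κ * m ≤ r := by linarith
    have h2 : α * m * (0.99 * κ * m) ≤ α * m * r := mul_le_mul_of_nonneg_left h1 (by positivity)
    nlinarith
  have h5 : ∀ i : ℕ, i ≤ t → 0.9 * α * r * m ≤
      α * r * m - α * κ / 400 * m ^ 2 + i * (r * (r - 1) / 2 : ℝ) - δ * m ^ 2 - i * ψ * m ^ 2 := by
    intro i hi
    have hi' : (i : ℝ) ≤ t := by exact_mod_cast hi
    have h1 : (i : ℝ) * ψ ≤ t * ψ := mul_le_mul_of_nonneg_right hi' hψ0
    have h2 : 0 ≤ (i : ℝ) * (r * (r - 1) / 2 : ℝ) := mul_nonneg (Nat.cast_nonneg _) hrr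
    have h3 : (α * κ / 400 + δ + i * ψ) * m ^ 2 ≤ 0.01 * (α * κ) * m ^ 2 :=
      mul_le_mul_of_nonneg_right (by linarith) (by positivity)
    nlinarith
  have htr : (t : ℝ) * r ≤ 0.7 * α * m := by
    calc (t : ℝ) * r ≤ t * (κ * m) := mul_le_mul_of_nonneg_left hr1 (Nat.cast_nonneg _)
      _ = (t * κ) * m := by ring
      _ ≤ 0.7 * α * m := mul_le_mul_of_nonneg_right htκ hm0.le
  have hαm : (20000 : ℝ) ≤ α * m := by nlinarith
  have hδm : δ * m ≤ 0.01 * (α * m) := by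
    have h1 : δ ≤ 0.01 * α := by nlinarith
    have h2 : δ * m ≤ 0.01 * α * m := mul_le_mul_of_nonneg_right h1 hm0.le
    linarith
  have h6 : (nsp lab + t * r + δ * m + 1 : ℝ) ≤ 0.9 * α * m := by nlinarith
  obtain ⟨lab', β, hz, hlt, hblk, hnl, hinv⟩ :=
    iter (κ := κ / 2) (ε := κ / 400) (ψ := ψ) (ζ := α * κ / 400) hmono hpos
      (fun i hi => (hconv i hi).mono hδδ0 le_rfl) hmM (by linarith) hrm hr0 hN1 hlab hδ.le hδ1 hs
      hF hbig h5 h6 t le_rfl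
  rw [hKt] at hinv
  have hNI : 0 < NI k m lab' β := by
    rcases Nat.eq_zero_or_pos (NI k m lab' β) with h | h
    · exfalso
      rw [h] at hinv
      simp only [Nat.cast_zero, zero_mul, mul_zero] at hinv
      have : (0 : ℝ) < (2 : ℝ) ^ ((1 / 2 - α * κ / 400) * (m : ℝ) ^ 2)
        * (2 : ℝ) ^ (α * r * m) := by positivity
      linarith
    · exact h
  have hsp : nsp lab' = nsp lab := by
    unfold nsp
    congr 1
    ext x
    simp only [mem_filter, mem_univ, true_and]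
    exact hz x
  have hkK' : (k : ℝ) ≤ Kf 0 := by exact_mod_cast hkK
  have hks : (k : ℝ) * nsp lab' ≤ δ * m := by
    rw [hsp]
    exact (mul_le_mul_of_nonneg_right hkK' (Nat.cast_nonneg _)).trans hs
  -- upper bound for β
  have hβ2 : β ≤ 2 := by
    by_contra hcon
    have hcon' : 2 < β := lt_of_not_ge hcon
    have : NI k m lab' β = 0 := ni_large hk lab' β (by nlinarith)
    omega
  -- lower bound for β
  have hβ : 1.3 * α ≤ β := by
    have hcard : (NI k m lab' β : ℝ) ≤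
        (2 : ℝ) ^ ((m : ℝ) ^ 2 / 2 - t * (r * (r - 1) / 2 : ℝ) + k * m * nsp lab') := by
      refine le_trans ?_ (cls_card k m lab' t r hblk)
      have : NI k m lab' β ≤
          Nat.card {E : Matrix (Fin m) (Fin m) (RK k) // Cls k m lab' E} := by
        unfold NI
        have : NeZero (2 ^ k) := ⟨by positivity⟩
        refine Nat.card_le_card_of_injective (fun E => ⟨E.1, E.2.1⟩) ?_
        intro E E' hEE
        have h1 := Subtype.ext_iff.mp hEE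
        exact Subtype.ext h1
      exact_mod_cast this
    have h7 : (2 : ℝ) ^ ((1 / 2 - α * κ / 400) * (m : ℝ) ^ 2 + α * r * m) <
        (2 : ℝ) ^ (t * ψ * m * m + ((m : ℝ) ^ 2 / 2 - t * (r * (r - 1) / 2 : ℝ)
          + k * m * nsp lab') + β * r * m) := by
      rw [Real.rpow_add (by norm_num), Real.rpow_add (by norm_num),
        Real.rpow_add (by norm_num)]
      refine hinv.trans_le ?_
      calc (2 : ℝ) ^ (t * ψ * m * m) * ((NI k m lab' β : ℝ) * (2 : ℝ) ^ (β * r * m))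
          ≤ (2 : ℝ) ^ (t * ψ * m * m) * ((2 : ℝ) ^ ((m : ℝ) ^ 2 / 2
              - t * (r * (r - 1) / 2 : ℝ) + k * m * nsp lab') * (2 : ℝ) ^ (β * r * m)) := by
            refine mul_le_mul_of_nonneg_left ?_ (by positivity)
            exact mul_le_mul_of_nonneg_right hcard (by positivity)
        _ = _ := by ring
    rw [Real.rpow_lt_rpow_left_iff (by norm_num)] at h7
    have h9 : (k : ℝ) * m * nsp lab' ≤ δ * m ^ 2 := by nlinarith
    have h10 : 0.338 * α * m ≤ t * ((r - 1) / 2 : ℝ) := by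
      have h11 : (t : ℝ) * (0.99 * κ * m / 2) ≤ t * ((r - 1) / 2 : ℝ) :=
        mul_le_mul_of_nonneg_left (by linarith) (Nat.cast_nonneg _)
      have h12 : (0.7 * α - κ) * (0.99 * m / 2) ≤ (t * κ) * (0.99 * m / 2) :=
        mul_le_mul_of_nonneg_right htκ2 (by positivity)
      have h13 : κ * m ≤ 0.01 * (α * m) := by nlinarith
      nlinarith
    have h14 : 0.338 * α * m * r ≤ t * (r * (r - 1) / 2 : ℝ) := by
      have := mul_le_mul_of_nonneg_right h10 hr0'.le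
      calc 0.338 * α * m * r ≤ t * ((r - 1) / 2 : ℝ) * r := this
        _ = _ := by ring
    have h15 : (α * κ / 400 + δ + t * ψ) * m ^ 2 ≤ 0.01 * (α * κ) * m ^ 2 :=
      mul_le_mul_of_nonneg_right hsum (by positivity)
    have h16 : 1.3 * α * r * m < β * r * m := by nlinarith
    have h17 : (r * m) * (1.3 * α) < (r * m) * β := by nlinarith
    exact (lt_of_mul_lt_mul_left h17 (by positivity)).le
  -- conclusion
  have h18 : (NI k m lab' β : ℝ) ≤ NI k m lab (1.3 * α) := by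
    exact_mod_cast (ni_forget lab' lab hz hlab β).trans (ni_mono lab hβ)
  refine lt_of_lt_of_le ?_ h18
  have h19 : (2 : ℝ) ^ ((1 / 2 - α * κ / 400) * (m : ℝ) ^ 2 + α * r * m
      - t * ψ * m * m - β * r * m) < NI k m lab' β := by
    rw [Real.rpow_sub (by norm_num), Real.rpow_sub (by norm_num), Real.rpow_add (by norm_num),
      div_lt_iff₀ (by positivity), div_lt_iff₀ (by positivity)]
    refine hinv.trans_le (le_of_eq ?_)
    ring
  refine lt_of_le_of_lt ?_ h19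
  refine Real.rpow_le_rpow_of_exponent_le (by norm_num) ?_
  have h20 : β * r * m ≤ 2 * κ * m ^ 2 := by
    have h21 : β * (r * m) ≤ 2 * (r * m) := mul_le_mul_of_nonneg_right hβ2 (by positivity)
    have h22 : (r : ℝ) * m ≤ κ * m * m := mul_le_mul_of_nonneg_right hr1 hm0.le
    nlinarith
  have h23 : 0 ≤ α * r * m := by positivity
  have h24 : (α * κ / 400 + t * ψ) * m ^ 2 ≤ 0.01 * (α * κ) * m ^ 2 :=
    mul_le_mul_of_nonneg_right (by linarith) (by positivity)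
  have h25 : α * κ * m ^ 2 ≤ 2 * κ * m ^ 2 := by
    have : α * (κ * m ^ 2) ≤ 2 * (κ * m ^ 2) := mul_le_mul_of_nonneg_right hα2 (by positivity)
    nlinarith
  have h26 : 8 * κ * m ^ 2 ≤ ζ' * m ^ 2 := mul_le_mul_of_nonneg_right (by linarith) (by positivity)
  nlinarith

theorem main_aux (n : ℕ) : ∀ α : ℝ, 0 < α → 2 < α * 1.3 ^ n →
    ∃ K : ℕ, 1 ≤ K ∧ ∃ δ : ℝ, 0 < δ ∧ ∃ c : ℝ, 0 < c ∧ ∃ M0 : ℕ, ∀ m : ℕ, M0 ≤ m →
      ∀ lab : Fin m → ℕ, (∀ x, lab x ≤ 1) → (K : ℝ) * nsp lab ≤ δ * m →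
      (NI K m lab α : ℝ) ≤ (2 : ℝ) ^ ((1 / 2 - c) * (m : ℝ) ^ 2) := by
  induction n with
  | zero =>
    intro α hα h2
    refine ⟨1, le_refl _, 1, one_pos, 1, one_pos, 1, ?_⟩
    intro m hm lab hlab hs
    have hm' : (1 : ℝ) ≤ m := by exact_mod_cast hm
    have h0 : NI 1 m lab α = 0 := ni_large le_rfl lab α (by
      simp only [pow_zero, mul_one] at h2
      nlinarith)
    rw [h0]
    simp only [Nat.cast_zero]
    positivity
  | succ n ih =>
    intro α hα h2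
    obtain ⟨K1, hK1, δ1, hδ1, c1, hc1, M1, h1⟩ := ih (1.3 * α) (by positivity) (by
      rw [pow_succ] at h2
      nlinarith)
    obtain ⟨K, hK, ζ, hζ, δ, hδ, M0, h⟩ := big_step α hα K1 hK1 c1 hc1
    refine ⟨K, hK1.trans hK, min δ δ1, lt_min hδ hδ1, ζ, hζ, max M0 M1, ?_⟩
    intro m hm lab hlab hs
    have hmm : (0 : ℝ) ≤ m := Nat.cast_nonneg _
    by_contra hcon
    have hcon' := lt_of_not_ge hcon
    have h3 := h m ((le_max_left _ _).trans hm) lab hlab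
      (hs.trans (mul_le_mul_of_nonneg_right (min_le_left _ _) hmm)) hcon'
    have hKK : (K1 : ℝ) ≤ K := by exact_mod_cast hK
    have h4 := h1 m ((le_max_right _ _).trans hm) lab hlab
      ((mul_le_mul_of_nonneg_right hKK (Nat.cast_nonneg _)).trans
        (hs.trans (mul_le_mul_of_nonneg_right (min_le_right _ _) hmm)))
    linarith

theorem main_n2 (α : ℝ) (hα : 0 < α) :
    ∃ K : ℕ, 1 ≤ K ∧ ∃ δ : ℝ, 0 < δ ∧ ∃ c : ℝ, 0 < c ∧ ∃ M0 : ℕ, ∀ m : ℕ, M0 ≤ m →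
      ∀ lab : Fin m → ℕ, (∀ x, lab x ≤ 1) → (K : ℝ) * nsp lab ≤ δ * m →
      (NI K m lab α : ℝ) ≤ (2 : ℝ) ^ ((1 / 2 - c) * (m : ℝ) ^ 2) := by
  obtain ⟨n, hn⟩ := pow_unbounded_of_one_lt (2 / α) (by norm_num : (1 : ℝ) < 1.3)
  refine main_aux n α hα ?_
  rw [div_lt_iff₀ hα] at hn
  linarith

end Pool.Agent.Lib.N2
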