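import Pool.Agent.Lib.N2.Red

/-!
# (S6) number of matrices of a class
-/

set_option autoImplicit false

open Finset Matrix

namespace Pool.Agent.Lib.N2

variable {K m r : ℕ}

/-- the free pairs -/
def FP {m : ℕ} (lab : Fin m → ℕ) : Type :=
  {p : Fin m × Fin m // p.1 < p.2 ∧ ¬ (lab p.1 = lab p.2 ∧ 2 ≤ lab p.1)}

instance {m : ℕ} (lab : Fin m → ℕ) : Finite (FP lab) := by unfold FP; infer_instance

theorem card_cls_le (lab : Fin m → ℕ) :
    Nat.card {E : Matrix (Fin m) (Fin m) (RK K) // Cls K m lab E} ≤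
      2 ^ (K * m * nsp lab) * 2 ^ Nat.card (FP lab) := by
  classical
  have hinj : Function.Injective (fun E : {E : Matrix (Fin m) (Fin m) (RK K) // Cls K m lab E} =>
      ((fun s y => E.1 s.1 y : {x : Fin m // lab x = 0} → Fin m → RK K),
        (fun p => decide (E.1 p.1.1 p.1.2 = 1) : FP lab → Bool))) := by
    rintro ⟨A, hA⟩ ⟨B, hB⟩ hAB
    simp only [Prod.mk.injEq] at hAB
    apply Subtype.ext
    have key : ∀ x y, x < y → A x y = B x y := by
      intro x y hxy
      by_cases hx : lab x = 0
      · exact congrFun (congrFun hAB.1 ⟨x, hx⟩) y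
      by_cases hy : lab y = 0
      · have h1 := congrFun (congrFun hAB.1 ⟨y, hy⟩) x
        have h2 : A x y = A y x := congrFun (congrFun hA.symm.symm x) y
        have h3 : B x y = B y x := congrFun (congrFun hB.symm.symm x) y
        rw [h2, h3]
        exact h1
      by_cases hb : lab x = lab y ∧ 2 ≤ lab x
      · rw [hA.zero x y hb.1 hb.2, hB.zero x y hb.1 hb.2]
      · have h1 := congrFun hAB.2 ⟨(x, y), hxy, hb⟩
        simp only [decide_eq_decide] at h1
        rcases hA.bool x y hx hy with a | a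
        · rcases hB.bool x y hx hy with b | b
          · rw [a, b]
          · rw [b, h1.2 b]
        · rw [a, h1.1 a]
    funext x y
    show A x y = B x y
    rcases lt_trichotomy x y with h | h | h
    · exact key x y h
    · subst h
      by_cases hx : lab x = 0
      · exact congrFun (congrFun hAB.1 ⟨x, hx⟩) x
      · rw [hA.diag x hx, hB.diag x hx]
    · have h2 : A x y = A y x := congrFun (congrFun hA.symm.symm x) y
      have h3 : B x y = B y x := congrFun (congrFun hB.symm.symm x) y
      rw [h2, h3]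
      exact key y x h
  refine (Nat.card_le_card_of_injective _ hinj).trans (le_of_eq ?_)
  rw [Nat.card_prod, card_special_rows, Nat.card_fun (β := Bool), Nat.card_eq_fintype_card,
    Fintype.card_bool]

theorem two_card_FP (lab : Fin m → ℕ) (t r : ℕ)
    (h : ∀ j, 2 ≤ j → j < t + 2 → r ≤ (Finset.univ.filter fun x => lab x = j).card) :
    2 * Nat.card (FP lab) + t * (r * r - r) ≤ m * m := by
  classical
  set F : Finset (Fin m × Fin m) := Finset.univ.filter
    (fun p => p.1 < p.2 ∧ ¬ (lab p.1 = lab p.2 ∧ 2 ≤ lab p.1)) with hF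
  have hFc : Nat.card (FP lab) = F.card := by
    unfold FP
    rw [Nat.card_eq_fintype_card, Fintype.card_subtype]
  set F' : Finset (Fin m × Fin m) := F.map (Equiv.prodComm (Fin m) (Fin m)).toEmbedding with hF'
  have hF'c : F'.card = F.card := Finset.card_map _
  have memF' : ∀ p : Fin m × Fin m, p ∈ F' ↔ (p.2, p.1) ∈ F := by
    intro p
    rw [hF', Finset.mem_map]
    constructor
    · rintro ⟨q, hq, rfl⟩
      exact hq
    · intro hp
      exact ⟨(p.2, p.1), hp, rfl⟩
  set Bl : ℕ → Finset (Fin m × Fin m) := fun j => (Finset.univ.filter fun x => lab x = j).offDiag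
    with hBl
  have memBl : ∀ j (p : Fin m × Fin m), p ∈ Bl j ↔ lab p.1 = j ∧ lab p.2 = j ∧ p.1 ≠ p.2 := by
    intro j p
    rw [hBl]
    simp [Finset.mem_offDiag]
  set B : Finset (Fin m × Fin m) := (Finset.range t).biUnion (fun i => Bl (i + 2)) with hB
  have hBcard : t * (r * r - r) ≤ B.card := by
    rw [hB, Finset.card_biUnion]
    · have h1 : ∑ _i ∈ Finset.range t, (r * r - r) = t * (r * r - r) := by
        rw [Finset.sum_const, Finset.card_range, smul_eq_mul]
      rw [← h1]
      refine Finset.sum_le_sum (fun i hi => ?_)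
      rw [hBl]
      dsimp only
      rw [Finset.offDiag_card]
      have h2 := h (i + 2) (by omega) (by have := Finset.mem_range.1 hi; omega)
      set c := (Finset.univ.filter fun x => lab x = i + 2).card with hc
      have h3 : r * r - r = r * (r - 1) := by rw [Nat.mul_sub, mul_one]
      have h4 : c * c - c = c * (c - 1) := by rw [Nat.mul_sub, mul_one]
      rw [h3, h4]
      exact Nat.mul_le_mul h2 (Nat.sub_le_sub_right h2 1)
    · intro i _ j _ hij
      rw [Function.onFun, Finset.disjoint_left]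
      intro p hp hp'
      rw [memBl] at hp hp'
      omega
  have hd1 : Disjoint F F' := by
    rw [Finset.disjoint_left]
    intro p hp hp'
    rw [memF'] at hp'
    rw [hF, Finset.mem_filter] at hp hp'
    exact absurd hp.2.1 (not_lt.2 (le_of_lt hp'.2.1))
  have hd2 : Disjoint (F ∪ F') B := by
    rw [Finset.disjoint_left]
    intro p hp hp'
    rw [hB, Finset.mem_biUnion] at hp'
    obtain ⟨i, _, hi⟩ := hp'
    rw [memBl] at hi
    rw [Finset.mem_union] at hp
    rcases hp with hp | hp
    · rw [hF, Finset.mem_filter] at hp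
      exact hp.2.2 ⟨by rw [hi.1, hi.2.1], by rw [hi.1]; omega⟩
    · rw [memF', hF, Finset.mem_filter] at hp
      exact hp.2.2 ⟨by show lab p.2 = lab p.1; rw [hi.1, hi.2.1], by
        show 2 ≤ lab p.2
        rw [hi.2.1]; omega⟩
  have h1 : (F ∪ F' ∪ B).card ≤ m * m := by
    refine (Finset.card_le_univ _).trans (le_of_eq ?_)
    rw [Fintype.card_prod, Fintype.card_fin]
  rw [Finset.card_union_of_disjoint hd2, Finset.card_union_of_disjoint hd1, hF'c] at h1
  rw [hFc]
  omega

theorem cls_card (K m : ℕ) (lab : Fin m → ℕ) (t r : ℕ)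
    (h : ∀ j, 2 ≤ j → j < t + 2 → r ≤ (Finset.univ.filter fun x => lab x = j).card) :
    (Nat.card {E : Matrix (Fin m) (Fin m) (RK K) // Cls K m lab E} : ℝ) ≤
      (2 : ℝ) ^ ((m : ℝ) ^ 2 / 2 - t * (r * (r - 1) / 2 : ℝ) + K * m * nsp lab) := by
  have h1 := card_cls_le (K := K) lab
  have h2 := two_card_FP lab t r h
  have h3 : (Nat.card {E : Matrix (Fin m) (Fin m) (RK K) // Cls K m lab E} : ℝ) ≤
      ((2 ^ (K * m * nsp lab) * 2 ^ Nat.card (FP lab) : ℕ) : ℝ) := by exact_mod_cast h1
  refine h3.trans ?_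
  have h4 : ((2 ^ (K * m * nsp lab) * 2 ^ Nat.card (FP lab) : ℕ) : ℝ) =
      (2 : ℝ) ^ (((K * m * nsp lab + Nat.card (FP lab) : ℕ) : ℝ)) := by
    rw [Real.rpow_natCast, pow_add]
    push_cast
    rfl
  rw [h4]
  refine Real.rpow_le_rpow_of_exponent_le (by norm_num) ?_
  have h5 : (2 : ℝ) * Nat.card (FP lab) + t * ((r : ℝ) * r - r) ≤ (m : ℝ) * m := by
    have h6 : ((2 * Nat.card (FP lab) + t * (r * r - r) : ℕ) : ℝ) ≤ ((m * m : ℕ) : ℝ) := by
      exact_mod_cast h2
    have h7 : r ≤ r * r := Nat.le_mul_self r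
    push_cast [Nat.cast_sub h7] at h6
    exact h6
  push_cast
  nlinarith

end Pool.Agent.Lib.N2
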