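import Pool.Agent.Lib.N2.Conv23
import Pool.Agent.Lib.BSG.ADKU

/-!
# Conv23U: steps 2 and 3 of the conversion lemma, unconditional
-/

set_option autoImplicit false

open Finset

namespace Pool.Agent.Lib.N2

open Pool.Agent.Lib.Cnv Pool.Agent.Lib.PFR

theorem adForm : ADForm := by
  intro K δ hδ
  obtain ⟨τ, hτ, m0, h⟩ := BSG.ad_K K δ hδ
  refine ⟨τ, hτ, m0, fun m hm G _ _ _ hG hcard b => ?_⟩
  intro c μ μ' hμ hμ' hT
  have hcard' : Fintype.card G ≤ 2 ^ (K * m) := by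
    rw [Nat.card_eq_fintype_card] at hcard
    have h1 : ((2 ^ (K * m) : ℕ) : ℝ) = (2 : ℝ) ^ ((K : ℝ) * m) := by
      push_cast
      rw [← Real.rpow_natCast]
      congr 1
      push_cast
      ring
    rw [← h1] at hcard
    exact_mod_cast hcard
  have hB : BSG.Bich (fun x y : G => (ZMod.stdAddChar (c * b x y) : ℂ)) := by
    refine ⟨fun x y => AddChar.norm_apply _ _, fun x x' y => ?_, fun x y y' => ?_⟩
    · rw [map_add, AddMonoidHom.add_apply, mul_add, AddChar.map_add_eq_mul]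
    · rw [map_add, mul_add, AddChar.map_add_eq_mul]
  obtain ⟨H, x0, y0, h1, h2⟩ := h m hm G G hG hcard'
    (fun x y => ZMod.stdAddChar (c * b x y)) hB μ μ' ⟨hμ.nonneg, hμ.sum⟩ ⟨hμ'.nonneg, hμ'.sum⟩ hT
  refine ⟨H, x0, y0, _, _, ?_, ?_, h1, h2⟩
  · intro x hx
    rw [Set.Finite.mem_toFinset] at hx
    exact hx
  · intro y hy k hk
    rw [Set.Finite.mem_toFinset] at hy
    exact ZMod.injective_stdAddChar (hy k hk)

/-- Steps 2 and 3 of the conversion lemma. -/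
theorem conv_step23 (ε : ℝ) (hε : 0 < ε) (k : ℕ) (hk : 1 ≤ k) :
    ∃ w : ℕ, ∀ ρ : ℝ, 0 < ρ → ∃ K : ℕ, k ≤ K ∧ ∃ M0 : ℕ, ∀ m : ℕ, M0 ≤ m →
      ∀ (b : (Fin m → RK K) →+ (Fin m → RK K) →+ RK K), (∀ x y, b x y = b y x) →
      ∀ μ : (Fin m → RK K) → ℝ, (∀ y, 0 ≤ μ y) → ∑ y, μ y ≤ 1 → (∀ y, μ y ≠ 0 → b y y = 0) →
      (open Classical in
        ρ ≤ ∑ v ∈ (Finset.univ.filter fun v : Fin w → Fin m → RK K =>
          ∀ i j, i ≠ j → B01 (b (v i) (v j))), ∏ i, μ (v i)) →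
      ∃ Z : Finset (Fin m → RK K), (∀ y ∈ Z, μ y ≠ 0) ∧
        (2 : ℝ) ^ (-ε * m) ≤ ∑ y ∈ Z, μ y ∧ ∀ y ∈ Z, ∀ z ∈ Z, red K k (b y z) = 0 :=
  conv_step23_of adForm ε hε k hk

end Pool.Agent.Lib.N2
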