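import Pool.Agent.Lib.N2.Def

/-!
# (S7) reduction of the modulus, forgetting blocks, trivial bound for the number of vectors
-/

set_option autoImplicit false

open Finset Matrix

namespace Pool.Agent.Lib.N2

variable {K m r : ℕ}

variable {E E' : Matrix (Fin m) (Fin m) (RK K)} {lab : Fin m → ℕ}

/-- the reduction as a ring homomorphism -/
def redHom {K k : ℕ} (hkK : k ≤ K) : RK K →+* RK k :=
  ZMod.castHom (pow_dvd_pow 2 hkK) (ZMod (2 ^ k))

theorem red_eq_redHom {k : ℕ} (hkK : k ≤ K) : red K k = fun x => redHom hkK x := rfl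

theorem red_apply {k : ℕ} (hkK : k ≤ K) (x : RK K) : red K k x = redHom hkK x := rfl

theorem B01.red {k : ℕ} (hkK : k ≤ K) {x : RK K} (hx : B01 x) : B01 (red K k x) := by
  rw [red_apply hkK]
  rcases hx with h | h
  · left; rw [h, map_zero]
  · right; rw [h, map_one]

theorem map_red {k : ℕ} (hkK : k ≤ K) (E : Matrix (Fin m) (Fin m) (RK K)) :
    E.map (red K k) = (redHom hkK).mapMatrix E := rfl

theorem cls_red {k : ℕ} (_hk : 1 ≤ k) (hkK : k ≤ K) (hE : Cls K m lab E) :
    Cls k m lab (E.map (red K k)) := by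
  refine ⟨?_, ?_, ?_, ?_, ?_⟩
  · rw [← Matrix.transpose_map, hE.symm]
  · rw [map_red hkK, ← RingHom.map_det]
    exact hE.unit.map _
  · intro x y hx hy
    exact (hE.bool x y hx hy).red hkK
  · intro x hx
    rw [Matrix.map_apply, hE.diag x hx, red_apply hkK, map_zero]
  · intro x y hxy hx
    rw [Matrix.map_apply, hE.zero x y hxy hx, red_apply hkK, map_zero]

theorem frm_red {k : ℕ} (_hk : 1 ≤ k) (hkK : k ≤ K) (hu : IsUnit E.det) (x y : Fin m → RK K) :
    frm (E.map (red K k)) (fun i => red K k (x i)) (fun i => red K k (y i))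
      = red K k (frm E x y) := by
  have h1 : (E.map (red K k))⁻¹ = (redHom hkK).mapMatrix E⁻¹ := by
    apply Matrix.inv_eq_left_inv
    rw [map_red hkK, ← map_mul, Matrix.nonsing_inv_mul E hu, map_one]
  have h2 : (⇑(redHom hkK) ∘ (E⁻¹ *ᵥ y)) =
      (redHom hkK).mapMatrix E⁻¹ *ᵥ (fun i => red K k (y i)) := by
    funext i
    exact RingHom.map_mulVec (redHom hkK) E⁻¹ y i
  unfold frm
  rw [h1, red_apply hkK, RingHom.map_dotProduct, h2]
  rfl

theorem card_special (lab : Fin m → ℕ) : Nat.card {x : Fin m // lab x = 0} = nsp lab := by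
  classical
  rw [Nat.card_eq_fintype_card, Fintype.card_subtype]
  rfl

theorem card_special_rows (lab : Fin m → ℕ) :
    Nat.card ({x : Fin m // lab x = 0} → Fin m → RK K) = 2 ^ (K * m * nsp lab) := by
  rw [Nat.card_fun, Nat.card_fun, Nat.card_zmod, card_special, ← pow_mul, ← pow_mul,
    Nat.card_eq_fintype_card, Fintype.card_fin, mul_assoc]

/-- a vector of the class is determined by the places of the ones and by the special values -/
theorem card_vec_le (lab : Fin m → ℕ) :
    Nat.card {y : Fin m → RK K // Vec lab y} ≤ 2 ^ (m + K * nsp lab) := by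
  classical
  have hinj : Function.Injective (fun y : {y : Fin m → RK K // Vec lab y} =>
      ((fun x => decide (y.1 x = 1) : Fin m → Bool),
        (fun s => y.1 s.1 : {x : Fin m // lab x = 0} → RK K))) := by
    rintro ⟨y, hy⟩ ⟨z, hz⟩ h
    simp only [Prod.mk.injEq] at h
    apply Subtype.ext
    funext x
    by_cases hx : lab x = 0
    · exact congrFun h.2 ⟨x, hx⟩
    · have h1 := congrFun h.1 x
      simp only [decide_eq_decide] at h1
      rcases hy x hx with a | a
      · rcases hz x hx with b | b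
        · show y x = z x
          rw [a, b]
        · show y x = z x
          rw [b, h1.2 b]
      · show y x = z x
        rw [a, h1.1 a]
  refine (Nat.card_le_card_of_injective _ hinj).trans (le_of_eq ?_)
  rw [Nat.card_prod, Nat.card_fun, Nat.card_fun, Nat.card_zmod, card_special,
    Nat.card_eq_fintype_card, Nat.card_eq_fintype_card, Fintype.card_bool, Fintype.card_fin,
    ← pow_mul, pow_add]

theorem card_le_of_vec {lab : Fin m → ℕ} {Z : Finset (Fin m → RK K)} (hZ : ∀ y ∈ Z, Vec lab y) :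
    Z.card ≤ 2 ^ (m + K * nsp lab) := by
  classical
  have h1 : Z.card = Nat.card {y : Fin m → RK K // y ∈ Z} := by
    rw [Nat.card_eq_fintype_card, Fintype.card_coe]
  rw [h1]
  refine le_trans (Nat.card_le_card_of_injective
    (fun y : {y : Fin m → RK K // y ∈ Z} => (⟨y.1, hZ y.1 y.2⟩ : {y // Vec lab y})) ?_)
    (card_vec_le (K := K) lab)
  intro a b h
  apply Subtype.ext
  exact congrArg (fun z => z.1) h

theorem nb_le_ni {k : ℕ} (hk : 1 ≤ k) (hkK : k ≤ K) (lab : Fin m → ℕ) (r : ℕ) (α β : ℝ)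
    (h : ∀ E, Cls K m lab E → (2 : ℝ) ^ (α * r * m) ≤ (nB r lab E : ℝ) →
      ∃ Z, Iso lab (E.map (red K k)) Z ∧ (2 : ℝ) ^ (β * m) ≤ (Z.card : ℝ)) :
    (NB K m r lab α : ℝ) ≤ (2 : ℝ) ^ (K * m * nsp lab) * (NI k m lab β : ℝ) := by
  classical
  have h01 : (0 : RK k) ≠ 1 := by
    have : Fact (1 < 2 ^ k) := ⟨Nat.one_lt_two_pow (by omega)⟩
    exact zero_ne_one
  have hinj : Function.Injective (fun E : {E : Matrix (Fin m) (Fin m) (RK K) //
      Cls K m lab E ∧ (2 : ℝ) ^ (α * r * m) ≤ (nB r lab E : ℝ)} =>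
      ((fun s y => E.1 s.1 y : {x : Fin m // lab x = 0} → Fin m → RK K),
        (⟨E.1.map (red K k), cls_red hk hkK E.2.1, h E.1 E.2.1 E.2.2⟩ :
          {E : Matrix (Fin m) (Fin m) (RK k) //
            Cls k m lab E ∧ ∃ Z, Iso lab E Z ∧ (2 : ℝ) ^ (β * m) ≤ (Z.card : ℝ)}))) := by
    rintro ⟨A, hA, hA'⟩ ⟨B, hB, hB'⟩ hAB
    simp only [Prod.mk.injEq, Subtype.mk.injEq] at hAB
    apply Subtype.ext
    funext x y
    show A x y = B x y
    by_cases hx : lab x = 0
    · exact congrFun (congrFun hAB.1 ⟨x, hx⟩) y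
    by_cases hy : lab y = 0
    · have h1 := congrFun (congrFun hAB.1 ⟨y, hy⟩) x
      have h2 : A x y = A y x := congrFun (congrFun hA.symm.symm x) y
      have h3 : B x y = B y x := congrFun (congrFun hB.symm.symm x) y
      rw [h2, h3]
      exact h1
    · have h1 : red K k (A x y) = red K k (B x y) := congrFun (congrFun hAB.2 x) y
      rw [red_apply hkK, red_apply hkK] at h1
      rcases hA.bool x y hx hy with a | a
      · rcases hB.bool x y hx hy with b | b
        · rw [a, b]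
        · rw [a, b, map_zero, map_one] at h1
          exact absurd h1 h01
      · rcases hB.bool x y hx hy with b | b
        · rw [a, b, map_zero, map_one] at h1
          exact absurd h1.symm h01
        · rw [a, b]
  have h1 := Nat.card_le_card_of_injective _ hinj
  rw [Nat.card_prod, card_special_rows] at h1
  have h2 : (NB K m r lab α : ℝ) ≤ ((2 ^ (K * m * nsp lab) * NI k m lab β : ℕ) : ℝ) := by
    exact_mod_cast h1
  refine h2.trans (le_of_eq ?_)
  push_cast
  ring

theorem ni_forget (lab lab' : Fin m → ℕ) (h0 : ∀ x, lab x = 0 ↔ lab' x = 0)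
    (h1 : ∀ x, lab' x ≤ 1) (α : ℝ) : NI K m lab α ≤ NI K m lab' α := by
  classical
  have hc : ∀ E : Matrix (Fin m) (Fin m) (RK K), Cls K m lab E → Cls K m lab' E := by
    intro E hE
    refine ⟨hE.symm, hE.unit, ?_, ?_, ?_⟩
    · intro x y hx hy
      exact hE.bool x y (fun h => hx ((h0 x).1 h)) (fun h => hy ((h0 y).1 h))
    · intro x hx
      exact hE.diag x (fun h => hx ((h0 x).1 h))
    · intro x y _ hx
      have := h1 x
      omega
  have hi : ∀ (E : Matrix (Fin m) (Fin m) (RK K)) Z, Iso lab E Z → Iso lab' E Z := by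
    intro E Z hZ
    refine ⟨fun y hy x hx => hZ.1 y hy x (fun h => hx ((h0 x).1 h)), hZ.2⟩
  unfold NI
  refine Nat.card_le_card_of_injective
    (fun E : {E : Matrix (Fin m) (Fin m) (RK K) //
      Cls K m lab E ∧ ∃ Z, Iso lab E Z ∧ (2 : ℝ) ^ (α * m) ≤ (Z.card : ℝ)} =>
      (⟨E.1, hc _ E.2.1, by
        obtain ⟨Z, hZ, hZ'⟩ := E.2.2
        exact ⟨Z, hi _ _ hZ, hZ'⟩⟩ : {E : Matrix (Fin m) (Fin m) (RK K) //
      Cls K m lab' E ∧ ∃ Z, Iso lab' E Z ∧ (2 : ℝ) ^ (α * m) ≤ (Z.card : ℝ)})) ?_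
  intro A B hAB
  apply Subtype.ext
  exact congrArg (fun z => z.1) hAB

theorem ni_large (_hK : 1 ≤ K) (lab : Fin m → ℕ) (α : ℝ)
    (h : (m : ℝ) + K * nsp lab < α * m) : NI K m lab α = 0 := by
  classical
  unfold NI
  rw [Nat.card_eq_zero]
  left
  refine ⟨?_⟩
  rintro ⟨E, _, Z, hZ, hZ'⟩
  have h1 := card_le_of_vec hZ.1
  have h2 : (Z.card : ℝ) ≤ ((2 ^ (m + K * nsp lab) : ℕ) : ℝ) := by exact_mod_cast h1
  have h3 : ((2 ^ (m + K * nsp lab) : ℕ) : ℝ) = (2 : ℝ) ^ ((m : ℝ) + K * nsp lab) := by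
    rw [show ((m : ℝ) + K * nsp lab) = ((m + K * nsp lab : ℕ) : ℝ) by push_cast; ring,
      Real.rpow_natCast]
    push_cast
    rfl
  have h4 : (2 : ℝ) ^ ((m : ℝ) + K * nsp lab) < (2 : ℝ) ^ (α * m) :=
    Real.rpow_lt_rpow_of_exponent_lt (by norm_num) h
  linarith

end Pool.Agent.Lib.N2
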