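import Pool.Agent.Lib.N2.ConvEnt
import Pool.Agent.Lib.N2.Conv23U
import Pool.Agent.Lib.N2.Red

/-!
# (S8) Conversion lemma: Boolean tuples mod `2^K` give an isotropic set mod `2^k`
-/

set_option autoImplicit false

open Finset Matrix

namespace Pool.Agent.Lib.N2

variable {K m : ℕ}

/-- `frm E` as a bi-additive map -/
noncomputable def frmHom (E : Matrix (Fin m) (Fin m) (RK K)) :
    (Fin m → RK K) →+ (Fin m → RK K) →+ RK K :=
  AddMonoidHom.mk' (fun x => AddMonoidHom.mk' (fun y => frm E x y) (by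
    intro y z
    unfold frm
    rw [Matrix.mulVec_add, dotProduct_add])) (by
    intro x x'
    refine AddMonoidHom.ext (fun y => ?_)
    show frm E (x + x') y = frm E x y + frm E x' y
    unfold frm
    rw [add_dotProduct])

theorem frmHom_apply (E : Matrix (Fin m) (Fin m) (RK K)) (x y : Fin m → RK K) :
    frmHom E x y = frm E x y := rfl

theorem frm_comm {E : Matrix (Fin m) (Fin m) (RK K)} (hs : Eᵀ = E) (x y : Fin m → RK K) :
    frm E x y = frm E y x := by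
  unfold frm
  have h1 : (E⁻¹)ᵀ = E⁻¹ := by rw [Matrix.transpose_nonsing_inv, hs]
  rw [Matrix.dotProduct_mulVec, ← Matrix.mulVec_transpose, h1, dotProduct_comm]

/-- the statement of steps 2 and 3 -/
def Step23 : Prop := ∀ (ε : ℝ), 0 < ε → ∀ (k : ℕ), 1 ≤ k →
    ∃ w : ℕ, ∀ ρ : ℝ, 0 < ρ → ∃ K : ℕ, k ≤ K ∧ ∃ M0 : ℕ, ∀ m : ℕ, M0 ≤ m →
      ∀ (b : (Fin m → RK K) →+ (Fin m → RK K) →+ RK K), (∀ x y, b x y = b y x) →
      ∀ μ : (Fin m → RK K) → ℝ, (∀ y, 0 ≤ μ y) → ∑ y, μ y ≤ 1 → (∀ y, μ y ≠ 0 → b y y = 0) →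
      (open Classical in
        ρ ≤ ∑ v ∈ (Finset.univ.filter fun v : Fin w → Fin m → RK K =>
          ∀ i j, i ≠ j → B01 (b (v i) (v j))), ∏ i, μ (v i)) →
      ∃ Z : Finset (Fin m → RK K), (∀ y ∈ Z, μ y ≠ 0) ∧
        (2 : ℝ) ^ (-ε * m) ≤ ∑ y ∈ Z, μ y ∧ ∀ y ∈ Z, ∀ z ∈ Z, red K k (b y z) = 0

/-- fibres of the reduction on admissible vectors -/
theorem card_le_image_red {k : ℕ} (hk : 1 ≤ k) (hkK : k ≤ K) (lab : Fin m → ℕ)
    (Z : Finset (Fin m → RK K)) (hZ : ∀ y ∈ Z, Vec lab y) :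
    open Classical in
    Z.card ≤ (Z.image (fun y i => red K k (y i))).card * 2 ^ (K * nsp lab) := by
  classical
  have h01 : (0 : RK k) ≠ 1 := by
    have : Fact (1 < 2 ^ k) := ⟨Nat.one_lt_two_pow (by omega)⟩
    exact zero_ne_one
  have h1 : Z.card ≤ ((Z.image (fun y i => red K k (y i))) ×ˢ
      (Finset.univ : Finset ({x : Fin m // lab x = 0} → RK K))).card := by
    refine Finset.card_le_card_of_injOn
      (fun y => ((fun i => red K k (y i)), (fun s : {x : Fin m // lab x = 0} => y s.1))) ?_ ?_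
    · intro y hy
      rw [Finset.mem_coe, Finset.mem_product]
      exact ⟨Finset.mem_image_of_mem _ hy, Finset.mem_univ _⟩
    · intro y hy z hz hyz
      simp only [Prod.mk.injEq] at hyz
      funext x
      by_cases hx : lab x = 0
      · exact congrFun hyz.2 ⟨x, hx⟩
      · have h2 : red K k (y x) = red K k (z x) := congrFun hyz.1 x
        rw [red_apply hkK, red_apply hkK] at h2
        rcases hZ y hy x hx with a | a <;> rcases hZ z hz x hx with b | b
        · rw [a, b]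
        · rw [a, b, map_zero, map_one] at h2
          exact absurd h2 h01
        · rw [a, b, map_zero, map_one] at h2
          exact absurd h2.symm h01
        · rw [a, b]
  refine h1.trans (le_of_eq ?_)
  rw [Finset.card_product, Finset.card_univ]
  congr 1
  rw [← Nat.card_eq_fintype_card, Nat.card_fun, Nat.card_zmod, card_special, ← pow_mul]

theorem conversion_aux (h23 : Step23) (κ ε : ℝ) (hκ : 0 < κ) (hε : 0 < ε) (k : ℕ) (hk : 1 ≤ k) :
    ∃ K : ℕ, k ≤ K ∧ ∃ δ : ℝ, 0 < δ ∧ ∃ M0 : ℕ, ∀ m : ℕ, M0 ≤ m →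
      ∀ r : ℕ, κ * m ≤ r → r ≤ m → ∀ lab : Fin m → ℕ, (K : ℝ) * nsp lab ≤ δ * m →
      ∀ E, Cls K m lab E → ∀ α : ℝ, 0 ≤ α → (2 : ℝ) ^ (α * r * m) ≤ (nB r lab E : ℝ) →
      ∃ Z, Iso lab (E.map (red K k)) Z ∧ (2 : ℝ) ^ ((α - ε) * m) ≤ (Z.card : ℝ) := by
  classical
  obtain ⟨w, hw⟩ := h23 (ε / 4) (by positivity) k hk
  obtain ⟨ρ, hρ, M1, h1⟩ := conv_step1 κ (ε / 4) hκ (by positivity) w
  obtain ⟨K, hkK, M2, h2⟩ := hw ρ hρ
  refine ⟨K, hkK, min 1 (ε / 4), by positivity, max M1 M2, ?_⟩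
  intro m hm r hκr hrm lab hlab E hE α hα hnB
  have hm1 : M1 ≤ m := le_trans (le_max_left _ _) hm
  have hm2 : M2 ≤ m := le_trans (le_max_right _ _) hm
  have hmR : (0 : ℝ) ≤ m := Nat.cast_nonneg m
  have hlab1 : (K : ℝ) * nsp lab ≤ m := by
    refine hlab.trans ?_
    calc min 1 (ε / 4) * (m : ℝ) ≤ 1 * m := mul_le_mul_of_nonneg_right (min_le_left _ _) hmR
      _ = m := one_mul _
  have hlab2 : (K : ℝ) * nsp lab ≤ ε / 4 * m :=
    hlab.trans (mul_le_mul_of_nonneg_right (min_le_right _ _) hmR)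
  -- the admissible vectors
  have hcard : (Fintype.card {y : Fin m → RK K // Vec lab y} : ℝ) ≤ (2 : ℝ) ^ (2 * m) := by
    have h3 := card_vec_le (K := K) lab
    rw [Nat.card_eq_fintype_card] at h3
    have h4 : K * nsp lab ≤ m := by exact_mod_cast hlab1
    have h5 : Fintype.card {y : Fin m → RK K // Vec lab y} ≤ 2 ^ (2 * m) :=
      h3.trans (Nat.pow_le_pow_right two_pos (by omega))
    exact_mod_cast h5
  set S : Finset (Fin r → {y : Fin m → RK K // Vec lab y}) :=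
    Finset.univ.filter (fun T => BTup lab E (fun a => (T a).1)) with hS
  have hScard : (nB r lab E : ℝ) ≤ S.card := by
    have h3 : nB r lab E ≤ Nat.card S := by
      unfold nB
      refine Nat.card_le_card_of_injective
        (fun T : {T : Fin r → Fin m → RK K // BTup lab E T} =>
          (⟨fun a => ⟨T.1 a, T.2.1 a⟩, by
            rw [hS, Finset.mem_filter]
            exact ⟨Finset.mem_univ _, T.2⟩⟩ : S)) ?_
      intro T T' hTT
      apply Subtype.ext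
      funext a
      have h4 := congrArg (fun x : S => (x.1 a).1) hTT
      exact h4
    rw [Nat.card_eq_fintype_card, Fintype.card_coe] at h3
    exact_mod_cast h3
  obtain ⟨μ, hμ0, hμ1, hμa, hμs, hμr⟩ := h1 m hm1 r hκr hrm {y : Fin m → RK K // Vec lab y}
    (by exact_mod_cast hcard) S (by
      intro T hT e
      rw [hS, Finset.mem_filter] at hT ⊢
      refine ⟨Finset.mem_univ _, fun a => (T (e a)).2, fun a => hT.2.2.1 (e a), fun a b => ?_⟩
      exact hT.2.2.2 (e a) (e b)) α hα (hnB.trans hScard)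
    (fun v => ∀ i j, i ≠ j → B01 (frm E (v i).1 (v j).1)) (by
      intro T hT e i j _
      rw [hS, Finset.mem_filter] at hT
      exact hT.2.2.2 (e i) (e j))
  -- extension by zero
  set ν : (Fin m → RK K) → ℝ := fun y => if h : Vec lab y then μ ⟨y, h⟩ else 0 with hν
  have hνμ : ∀ y : {y : Fin m → RK K // Vec lab y}, ν y.1 = μ y := by
    intro y
    rw [hν]
    dsimp only
    rw [dif_pos y.2]
  have hν0 : ∀ y, 0 ≤ ν y := by
    intro y
    rw [hν]
    dsimp only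
    split_ifs with h
    · exact hμ0 _
    · exact le_refl _
  have hνv : ∀ y, ν y ≠ 0 → Vec lab y := by
    intro y hy
    by_contra hc
    apply hy
    rw [hν]
    dsimp only
    rw [dif_neg hc]
  have hνsum : ∑ y, ν y = 1 := by
    rw [← hμ1]
    have h3 : ∑ y, ν y = ∑ y ∈ Finset.univ.filter (fun y => Vec lab y), ν y := by
      rw [Finset.sum_filter]
      refine Finset.sum_congr rfl (fun y _ => ?_)
      by_cases hy : Vec lab y
      · rw [if_pos hy]
      · rw [if_neg hy]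
        by_contra hc
        exact hy (hνv y hc)
    rw [h3, Finset.sum_subtype (Finset.univ.filter (fun y => Vec lab y)) (p := fun y => Vec lab y)
      (by intro x; simp)]
    exact Finset.sum_congr rfl (fun y _ => hνμ y)
  have hνb : ∀ y, ν y ≠ 0 → frmHom E y y = 0 := by
    intro y hy
    have hv := hνv y hy
    have h3 : μ ⟨y, hv⟩ ≠ 0 := by
      rw [← hνμ ⟨y, hv⟩]
      exact hy
    obtain ⟨T, hT, a, ha⟩ := hμs _ h3
    rw [hS, Finset.mem_filter] at hT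
    have h4 : frm E (T a).1 (T a).1 = 0 := hT.2.2.1 a
    rw [ha] at h4
    exact h4
  have hνr : ρ ≤ ∑ v ∈ (Finset.univ.filter fun v : Fin w → Fin m → RK K =>
      ∀ i j, i ≠ j → B01 (frmHom E (v i) (v j))), ∏ i, ν (v i) := by
    refine hμr.trans ?_
    have h3 : ∑ v ∈ ((Finset.univ.filter fun v : Fin w → {y : Fin m → RK K // Vec lab y} =>
        ∀ i j, i ≠ j → B01 (frm E (v i).1 (v j).1)).image (fun v i => (v i).1)),
          ∏ i, ν (v i) = ∑ v ∈ (Finset.univ.filter fun v : Fin w → {y : Fin m → RK K // Vec lab y} =>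
        ∀ i j, i ≠ j → B01 (frm E (v i).1 (v j).1)), ∏ i, μ (v i) := by
      rw [Finset.sum_image]
      · refine Finset.sum_congr rfl (fun v _ => Finset.prod_congr rfl (fun i _ => ?_))
        exact hνμ (v i)
      · intro v _ v' _ hvv
        funext i
        exact Subtype.ext (congrFun hvv i)
    refine le_trans (le_of_eq ?_) (le_trans (le_of_eq h3.symm) ?_)
    · congr
    refine Finset.sum_le_sum_of_subset_of_nonneg ?_ (fun v _ _ => Finset.prod_nonneg (fun i _ => hν0 _))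
    intro u hu
    rw [Finset.mem_image] at hu
    obtain ⟨v, hv, rfl⟩ := hu
    rw [Finset.mem_filter] at hv ⊢
    exact ⟨Finset.mem_univ _, fun i j hij => hv.2 i j hij⟩
  obtain ⟨Z, hZν, hZm, hZr⟩ := h2 m hm2 (frmHom E) (fun x y => frm_comm hE.symm x y) ν hν0
    hνsum.le hνb hνr
  have hZv : ∀ y ∈ Z, Vec lab y := fun y hy => hνv y (hZν y hy)
  refine ⟨Z.image (fun y i => red K k (y i)), ⟨?_, ?_⟩, ?_⟩
  · intro y hy
    rw [Finset.mem_image] at hy
    obtain ⟨z, hz, rfl⟩ := hy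
    intro x hx
    exact (hZv z hz x hx).red hkK
  · intro y hy z hz
    rw [Finset.mem_image] at hy hz
    obtain ⟨y', hy', rfl⟩ := hy
    obtain ⟨z', hz', rfl⟩ := hz
    rw [frm_red hk hkK hE.unit]
    exact hZr y' hy' z' hz'
  · have h3 : (Z.card : ℝ) ≤ ((Z.image (fun y i => red K k (y i))).card : ℝ) *
        (2 : ℝ) ^ (K * nsp lab) := by
      exact_mod_cast card_le_image_red hk hkK lab Z hZv
    have h4 : ∑ y ∈ Z, ν y ≤ Z.card * (2 : ℝ) ^ (-(α - ε / 4) * m) := by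
      calc ∑ y ∈ Z, ν y ≤ ∑ _y ∈ Z, (2 : ℝ) ^ (-(α - ε / 4) * m) := by
            refine Finset.sum_le_sum (fun y hy => ?_)
            have h5 := hνμ ⟨y, hZv y hy⟩
            rw [show ν y = μ ⟨y, hZv y hy⟩ from h5]
            exact hμa _
        _ = Z.card * (2 : ℝ) ^ (-(α - ε / 4) * m) := by
            rw [Finset.sum_const, nsmul_eq_mul]
    have h5 : (2 : ℝ) ^ (K * nsp lab) ≤ (2 : ℝ) ^ (ε / 4 * m) := by
      rw [← Real.rpow_natCast]
      refine Real.rpow_le_rpow_of_exponent_le one_le_two ?_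
      push_cast
      exact hlab2
    have h6 : (2 : ℝ) ^ (-(ε / 4) * m) * (2 : ℝ) ^ ((α - ε / 4) * m) ≤ Z.card := by
      have h7 := hZm.trans h4
      have h8 : (2 : ℝ) ^ (-(α - ε / 4) * m) * (2 : ℝ) ^ ((α - ε / 4) * m) = 1 := by
        rw [← Real.rpow_add two_pos]
        have : -(α - ε / 4) * (m : ℝ) + (α - ε / 4) * m = 0 := by ring
        rw [this, Real.rpow_zero]
      calc (2 : ℝ) ^ (-(ε / 4) * m) * (2 : ℝ) ^ ((α - ε / 4) * m)
          ≤ Z.card * (2 : ℝ) ^ (-(α - ε / 4) * m) * (2 : ℝ) ^ ((α - ε / 4) * m) :=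
            mul_le_mul_of_nonneg_right h7 (by positivity)
        _ = Z.card := by rw [mul_assoc, h8, mul_one]
    have h7 : (2 : ℝ) ^ (-(ε / 4) * m) * (2 : ℝ) ^ ((α - ε / 4) * m) ≤
        ((Z.image (fun y i => red K k (y i))).card : ℝ) * (2 : ℝ) ^ (ε / 4 * m) :=
      h6.trans (h3.trans (mul_le_mul_of_nonneg_left h5 (Nat.cast_nonneg _)))
    have h8 : (2 : ℝ) ^ (-(ε / 4) * m) * (2 : ℝ) ^ ((α - ε / 4) * m) =
        (2 : ℝ) ^ ((α - ε / 4 - ε / 4 - ε / 4) * m) * (2 : ℝ) ^ (ε / 4 * m) := by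
      rw [← Real.rpow_add two_pos, ← Real.rpow_add two_pos]
      congr 1
      ring
    rw [h8] at h7
    have h9 := le_of_mul_le_mul_right h7 (by positivity)
    refine le_trans ?_ h9
    refine Real.rpow_le_rpow_of_exponent_le one_le_two ?_
    refine mul_le_mul_of_nonneg_right ?_ hmR
    linarith

theorem conversion_of (had : ADForm) (κ ε : ℝ) (hκ : 0 < κ) (hε : 0 < ε) (k : ℕ) (hk : 1 ≤ k) :
    ∃ K : ℕ, k ≤ K ∧ ∃ δ : ℝ, 0 < δ ∧ ∃ M0 : ℕ, ∀ m : ℕ, M0 ≤ m →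
      ∀ r : ℕ, κ * m ≤ r → r ≤ m → ∀ lab : Fin m → ℕ, (K : ℝ) * nsp lab ≤ δ * m →
      ∀ E, Cls K m lab E → ∀ α : ℝ, 0 ≤ α → (2 : ℝ) ^ (α * r * m) ≤ (nB r lab E : ℝ) →
      ∃ Z, Iso lab (E.map (red K k)) Z ∧ (2 : ℝ) ^ ((α - ε) * m) ≤ (Z.card : ℝ) :=
  conversion_aux (fun ε hε k hk => conv_step23_of had ε hε k hk) κ ε hκ hε k hk

theorem conversion (κ ε : ℝ) (hκ : 0 < κ) (hε : 0 < ε) (k : ℕ) (hk : 1 ≤ k) :
    ∃ K : ℕ, k ≤ K ∧ ∃ δ : ℝ, 0 < δ ∧ ∃ M0 : ℕ, ∀ m : ℕ, M0 ≤ m →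
      ∀ r : ℕ, κ * m ≤ r → r ≤ m → ∀ lab : Fin m → ℕ, (K : ℝ) * nsp lab ≤ δ * m →
      ∀ E, Cls K m lab E → ∀ α : ℝ, 0 ≤ α → (2 : ℝ) ^ (α * r * m) ≤ (nB r lab E : ℝ) →
      ∃ Z, Iso lab (E.map (red K k)) Z ∧ (2 : ℝ) ^ ((α - ε) * m) ≤ (Z.card : ℝ) :=
  conversion_aux (fun ε hε k hk => conv_step23 ε hε k hk) κ ε hκ hε k hk

end Pool.Agent.Lib.N2
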