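import Pool.Agent.Lib.N2.Swap

/-!
# N2.SwapCountAux (S4): counting version of the exchange, abstract form
-/

set_option autoImplicit false

open Finset Matrix

namespace Pool.Agent.Lib.N2

variable {K m r : ℕ}

/-- number of pairs (matrix of the class, Boolean `r`-tuple) -/
noncomputable def NP (K m r : ℕ) (lab : Fin m → ℕ) : ℕ :=
  Nat.card {p : Matrix (Fin m) (Fin m) (RK K) × (Fin r → Fin m → RK K) //
    Cls K m lab p.1 ∧ BTup lab p.1 p.2}

/-- Abstract form: `Q E T` = independence, `pick` and `ind_count` as hypotheses. -/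
theorem swap_count_aux (lab : Fin m → ℕ) (r : ℕ) (α : ℝ)
    (Q : Matrix (Fin m) (Fin m) (RK K) → (Fin r → Fin m → RK K) → Prop)
    (hpick : ∀ E T, IsUnit E.det → Q E T →
      ∃ σ : Fin r ↪ Fin m, (∀ a, lab (σ a) = 1) ∧ IsUnit (nM E T σ).det)
    (hcount : ∀ E, ∀ Z : Finset (Fin m → RK K), (∀ y ∈ Z, Vec lab y) →
      (2 : ℝ) ^ (α * m) ≤ (Z.card : ℝ) →
      ((Z.card : ℝ) / 2) ^ r ≤
        (Nat.card {T : Fin r → Fin m → RK K // (∀ a, T a ∈ Z) ∧ Q E T} : ℝ))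
    {j : ℕ} (hj : 2 ≤ j)
    (hfree : ∀ x, lab x ≠ j) (h0 : 0 < NI K m lab α) :
    ∃ σ : Fin r ↪ Fin m, (∀ a, lab (σ a) = 1) ∧
      (NI K m lab α : ℝ) * (2 : ℝ) ^ ((α * m - 1) * r) ≤
        (m : ℝ) ^ r * (NP K m r (upd lab σ j) : ℝ) := by
  classical
  -- the matrices
  let P0 : Matrix (Fin m) (Fin m) (RK K) → Prop := fun E =>
    Cls K m lab E ∧ ∃ Z, Iso lab E Z ∧ (2 : ℝ) ^ (α * m) ≤ (Z.card : ℝ)
  let 𝓔 : Finset (Matrix (Fin m) (Fin m) (RK K)) := univ.filter P0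
  have hNI : NI K m lab α = 𝓔.card := by
    rw [NI, Nat.card_eq_fintype_card, Fintype.card_subtype]
  -- the chosen sets
  let Zf : Matrix (Fin m) (Fin m) (RK K) → Finset (Fin m → RK K) := fun E =>
    if h : P0 E then h.2.choose else ∅
  have hZf : ∀ E ∈ 𝓔, Iso lab E (Zf E) ∧ (2 : ℝ) ^ (α * m) ≤ ((Zf E).card : ℝ) := by
    intro E hE
    have h : P0 E := (Finset.mem_filter.1 hE).2
    simp only [Zf, dif_pos h]
    exact h.2.choose_spec
  let P : Finset (Matrix (Fin m) (Fin m) (RK K) × (Fin r → Fin m → RK K)) :=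
    univ.filter fun p => p.1 ∈ 𝓔 ∧ (∀ a, p.2 a ∈ Zf p.1) ∧ Q p.1 p.2
  -- lower bound
  have hlow : (𝓔.card : ℝ) * (2 : ℝ) ^ ((α * m - 1) * r) ≤ (P.card : ℝ) := by
    have h1 : P.card = ∑ E ∈ 𝓔, (P.filter fun p => p.1 = E).card :=
      Finset.card_eq_sum_card_fiberwise (fun p hp => (Finset.mem_filter.1 hp).2.1)
    rw [h1, Nat.cast_sum, ← nsmul_eq_mul]
    apply Finset.card_nsmul_le_sum
    intro E hE
    obtain ⟨hZ1, hZ2⟩ := hZf E hE
    have h2 := hcount E (Zf E) hZ1.1 hZ2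
    have h3 : (2 : ℝ) ^ ((α * m - 1) * r) ≤ (((Zf E).card : ℝ) / 2) ^ r := by
      rw [Real.rpow_mul (by norm_num), Real.rpow_natCast]
      apply pow_le_pow_left₀ (by positivity)
      rw [Real.rpow_sub (by norm_num), Real.rpow_one]
      gcongr
    refine h3.trans (h2.trans ?_)
    rw [Nat.card_eq_fintype_card, Fintype.card_subtype]
    norm_cast
    apply Finset.card_le_card_of_injOn (fun T => (E, T))
    · intro T hT
      have hT' := (Finset.mem_filter.1 hT).2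
      simp only [P, Finset.coe_filter, Set.mem_ofPred_eq, Finset.mem_filter, Finset.mem_univ,
        true_and, and_true]
      exact ⟨hE, hT'.1, hT'.2⟩
    · intro T _ T' _ h
      exact (Prod.mk.inj h).2
  -- the chosen embedding
  have hex : ∀ p ∈ P, ∃ σ : Fin r ↪ Fin m, (∀ a, lab (σ a) = 1) ∧
      IsUnit (nM p.1 p.2 σ).det := by
    intro p hp
    have hp' := (Finset.mem_filter.1 hp).2
    have hE : P0 p.1 := (Finset.mem_filter.1 hp'.1).2
    exact hpick p.1 p.2 hE.1.unit hp'.2.2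
  have hPpos : 0 < P.card := by
    rw [hNI] at h0
    have h1 : (0 : ℝ) < (𝓔.card : ℝ) * (2 : ℝ) ^ ((α * m - 1) * r) := by positivity
    exact_mod_cast h1.trans_le hlow
  obtain ⟨p0, hp0⟩ := Finset.card_pos.1 hPpos
  obtain ⟨σ0, hσ0⟩ := hex p0 hp0
  let sf : Matrix (Fin m) (Fin m) (RK K) × (Fin r → Fin m → RK K) → (Fin r ↪ Fin m) := fun p =>
    if h : p ∈ P then (hex p h).choose else σ0
  have hsf : ∀ p ∈ P, (∀ a, lab (sf p a) = 1) ∧ IsUnit (nM p.1 p.2 (sf p)).det := by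
    intro p hp
    simp only [sf, dif_pos hp]
    exact (hex p hp).choose_spec
  let Sg : Finset (Fin r ↪ Fin m) := univ.filter fun σ => ∀ a, lab (σ a) = 1
  have hSg : Sg.Nonempty := ⟨σ0, Finset.mem_filter.2 ⟨Finset.mem_univ _, hσ0.1⟩⟩
  obtain ⟨σ, hσ, hmax⟩ := Finset.exists_max_image Sg (fun σ => NP K m r (upd lab σ j)) hSg
  refine ⟨σ, (Finset.mem_filter.1 hσ).2, ?_⟩
  rw [hNI]
  refine hlow.trans ?_
  have hup : P.card ≤ ∑ τ ∈ Sg, (P.filter fun p => sf p = τ).card := by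
    rw [← Finset.card_eq_sum_card_fiberwise]
    intro p hp
    exact Finset.mem_coe.2 (Finset.mem_filter.2 ⟨Finset.mem_univ _, (hsf p hp).1⟩)
  have hfib : ∀ τ ∈ Sg, (P.filter fun p => sf p = τ).card ≤ NP K m r (upd lab σ j) := by
    intro τ hτ
    refine le_trans ?_ (hmax τ hτ)
    have hlab := (Finset.mem_filter.1 hτ).2
    rw [NP, Nat.card_eq_fintype_card, Fintype.card_subtype]
    apply Finset.card_le_card_of_injOn (fun p => (swE p.1 p.2 τ, swQ p.1 p.2 τ))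
    · intro p hp
      obtain ⟨hpP, hpσ⟩ := Finset.mem_filter.1 hp
      have hp' := (Finset.mem_filter.1 hpP).2
      have hE : P0 p.1 := (Finset.mem_filter.1 hp'.1).2
      obtain ⟨hZ1, -⟩ := hZf p.1 hp'.1
      have hN : IsUnit (nM p.1 p.2 τ).det := by
        rw [← hpσ]; exact (hsf p hpP).2
      simp only [Finset.coe_filter, Set.mem_ofPred_eq, Finset.mem_univ, true_and]
      exact ⟨swap_cls hE.1 (fun a => hZ1.1 _ (hp'.2.1 a))
          (fun a b => hZ1.2 _ (hp'.2.1 a) _ (hp'.2.1 b)) hlab hN hj hfree,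
        swap_btup hE.1 (fun a => hZ1.1 _ (hp'.2.1 a))
          (fun a b => hZ1.2 _ (hp'.2.1 a) _ (hp'.2.1 b)) hlab hN hj⟩
    · intro p hp p' hp2 heq
      obtain ⟨hpP, hpσ⟩ := Finset.mem_filter.1 hp
      obtain ⟨hpP', hpσ'⟩ := Finset.mem_filter.1 hp2
      have hE : P0 p.1 := (Finset.mem_filter.1 (Finset.mem_filter.1 hpP).2.1).2
      have hE' : P0 p'.1 := (Finset.mem_filter.1 (Finset.mem_filter.1 hpP').2.1).2
      have hN : IsUnit (nM p.1 p.2 τ).det := by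
        rw [← hpσ]; exact (hsf p hpP).2
      have hN' : IsUnit (nM p'.1 p'.2 τ).det := by
        rw [← hpσ']; exact (hsf p' hpP').2
      obtain ⟨h1, h2⟩ := Prod.mk.inj heq
      obtain ⟨h3, h4⟩ := swap_inj hE.1.symm hE'.1.symm hE.1.unit hE'.1.unit hN hN' h1 h2
      exact Prod.ext h3 h4
  have hSgc : Sg.card ≤ m ^ r := by
    calc Sg.card ≤ Fintype.card (Fin r ↪ Fin m) := Finset.card_le_univ _
      _ = m.descFactorial r := by rw [Fintype.card_embedding_eq, Fintype.card_fin, Fintype.card_fin]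
      _ ≤ m ^ r := Nat.descFactorial_le_pow m r
  have hfin : P.card ≤ m ^ r * NP K m r (upd lab σ j) := by
    refine hup.trans ((Finset.sum_le_card_nsmul _ _ _ hfib).trans ?_)
    rw [smul_eq_mul]
    exact Nat.mul_le_mul_right _ hSgc
  exact_mod_cast hfin

end Pool.Agent.Lib.N2
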