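import Pool.Agent.Lib.N2.Red
import Pool.Agent.Lib.N2.SwapCountAux

/-!
# (S5) dyadic levels of the number of Boolean tuples
-/

set_option autoImplicit false

open Finset Matrix

namespace Pool.Agent.Lib.N2

variable {K m r : ℕ}

theorem nB_le (lab : Fin m → ℕ) (r : ℕ) (hs : K * nsp lab ≤ m)
    (E : Matrix (Fin m) (Fin m) (RK K)) : nB r lab E ≤ 2 ^ (2 * m * r) := by
  classical
  unfold nB
  have h1 : Nat.card {T : Fin r → Fin m → RK K // BTup lab E T} ≤
      Nat.card (Fin r → {y : Fin m → RK K // Vec lab y}) := by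
    refine Nat.card_le_card_of_injective
      (fun T : {T : Fin r → Fin m → RK K // BTup lab E T} =>
        (fun a => (⟨T.1 a, T.2.1 a⟩ : {y : Fin m → RK K // Vec lab y}))) ?_
    intro A B hAB
    apply Subtype.ext
    funext a
    exact congrArg (fun z => z.1) (congrFun hAB a)
  refine h1.trans ?_
  rw [Nat.card_fun, Nat.card_eq_fintype_card (α := Fin r), Fintype.card_fin]
  have h2 : Nat.card {y : Fin m → RK K // Vec lab y} ≤ 2 ^ (2 * m) :=
    (card_vec_le (K := K) lab).trans (Nat.pow_le_pow_right (by norm_num) (by omega))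
  calc Nat.card {y : Fin m → RK K // Vec lab y} ^ r ≤ (2 ^ (2 * m)) ^ r :=
        Nat.pow_le_pow_left h2 r
    _ = 2 ^ (2 * m * r) := by rw [← pow_mul]

open scoped Classical in
theorem NP_eq (lab : Fin m → ℕ) : NP K m r lab =
    ∑ E : {E : Matrix (Fin m) (Fin m) (RK K) // Cls K m lab E}, nB r lab E.1 := by
  unfold NP nB
  rw [← Nat.card_sigma]
  refine Nat.card_congr
    { toFun := fun p => ⟨⟨p.1.1, p.2.1⟩, ⟨p.1.2, p.2.2⟩⟩
      invFun := fun q => ⟨(q.1.1, q.2.1), ⟨q.1.2, q.2.2⟩⟩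
      left_inv := fun p => rfl
      right_inv := fun q => rfl }

theorem level (lab : Fin m → ℕ) (r : ℕ) (hs : K * nsp lab ≤ m) {N : ℕ} (hN : 1 ≤ N) :
    ∃ i : ℕ, i ≤ 2 * N ∧ (NP K m r lab : ℝ) ≤
      (2 * N + 1) * (NB K m r lab ((i : ℝ) / N) : ℝ) * (2 : ℝ) ^ (((i + 1 : ℝ) / N) * r * m) := by
  classical
  have hN' : (0 : ℝ) < N := by exact_mod_cast hN
  -- pointwise bound
  have hpt : ∀ E : {E : Matrix (Fin m) (Fin m) (RK K) // Cls K m lab E},
      (nB r lab E.1 : ℝ) ≤ ∑ i ∈ Finset.range (2 * N + 1),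
        (if (2 : ℝ) ^ (((i : ℝ) / N) * r * m) ≤ (nB r lab E.1 : ℝ) then
          (2 : ℝ) ^ (((i + 1 : ℝ) / N) * r * m) else 0) := by
    intro E
    have hnn : ∀ i ∈ Finset.range (2 * N + 1), (0 : ℝ) ≤
        (if (2 : ℝ) ^ (((i : ℝ) / N) * r * m) ≤ (nB r lab E.1 : ℝ) then
          (2 : ℝ) ^ (((i + 1 : ℝ) / N) * r * m) else 0) := by
      intro i _
      split_ifs
      · positivity
      · exact le_refl _
    by_cases h0 : nB r lab E.1 = 0
    · rw [h0, Nat.cast_zero]
      refine Finset.sum_nonneg (fun i hi => ?_)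
      have := hnn i hi
      rw [h0, Nat.cast_zero] at this
      exact this
    · -- the largest level
      set P : ℕ → Prop := fun i => (2 : ℝ) ^ (((i : ℝ) / N) * r * m) ≤ (nB r lab E.1 : ℝ) with hP
      have hP0 : P 0 := by
        show (2 : ℝ) ^ ((((0 : ℕ) : ℝ) / N) * r * m) ≤ (nB r lab E.1 : ℝ)
        rw [Nat.cast_zero, zero_div, zero_mul, zero_mul, Real.rpow_zero]
        exact_mod_cast Nat.one_le_iff_ne_zero.2 h0
      set i := Nat.findGreatest P (2 * N) with hi
      have hi1 : P i := Nat.findGreatest_spec (Nat.zero_le _) hP0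
      have hi2 : i ≤ 2 * N := Nat.findGreatest_le _
      have hle : (nB r lab E.1 : ℝ) ≤ (2 : ℝ) ^ (((i + 1 : ℝ) / N) * r * m) := by
        rcases Nat.lt_or_ge i (2 * N) with hlt | hge
        · have h3 : ¬ P (i + 1) := Nat.findGreatest_is_greatest (Nat.lt_succ_self _) (by omega)
          have h4 : (nB r lab E.1 : ℝ) < (2 : ℝ) ^ ((((i + 1 : ℕ) : ℝ) / N) * r * m) := not_le.1 h3
          push_cast at h4
          exact h4.le
        · have h5 : i = 2 * N := le_antisymm hi2 hge
          have h6 : (nB r lab E.1 : ℝ) ≤ ((2 ^ (2 * m * r) : ℕ) : ℝ) := by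
            exact_mod_cast nB_le lab r hs E.1
          refine h6.trans ?_
          have h7 : ((2 ^ (2 * m * r) : ℕ) : ℝ) = (2 : ℝ) ^ ((2 : ℝ) * r * m) := by
            rw [show ((2 : ℝ) * r * m) = ((2 * m * r : ℕ) : ℝ) by push_cast; ring,
              Real.rpow_natCast]
            push_cast
            rfl
          rw [h7]
          refine Real.rpow_le_rpow_of_exponent_le (by norm_num) ?_
          have h8 : (2 : ℝ) ≤ ((i : ℝ) + 1) / N := by
            rw [le_div_iff₀ hN', h5]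
            push_cast
            linarith
          have h9 : (0 : ℝ) ≤ (r : ℝ) * m := by positivity
          calc (2 : ℝ) * r * m = 2 * ((r : ℝ) * m) := by ring
            _ ≤ ((i : ℝ) + 1) / N * ((r : ℝ) * m) := mul_le_mul_of_nonneg_right h8 h9
            _ = ((i : ℝ) + 1) / N * r * m := by ring
      have hmem : i ∈ Finset.range (2 * N + 1) := Finset.mem_range.2 (by omega)
      refine le_trans ?_ (Finset.single_le_sum hnn hmem)
      rw [if_pos hi1]
      exact hle
  -- sum over the class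
  have hsum : (NP K m r lab : ℝ) ≤ ∑ i ∈ Finset.range (2 * N + 1),
      (NB K m r lab ((i : ℝ) / N) : ℝ) * (2 : ℝ) ^ (((i + 1 : ℝ) / N) * r * m) := by
    rw [NP_eq, Nat.cast_sum]
    refine (Finset.sum_le_sum (fun E _ => hpt E)).trans ?_
    rw [Finset.sum_comm]
    refine Finset.sum_le_sum (fun i _ => ?_)
    rw [← Finset.sum_filter, Finset.sum_const, nsmul_eq_mul]
    refine mul_le_mul_of_nonneg_right ?_ (by positivity)
    have h1 : (Finset.univ.filter fun E : {E : Matrix (Fin m) (Fin m) (RK K) // Cls K m lab E} =>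
        (2 : ℝ) ^ (((i : ℝ) / N) * r * m) ≤ (nB r lab E.1 : ℝ)).card ≤
        NB K m r lab ((i : ℝ) / N) := by
      unfold NB
      rw [← Fintype.card_subtype, ← Nat.card_eq_fintype_card]
      refine Nat.card_le_card_of_injective
        (fun E : {E : {E : Matrix (Fin m) (Fin m) (RK K) // Cls K m lab E} //
          (2 : ℝ) ^ (((i : ℝ) / N) * r * m) ≤ (nB r lab E.1 : ℝ)} =>
          (⟨E.1.1, E.1.2, E.2⟩ : {E : Matrix (Fin m) (Fin m) (RK K) //
            Cls K m lab E ∧ (2 : ℝ) ^ (((i : ℝ) / N) * r * m) ≤ (nB r lab E : ℝ)})) ?_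
      intro A B hAB
      apply Subtype.ext
      apply Subtype.ext
      exact congrArg (fun z => z.1) hAB
    exact_mod_cast h1
  -- the best level
  have hne : (Finset.range (2 * N + 1)).Nonempty := ⟨0, Finset.mem_range.2 (by omega)⟩
  obtain ⟨i, hi, hmax⟩ := Finset.exists_max_image (Finset.range (2 * N + 1))
    (fun i : ℕ => (NB K m r lab ((i : ℝ) / N) : ℝ) * (2 : ℝ) ^ (((i + 1 : ℝ) / N) * r * m)) hne
  refine ⟨i, by have := Finset.mem_range.1 hi; omega, hsum.trans ?_⟩
  refine (Finset.sum_le_card_nsmul _ _ _ hmax).trans (le_of_eq ?_)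
  rw [Finset.card_range, nsmul_eq_mul]
  push_cast
  ring

end Pool.Agent.Lib.N2
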