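import Pool.Agent.Lib.N2.SwapCount
import Pool.Agent.Lib.N2.Level
import Pool.Agent.Lib.N2.ClsCard
import Pool.Agent.Lib.N2.Red
import Pool.Agent.Lib.N2.Conv

/-!
# The exchange chain (module S9 of the `n^2`-block)
-/

set_option autoImplicit false

open Finset Matrix

namespace Pool.Agent.Lib.N2

/-- The conversion property with explicit constants. -/
def ConvP (K k : ℕ) (κ ε δ : ℝ) (M0 : ℕ) : Prop :=
  ∀ m : ℕ, M0 ≤ m → ∀ r : ℕ, κ * m ≤ r → r ≤ m → ∀ lab : Fin m → ℕ,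
    (K : ℝ) * nsp lab ≤ δ * m → ∀ E : Matrix (Fin m) (Fin m) (RK K), Cls K m lab E →
    ∀ α : ℝ, 0 ≤ α → (2 : ℝ) ^ (α * r * m) ≤ (nB r lab E : ℝ) →
      ∃ Z, Iso lab (E.map (red K k)) Z ∧ (2 : ℝ) ^ ((α - ε) * m) ≤ (Z.card : ℝ)

theorem ConvP.mono {K k : ℕ} {κ ε δ δ' : ℝ} {M0 M0' : ℕ} (h : ConvP K k κ ε δ M0)
    (hδ : δ' ≤ δ) (hM : M0 ≤ M0') : ConvP K k κ ε δ' M0' := by
  intro m hm r hr hrm lab hlab E hE α hα hB
  exact h m (hM.trans hm) r hr hrm lab
    (hlab.trans (mul_le_mul_of_nonneg_right hδ (Nat.cast_nonneg m))) E hE α hα hB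

theorem conv_chain (κ ε : ℝ) (hκ : 0 < κ) (hε : 0 < ε) (t : ℕ) :
    ∀ k : ℕ, 1 ≤ k → ∃ Kf : ℕ → ℕ, Kf t = k ∧ (∀ i, i < t → Kf (i + 1) ≤ Kf i) ∧
      (∀ i, i ≤ t → 1 ≤ Kf i) ∧ ∃ δ : ℝ, 0 < δ ∧ ∃ M0 : ℕ,
        ∀ i, i < t → ConvP (Kf i) (Kf (i + 1)) κ ε δ M0 := by
  induction t with
  | zero =>
    intro k hk
    exact ⟨fun _ => k, rfl, fun i hi => absurd hi (by omega), fun _ _ => hk, 1, one_pos, 0,
      fun i hi => absurd hi (by omega)⟩
  | succ t ih =>
    intro k hk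
    obtain ⟨K, hkK, δ1, hδ1, M1, hconv⟩ := conversion κ ε hκ hε k hk
    obtain ⟨Kf, hKt, hmono, hpos, δ2, hδ2, M2, hchain⟩ := ih K (hk.trans hkK)
    refine ⟨fun i => if i ≤ t then Kf i else k, by simp, ?_, ?_, min δ1 δ2, lt_min hδ1 hδ2,
      max M1 M2, ?_⟩
    · intro i hi
      rcases Nat.lt_or_ge i t with h | h
      · have h1 : i + 1 ≤ t := h
        have h2 : i ≤ t := by omega
        simp only [h1, h2, if_true]
        exact hmono i h
      · have h1 : i = t := by omega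
        subst h1
        simp [hKt, hkK]
    · intro i hi
      by_cases h : i ≤ t
      · simp only [h, if_true]
        exact hpos i h
      · simp only [h, if_false]
        exact hk
    · intro i hi
      rcases Nat.lt_or_ge i t with h | h
      · have h1 : i + 1 ≤ t := h
        have h2 : i ≤ t := by omega
        simp only [h1, h2, if_true]
        exact (hchain i h).mono (min_le_right _ _) (le_max_right _ _)
      · have h1 : i = t := by omega
        subst h1
        have h3 : ¬ (i + 1 ≤ i) := by omega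
        simp only [le_refl, if_true, h3, if_false, hKt]
        have h4 : ConvP K k κ ε δ1 M1 := by
          intro m hm r hr hrm lab hlab E hE α hα hB
          exact hconv m hm r hr hrm lab hlab E hE α hα hB
        exact h4.mono (min_le_left _ _) (le_max_left _ _)

/-! ### relabelling -/

section upd

variable {m r : ℕ} {lab : Fin m → ℕ} {σ : Fin r ↪ Fin m} {j : ℕ}

theorem upd_range (a : Fin r) : upd lab σ j (σ a) = j := by
  unfold upd
  rw [if_pos ⟨a, rfl⟩]

theorem upd_out {x : Fin m} (hx : x ∉ Set.range σ) : upd lab σ j x = lab x := by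
  unfold upd
  rw [if_neg hx]

theorem upd_zero_iff (hσ : ∀ a, lab (σ a) = 1) (hj : 2 ≤ j) (x : Fin m) :
    upd lab σ j x = 0 ↔ lab x = 0 := by
  by_cases hx : x ∈ Set.range σ
  · obtain ⟨a, rfl⟩ := hx
    rw [upd_range, hσ]
    omega
  · rw [upd_out hx]

theorem nsp_upd (hσ : ∀ a, lab (σ a) = 1) (hj : 2 ≤ j) : nsp (upd lab σ j) = nsp lab := by
  unfold nsp
  congr 1
  ext x
  simp only [mem_filter, mem_univ, true_and]
  exact upd_zero_iff hσ hj x

theorem nlab_upd (hσ : ∀ a, lab (σ a) = 1) (hj : 2 ≤ j) :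
    nlab (upd lab σ j) = nlab lab + r := by
  unfold nlab
  have h : (univ.filter fun x => upd lab σ j x ≠ 1)
      = (univ.filter fun x => lab x ≠ 1) ∪ univ.map σ := by
    ext x
    simp only [mem_filter, mem_univ, true_and, mem_union, mem_map]
    by_cases hx : x ∈ Set.range σ
    · obtain ⟨a, rfl⟩ := hx
      rw [upd_range]
      constructor
      · intro _; right; exact ⟨a, rfl⟩
      · intro _; omega
    · rw [upd_out hx]
      constructor
      · intro h; left; exact h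
      · rintro (h | ⟨a, ha⟩)
        · exact h
        · exact absurd ⟨a, ha⟩ hx
  rw [h, card_union_of_disjoint, card_map, card_univ, Fintype.card_fin]
  rw [Finset.disjoint_left]
  intro x hx hx'
  simp only [mem_filter, mem_univ, true_and, mem_map] at hx hx'
  obtain ⟨a, rfl⟩ := hx'
  exact hx (hσ a)

theorem card_label_upd_new (hfree : ∀ x, lab x ≠ j) :
    (univ.filter fun x => upd lab σ j x = j).card = r := by
  have h : (univ.filter fun x => upd lab σ j x = j) = univ.map σ := by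
    ext x
    simp only [mem_filter, mem_univ, true_and, mem_map]
    by_cases hx : x ∈ Set.range σ
    · obtain ⟨a, rfl⟩ := hx
      rw [upd_range]
      exact ⟨fun _ => ⟨a, rfl⟩, fun _ => rfl⟩
    · rw [upd_out hx]
      constructor
      · intro h; exact absurd h (hfree x)
      · rintro ⟨a, ha⟩; exact absurd ⟨a, ha⟩ hx
  rw [h, card_map, card_univ, Fintype.card_fin]

theorem card_label_upd_old (hσ : ∀ a, lab (σ a) = 1) {i : ℕ} (hi : 2 ≤ i) (hij : i ≠ j) :
    (univ.filter fun x => upd lab σ j x = i) = (univ.filter fun x => lab x = i) := by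
  ext x
  simp only [mem_filter, mem_univ, true_and]
  by_cases hx : x ∈ Set.range σ
  · obtain ⟨a, rfl⟩ := hx
    rw [upd_range, hσ]
    omega
  · rw [upd_out hx]

end upd

theorem ni_mono {K m : ℕ} (lab : Fin m → ℕ) {α β : ℝ} (h : α ≤ β) :
    NI K m lab β ≤ NI K m lab α := by
  unfold NI
  refine Nat.card_le_card_of_injective
    (fun E => ⟨E.1, E.2.1, ?_⟩) ?_
  · obtain ⟨Z, hZ, hc⟩ := E.2.2
    refine ⟨Z, hZ, le_trans ?_ hc⟩
    exact Real.rpow_le_rpow_of_exponent_le (by norm_num)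
      (mul_le_mul_of_nonneg_right h (Nat.cast_nonneg m))
  · intro E E' hEE
    have h1 := Subtype.ext_iff.mp hEE
    exact Subtype.ext h1

/-- One step of the chain. -/
theorem step {K k m r N : ℕ} {κ ε δ : ℝ} {M0 : ℕ} (hk : 1 ≤ k) (hkK : k ≤ K)
    (hc : ConvP K k κ ε δ M0) (hm : M0 ≤ m) (hr : κ * m ≤ r) (hrm : r ≤ m) (hN : 1 ≤ N)
    (lab : Fin m → ℕ) (hδ : (K : ℝ) * nsp lab ≤ δ * m) (hs : K * nsp lab ≤ m) (α : ℝ)
    (hα : (nlab lab + r + K * nsp lab + 1 : ℝ) ≤ α * m) {j : ℕ} (hj : 2 ≤ j)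
    (hfree : ∀ x, lab x ≠ j) (h0 : 0 < NI K m lab α) :
    ∃ σ : Fin r ↪ Fin m, (∀ a, lab (σ a) = 1) ∧ ∃ β : ℝ,
      (NI K m lab α : ℝ) * (2 : ℝ) ^ (α * r * m) ≤
        ((2 : ℝ) ^ r * (m : ℝ) ^ r * (2 * N + 1) * (2 : ℝ) ^ (K * m * nsp lab)
          * (2 : ℝ) ^ ((ε + 1 / N) * r * m)) *
          ((NI k m (upd lab σ j) β : ℝ) * (2 : ℝ) ^ (β * r * m)) := by
  obtain ⟨σ, hσ, h1⟩ := swap_count (hk.trans hkK) lab r α hα hj hfree h0
  have hsp : nsp (upd lab σ j) = nsp lab := nsp_upd hσ hj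
  obtain ⟨i, hi, h2⟩ := level (K := K) (upd lab σ j) r (by rw [hsp]; exact hs) hN
  have hN0 : (0 : ℝ) < N := by exact_mod_cast hN
  have h3 : (NB K m r (upd lab σ j) ((i : ℝ) / N) : ℝ)
      ≤ (2 : ℝ) ^ (K * m * nsp (upd lab σ j)) * (NI k m (upd lab σ j) ((i : ℝ) / N - ε) : ℝ) := by
    refine nb_le_ni hk hkK _ r _ _ ?_
    intro E hE hB
    exact hc m hm r hr hrm _ (by rw [hsp]; exact hδ) E hE _ (by positivity) hB
  refine ⟨σ, hσ, (i : ℝ) / N - ε, ?_⟩
  rw [hsp] at h3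
  have e1 : (2 : ℝ) ^ (α * r * m) = (2 : ℝ) ^ r * (2 : ℝ) ^ ((α * m - 1) * r) := by
    rw [← Real.rpow_natCast, ← Real.rpow_add (by norm_num)]
    congr 1
    ring
  have e2 : (2 : ℝ) ^ (((i + 1 : ℝ) / N) * r * m)
      = (2 : ℝ) ^ ((ε + 1 / N) * r * m) * (2 : ℝ) ^ (((i : ℝ) / N - ε) * r * m) := by
    rw [← Real.rpow_add (by norm_num)]
    congr 1
    field_simp
    ring
  calc (NI K m lab α : ℝ) * (2 : ℝ) ^ (α * r * m)
      = (2 : ℝ) ^ r * ((NI K m lab α : ℝ) * (2 : ℝ) ^ ((α * m - 1) * r)) := by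
        rw [e1]; ring
    _ ≤ (2 : ℝ) ^ r * ((m : ℝ) ^ r * (NP K m r (upd lab σ j) : ℝ)) := by gcongr
    _ ≤ (2 : ℝ) ^ r * ((m : ℝ) ^ r * ((2 * N + 1) *
          ((2 : ℝ) ^ (K * m * nsp lab) * (NI k m (upd lab σ j) ((i : ℝ) / N - ε) : ℝ)) *
          (2 : ℝ) ^ (((i + 1 : ℝ) / N) * r * m))) := by
        gcongr
        refine h2.trans ?_
        gcongr
    _ = _ := by
        rw [e2]; ring

/-- Iterated chain. -/
theorem iter {m r t N : ℕ} {κ ε δ ψ ζ α : ℝ} {M0 : ℕ} {Kf : ℕ → ℕ} {lab0 : Fin m → ℕ}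
    (hmono : ∀ i, i < t → Kf (i + 1) ≤ Kf i) (hpos : ∀ i, i ≤ t → 1 ≤ Kf i)
    (hc : ∀ i, i < t → ConvP (Kf i) (Kf (i + 1)) κ ε δ M0) (hm : M0 ≤ m) (hr : κ * m ≤ r)
    (hrm : r ≤ m) (hr0 : 0 < r) (hN : 1 ≤ N) (hlab : ∀ x, lab0 x ≤ 1) (hδ0 : 0 ≤ δ) (hδ1 : δ ≤ 1)
    (hs : (Kf 0 : ℝ) * nsp lab0 ≤ δ * m)
    (hF : (2 : ℝ) ^ r * (m : ℝ) ^ r * (2 * N + 1) * (2 : ℝ) ^ (δ * m * m)
          * (2 : ℝ) ^ ((ε + 1 / N) * r * m) ≤ (2 : ℝ) ^ (ψ * m * m))
    (hbig : (2 : ℝ) ^ ((1 / 2 - ζ) * (m : ℝ) ^ 2) < (NI (Kf 0) m lab0 α : ℝ))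
    (h5 : ∀ i, i ≤ t → 0.9 * α * r * m ≤
      α * r * m - ζ * m ^ 2 + i * (r * (r - 1) / 2 : ℝ) - δ * m ^ 2 - i * ψ * m ^ 2)
    (h6 : (nsp lab0 + t * r + δ * m + 1 : ℝ) ≤ 0.9 * α * m) :
    ∀ i, i ≤ t → ∃ (lab : Fin m → ℕ) (β : ℝ), (∀ x, lab x = 0 ↔ lab0 x = 0) ∧
      (∀ x, lab x < i + 2) ∧ (∀ j, 2 ≤ j → j < i + 2 → r ≤ (univ.filter fun x => lab x = j).card) ∧
      nlab lab = nsp lab0 + i * r ∧
      (2 : ℝ) ^ ((1 / 2 - ζ) * (m : ℝ) ^ 2) * (2 : ℝ) ^ (α * r * m) <
        (2 : ℝ) ^ (i * ψ * m * m) * ((NI (Kf i) m lab β : ℝ) * (2 : ℝ) ^ (β * r * m)) := by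
  have hK0 : ∀ i, i ≤ t → Kf i ≤ Kf 0 := by
    intro i
    induction i with
    | zero => intro _; exact le_refl _
    | succ i ih => intro hi; exact (hmono i (by omega)).trans (ih (by omega))
  intro i
  induction i with
  | zero =>
    intro _
    refine ⟨lab0, α, fun _ => Iff.rfl, fun x => by have := hlab x; omega,
      fun j h1 h2 => by omega, ?_, ?_⟩
    · simp only [zero_mul, add_zero]
      unfold nlab nsp
      congr 1
      ext x
      simp only [mem_filter, mem_univ, true_and]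
      have := hlab x
      omega
    · simp only [Nat.cast_zero, zero_mul, Real.rpow_zero, one_mul]
      exact mul_lt_mul_of_pos_right hbig (Real.rpow_pos_of_pos (by norm_num) _)
  | succ i ih =>
    intro hi
    obtain ⟨lab, β, hz, hlt, hblk, hnl, hinv⟩ := ih (by omega)
    have hsp : nsp lab = nsp lab0 := by
      unfold nsp
      congr 1
      ext x
      simp only [mem_filter, mem_univ, true_and]
      exact hz x
    have hKi : (Kf i : ℝ) ≤ Kf 0 := by exact_mod_cast hK0 i (by omega)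
    have hsi : (Kf i : ℝ) * nsp lab ≤ δ * m := by
      rw [hsp]
      exact (mul_le_mul_of_nonneg_right hKi (Nat.cast_nonneg _)).trans hs
    have hmm : (0 : ℝ) ≤ m := Nat.cast_nonneg m
    have hNI : 0 < NI (Kf i) m lab β := by
      rcases Nat.eq_zero_or_pos (NI (Kf i) m lab β) with h | h
      · exfalso
        rw [h] at hinv
        simp only [Nat.cast_zero, zero_mul, mul_zero] at hinv
        have : (0 : ℝ) < (2 : ℝ) ^ ((1 / 2 - ζ) * (m : ℝ) ^ 2) * (2 : ℝ) ^ (α * r * m) := by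
          positivity
        linarith
      · exact h
    -- lower bound for β
    have hβ : 0.9 * α * m ≤ β * m := by
      have hcard : (NI (Kf i) m lab β : ℝ) ≤
          (2 : ℝ) ^ ((m : ℝ) ^ 2 / 2 - i * (r * (r - 1) / 2 : ℝ) + Kf i * m * nsp lab) := by
        refine le_trans ?_ (cls_card (Kf i) m lab i r hblk)
        have : NI (Kf i) m lab β ≤
            Nat.card {E : Matrix (Fin m) (Fin m) (RK (Kf i)) // Cls (Kf i) m lab E} := by
          unfold NI
          have : NeZero (2 ^ (Kf i)) := ⟨by positivity⟩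
          refine Nat.card_le_card_of_injective (fun E => ⟨E.1, E.2.1⟩) ?_
          intro E E' hEE
          have h1 := Subtype.ext_iff.mp hEE
          exact Subtype.ext h1
        exact_mod_cast this
      have h7 : (2 : ℝ) ^ ((1 / 2 - ζ) * (m : ℝ) ^ 2 + α * r * m) <
          (2 : ℝ) ^ (i * ψ * m * m + ((m : ℝ) ^ 2 / 2 - i * (r * (r - 1) / 2 : ℝ)
            + Kf i * m * nsp lab) + β * r * m) := by
        rw [Real.rpow_add (by norm_num), Real.rpow_add (by norm_num),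
          Real.rpow_add (by norm_num)]
        refine hinv.trans_le ?_
        calc (2 : ℝ) ^ (i * ψ * m * m) * ((NI (Kf i) m lab β : ℝ) * (2 : ℝ) ^ (β * r * m))
            ≤ (2 : ℝ) ^ (i * ψ * m * m) * ((2 : ℝ) ^ ((m : ℝ) ^ 2 / 2
                - i * (r * (r - 1) / 2 : ℝ) + Kf i * m * nsp lab) * (2 : ℝ) ^ (β * r * m)) := by
              refine mul_le_mul_of_nonneg_left ?_ (by positivity)
              exact mul_le_mul_of_nonneg_right hcard (by positivity)
          _ = _ := by ring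
      rw [Real.rpow_lt_rpow_left_iff (by norm_num)] at h7
      have h8 := h5 i (by omega)
      have h9 : (Kf i : ℝ) * m * nsp lab ≤ δ * m ^ 2 := by nlinarith
      have h10 : 0.9 * α * r * m < β * r * m := by nlinarith
      have hr' : (0 : ℝ) < r := by exact_mod_cast hr0
      have h11 : r * (0.9 * α * m) < r * (β * m) := by nlinarith
      exact (lt_of_mul_lt_mul_left h11 hr'.le).le
    have hcond : (nlab lab + r + Kf i * nsp lab + 1 : ℝ) ≤ β * m := by
      have h1 : (nlab lab : ℝ) = nsp lab0 + i * r := by exact_mod_cast hnl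
      have h2 : ((i : ℝ) + 1) * r ≤ t * r := by
        have : ((i : ℝ) + 1) ≤ t := by exact_mod_cast hi
        exact mul_le_mul_of_nonneg_right this (Nat.cast_nonneg _)
      nlinarith
    have hsm : Kf i * nsp lab ≤ m := by
      have : ((Kf i * nsp lab : ℕ) : ℝ) ≤ m := by
        push_cast
        nlinarith
      exact_mod_cast this
    obtain ⟨σ, hσ, β', hst⟩ := step (hpos (i + 1) hi) (hmono i (by omega)) (hc i (by omega)) hm
      hr hrm hN lab hsi hsm β hcond (j := i + 2) (by omega) (fun x => by have := hlt x; omega) hNI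
    refine ⟨upd lab σ (i + 2), β', ?_, ?_, ?_, ?_, ?_⟩
    · intro x
      rw [upd_zero_iff hσ (by omega) x, hz x]
    · intro x
      by_cases hx : x ∈ Set.range σ
      · obtain ⟨a, rfl⟩ := hx
        rw [upd_range]
        omega
      · rw [upd_out hx]
        have := hlt x
        omega
    · intro j h1 h2
      rcases Nat.lt_or_ge j (i + 2) with h | h
      · rw [card_label_upd_old hσ h1 (by omega)]
        exact hblk j h1 h
      · have hj : j = i + 2 := by omega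
        subst hj
        rw [card_label_upd_new (fun x => by have := hlt x; omega)]
    · rw [nlab_upd hσ (by omega), hnl]
      ring
    · refine hinv.trans_le ?_
      have h12 : ((2 : ℝ) ^ r * (m : ℝ) ^ r * (2 * N + 1) * (2 : ℝ) ^ (Kf i * m * nsp lab)
          * (2 : ℝ) ^ ((ε + 1 / N) * r * m)) ≤ (2 : ℝ) ^ (ψ * m * m) := by
        refine le_trans ?_ hF
        have h13 : (2 : ℝ) ^ (Kf i * m * nsp lab) ≤ (2 : ℝ) ^ (δ * m * m) := by
          rw [← Real.rpow_natCast]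
          refine Real.rpow_le_rpow_of_exponent_le (by norm_num) ?_
          push_cast
          nlinarith
        gcongr
      have h14 : (2 : ℝ) ^ (((i + 1 : ℕ) : ℝ) * ψ * m * m)
          = (2 : ℝ) ^ (i * ψ * m * m) * (2 : ℝ) ^ (ψ * m * m) := by
        rw [← Real.rpow_add (by norm_num)]
        congr 1
        push_cast
        ring
      calc (2 : ℝ) ^ (i * ψ * m * m) * ((NI (Kf i) m lab β : ℝ) * (2 : ℝ) ^ (β * r * m))
          ≤ (2 : ℝ) ^ (i * ψ * m * m) * ((2 : ℝ) ^ (ψ * m * m) *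
              ((NI (Kf (i + 1)) m (upd lab σ (i + 2)) β' : ℝ) * (2 : ℝ) ^ (β' * r * m))) := by
            refine mul_le_mul_of_nonneg_left (hst.trans ?_) (by positivity)
            exact mul_le_mul_of_nonneg_right h12 (by positivity)
        _ = _ := by rw [h14]; ring

end Pool.Agent.Lib.N2
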