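import Mathlib

/-!
# The `n^2`-scale theorem (route P of MP_686cbb sharp): definitions

`RK K = Z/2^K`.  Everything lives on the index type `Fin m`; `lab : Fin m → ℕ` labels the indices:
`0` = special (arbitrary row), `1` = ordinary, `j ≥ 2` = member of the zero block number `j`.
-/

set_option autoImplicit false

open Finset Matrix

namespace Pool.Agent.Lib.N2

/-- The residue ring `Z/2^K`. -/
abbrev RK (K : ℕ) := ZMod (2 ^ K)

/-- Being `0` or `1`. -/
def B01 {R : Type*} [Zero R] [One R] (x : R) : Prop := x = 0 ∨ x = 1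

/-- The form `b_E(x, y) = x^T E⁻¹ y`. -/
noncomputable def frm {K m : ℕ} (E : Matrix (Fin m) (Fin m) (RK K)) (x y : Fin m → RK K) : RK K :=
  x ⬝ᵥ (E⁻¹ *ᵥ y)

/-- The class of matrices with label function `lab`. -/
structure Cls (K m : ℕ) (lab : Fin m → ℕ) (E : Matrix (Fin m) (Fin m) (RK K)) : Prop where
  symm : Eᵀ = E
  unit : IsUnit E.det
  bool : ∀ x y, lab x ≠ 0 → lab y ≠ 0 → B01 (E x y)
  diag : ∀ x, lab x ≠ 0 → E x x = 0
  zero : ∀ x y, lab x = lab y → 2 ≤ lab x → E x y = 0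

/-- Admissible vectors: `0/1` at every index which is not special. -/
def Vec {K m : ℕ} (lab : Fin m → ℕ) (y : Fin m → RK K) : Prop := ∀ x, lab x ≠ 0 → B01 (y x)

/-- Isotropic sets (exactly isotropic over `Z/2^K`). -/
def Iso {K m : ℕ} (lab : Fin m → ℕ) (E : Matrix (Fin m) (Fin m) (RK K))
    (Z : Finset (Fin m → RK K)) : Prop :=
  (∀ y ∈ Z, Vec lab y) ∧ ∀ y ∈ Z, ∀ z ∈ Z, frm E y z = 0

/-- Boolean tuples: `b(T a, T a) = 0`, `b(T a, T b) ∈ {0, 1}`. -/
def BTup {K m : ℕ} {ι : Type*} (lab : Fin m → ℕ) (E : Matrix (Fin m) (Fin m) (RK K))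
    (T : ι → Fin m → RK K) : Prop :=
  (∀ a, Vec lab (T a)) ∧ (∀ a, frm E (T a) (T a) = 0) ∧ ∀ a b, B01 (frm E (T a) (T b))

/-- number of special indices -/
def nsp {m : ℕ} (lab : Fin m → ℕ) : ℕ := (Finset.univ.filter fun x => lab x = 0).card

/-- number of indices which are not ordinary -/
def nlab {m : ℕ} (lab : Fin m → ℕ) : ℕ := (Finset.univ.filter fun x => lab x ≠ 1).card

/-- `#{E in the class with an isotropic set of at least 2^(α m) elements}` -/
noncomputable def NI (K m : ℕ) (lab : Fin m → ℕ) (α : ℝ) : ℕ :=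
  Nat.card {E : Matrix (Fin m) (Fin m) (RK K) //
    Cls K m lab E ∧ ∃ Z, Iso lab E Z ∧ (2 : ℝ) ^ (α * m) ≤ (Z.card : ℝ)}

/-- number of Boolean `r`-tuples of `E` -/
noncomputable def nB {K m : ℕ} (r : ℕ) (lab : Fin m → ℕ) (E : Matrix (Fin m) (Fin m) (RK K)) : ℕ :=
  Nat.card {T : Fin r → Fin m → RK K // BTup lab E T}

/-- `#{E in the class with at least 2^(α r m) Boolean r-tuples}` -/
noncomputable def NB (K m r : ℕ) (lab : Fin m → ℕ) (α : ℝ) : ℕ :=
  Nat.card {E : Matrix (Fin m) (Fin m) (RK K) //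
    Cls K m lab E ∧ (2 : ℝ) ^ (α * r * m) ≤ (nB r lab E : ℝ)}

/-- relabelling: the indices in the range of `σ` get the new label `j` -/
noncomputable def upd {m r : ℕ} (lab : Fin m → ℕ) (σ : Fin r ↪ Fin m) (j : ℕ) : Fin m → ℕ :=
  open Classical in fun x => if x ∈ Set.range σ then j else lab x

/-- reduction of the modulus -/
def red (K k : ℕ) : ZMod (2 ^ K) → ZMod (2 ^ k) := ZMod.cast

/-- The basis change of the exchange: the column `σ a` becomes `E⁻¹ T_a`. -/
noncomputable def nM {K m r : ℕ} (E : Matrix (Fin m) (Fin m) (RK K)) (T : Fin r → Fin m → RK K)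
    (σ : Fin r ↪ Fin m) : Matrix (Fin m) (Fin m) (RK K) :=
  open Classical in
  Matrix.of fun x y => if h : ∃ a, σ a = y then (E⁻¹ *ᵥ T h.choose) x else (if x = y then 1 else 0)

/-- The matrix after the exchange (index `σ a` replaced by the vector `T a`). -/
noncomputable def swE {K m r : ℕ} (E : Matrix (Fin m) (Fin m) (RK K)) (T : Fin r → Fin m → RK K)
    (σ : Fin r ↪ Fin m) : Matrix (Fin m) (Fin m) (RK K) :=
  (nM E T σ)ᵀ * E * nM E T σ

/-- The removed indices, as vectors for the matrix after the exchange. -/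
noncomputable def swQ {K m r : ℕ} (E : Matrix (Fin m) (Fin m) (RK K)) (T : Fin r → Fin m → RK K)
    (σ : Fin r ↪ Fin m) : Fin r → Fin m → RK K :=
  fun a => (nM E T σ)ᵀ *ᵥ (fun x => E x (σ a))

end Pool.Agent.Lib.N2
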