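import Pool.Agent.Lib.Cnv.Pieces
import Pool.Agent.Lib.Cnv.Orth
import Pool.Agent.Lib.N2.Def

/-!
# Conv23: steps 2 and 3 of the conversion lemma
-/

set_option autoImplicit false

open Finset

namespace Pool.Agent.Lib.N2

open Pool.Agent.Lib.Cnv Pool.Agent.Lib.PFR

/-- approximate duality modulo `2^K`, asymptotic form -/
def ADForm : Prop :=
  ∀ (K : ℕ) (δ : ℝ), 0 < δ → ∃ τ : ℝ, 0 < τ ∧ ∃ m0 : ℕ, ∀ m : ℕ, m0 ≤ m →
    ∀ (G : Type) [AddCommGroup G] [Fintype G] [NeZero (2 ^ K)], (∀ x : G, 2 ^ K • x = 0) →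
      (Nat.card G : ℝ) ≤ (2 : ℝ) ^ ((K : ℝ) * m) → ∀ b : G →+ G →+ ZMod (2 ^ K),
      AD b ((2 : ℝ) ^ (-(τ * m))) ((2 : ℝ) ^ (-(δ * m)))

/-- `2^(K-k) a = 0` in `Z/2^K` means that `a` is `0` modulo `2^k` -/
theorem red_eq_zero {K k : ℕ} (hkK : k ≤ K) (a : ZMod (2 ^ K))
    (h : (2 : ZMod (2 ^ K)) ^ (K - k) * a = 0) : red K k a = 0 := by
  have : NeZero (2 ^ K) := ⟨by positivity⟩
  have h1 : ((2 ^ (K - k) * a.val : ℕ) : ZMod (2 ^ K)) = 0 := by
    push_cast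
    rw [ZMod.natCast_zmod_val a]
    exact h
  rw [ZMod.natCast_eq_zero_iff] at h1
  have h2 : 2 ^ (K - k) * 2 ^ k ∣ 2 ^ (K - k) * a.val := by
    rwa [← pow_add, Nat.sub_add_cancel hkK]
  have h3 : 2 ^ k ∣ a.val := Nat.dvd_of_mul_dvd_mul_left (by positivity) h2
  unfold red
  rw [ZMod.cast_eq_val, ZMod.natCast_eq_zero_iff]
  exact h3

/-- if `a` is `0` modulo `2^k` then it is a multiple of `2^k` -/
theorem eq_mul_of_castHom {K k : ℕ} (hkK : k ≤ K) (a : ZMod (2 ^ K))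
    (h : ZMod.castHom (pow_dvd_pow 2 hkK) (ZMod (2 ^ k)) a = 0) :
    ∃ c : ZMod (2 ^ K), a = (2 : ZMod (2 ^ K)) ^ k * c := by
  have : NeZero (2 ^ K) := ⟨by positivity⟩
  rw [ZMod.castHom_apply, ZMod.cast_eq_val, ZMod.natCast_eq_zero_iff] at h
  obtain ⟨c, hc⟩ := h
  refine ⟨(c : ZMod (2 ^ K)), ?_⟩
  have h1 : ((a.val : ℕ) : ZMod (2 ^ K)) = a := ZMod.natCast_zmod_val a
  rw [← h1, hc]
  push_cast
  ring

theorem conv_step23_of (had : ADForm) (ε : ℝ) (hε : 0 < ε) (k : ℕ) (hk : 1 ≤ k) :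
    ∃ w : ℕ, ∀ ρ : ℝ, 0 < ρ → ∃ K : ℕ, k ≤ K ∧ ∃ M0 : ℕ, ∀ m : ℕ, M0 ≤ m →
      ∀ (b : (Fin m → RK K) →+ (Fin m → RK K) →+ RK K), (∀ x y, b x y = b y x) →
      ∀ μ : (Fin m → RK K) → ℝ, (∀ y, 0 ≤ μ y) → ∑ y, μ y ≤ 1 → (∀ y, μ y ≠ 0 → b y y = 0) →
      (open Classical in
        ρ ≤ ∑ v ∈ (Finset.univ.filter fun v : Fin w → Fin m → RK K =>
          ∀ i j, i ≠ j → B01 (b (v i) (v j))), ∏ i, μ (v i)) →
      ∃ Z : Finset (Fin m → RK K), (∀ y ∈ Z, μ y ≠ 0) ∧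
        (2 : ℝ) ^ (-ε * m) ≤ ∑ y ∈ Z, μ y ∧ ∀ y ∈ Z, ∀ z ∈ Z, red K k (b y z) = 0 := by
  classical
  obtain ⟨w, hw⟩ := exists_nat_ge (8 * (k + 1 : ℝ) / ε)
  have hkR : (0 : ℝ) < k + 1 := by positivity
  have hw0' : (0 : ℝ) < w := lt_of_lt_of_le (by positivity) hw
  have hw0 : 0 < w := by exact_mod_cast hw0'
  refine ⟨w, ?_⟩
  intro ρ hρ
  -- the choice of `K`
  obtain ⟨K0, hK0⟩ := pow_unbounded_of_one_lt (4 * ((w : ℝ) ^ 2 * (2 * 2 ^ k)) / ρ)
    (one_lt_two : (1 : ℝ) < 2)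
  set K := max (k + 1) K0 with hKdef
  have hkK : k + 1 ≤ K := le_max_left _ _
  have hK1 : 4 * ((w : ℝ) ^ 2 * (2 * 2 ^ k)) / ρ < (2 : ℝ) ^ K :=
    lt_of_lt_of_le hK0 (pow_le_pow_right₀ one_le_two (le_max_right _ _))
  have hK2 : (w : ℝ) ^ 2 * (2 * (2 ^ k / 2 ^ K)) < ρ / 4 := by
    rw [div_lt_iff₀ hρ] at hK1
    have h2K : (0 : ℝ) < 2 ^ K := by positivity
    rw [show (w : ℝ) ^ 2 * (2 * (2 ^ k / 2 ^ K)) = ((w : ℝ) ^ 2 * (2 * 2 ^ k)) / 2 ^ K by
      field_simp, div_lt_iff₀ h2K]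
    linarith
  refine ⟨K, by omega, ?_⟩
  have hKpos : (0 : ℝ) < K := by
    have : 0 < K := by omega
    exact_mod_cast this
  have : NeZero (2 ^ K) := ⟨by positivity⟩
  set η : ℝ := ε / (8 * w) with hη
  have hη0 : 0 < η := by positivity
  obtain ⟨J0, hJ0⟩ := exists_nat_gt ((K : ℝ) / η)
  set J := J0 with hJdef
  have hJη : (K : ℝ) < η * J := by
    rw [div_lt_iff₀ hη0] at hJ0
    linarith
  set d : ℝ := ε / (8 * (J + 1)) with hd
  have hd0 : 0 < d := by positivity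
  obtain ⟨τ, hτ, m1, hAD⟩ := had K d hd0
  -- large m
  have hdecay : ∀ (c C : ℝ), 0 < c → 0 < C → ∃ M : ℕ, ∀ m : ℕ, M ≤ m →
      (2 : ℝ) ^ (-(c * m)) ≤ C := by
    intro c C hc hC
    obtain ⟨M, hM⟩ := exists_nat_ge (-(Real.logb 2 C) / c)
    refine ⟨M, fun m hm => ?_⟩
    have h1 : -(Real.logb 2 C) / c ≤ m := hM.trans (by exact_mod_cast hm)
    rw [div_le_iff₀ hc] at h1
    have h2 : -(c * m) ≤ Real.logb 2 C := by linarith
    calc (2 : ℝ) ^ (-(c * m)) ≤ (2 : ℝ) ^ (Real.logb 2 C) :=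
          Real.rpow_le_rpow_of_exponent_le one_le_two h2
      _ = C := Real.rpow_logb zero_lt_two (by norm_num) hC
  obtain ⟨m2, hm2⟩ := hdecay d (ρ / (8 * w)) hd0 (by positivity)
  obtain ⟨m3, hm3⟩ := hdecay τ (ρ / (8 * w ^ 2)) hτ (by positivity)
  obtain ⟨m4, hm4⟩ := hdecay (ε / 2) ρ (by positivity) hρ
  refine ⟨max (max m1 m2) (max (max m3 m4) 1), ?_⟩
  intro m hm b hbs μ hμ0 hμ1 hiso hρle
  have hmm1 : m1 ≤ m := le_trans (le_trans (le_max_left _ _) (le_max_left _ _)) hm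
  have hmm2 : m2 ≤ m := le_trans (le_trans (le_max_right _ _) (le_max_left _ _)) hm
  have hmm3 : m3 ≤ m := le_trans (le_trans (le_trans (le_max_left _ _) (le_max_left _ _))
    (le_max_right _ _)) hm
  have hmm4 : m4 ≤ m := le_trans (le_trans (le_trans (le_max_right _ _) (le_max_left _ _))
    (le_max_right _ _)) hm
  have hmm5 : 1 ≤ m := le_trans (le_trans (le_max_right _ _) (le_max_right _ _)) hm
  have hmR : (1 : ℝ) ≤ m := by exact_mod_cast hmm5
  have hm0 : (0 : ℝ) < m := by linarith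
  -- the total mass
  set M : ℝ := ∑ y, μ y with hMdef
  have hM0' : 0 ≤ M := Finset.sum_nonneg (fun y _ => hμ0 y)
  have hMw : ∑ v : Fin w → Fin m → RK K, ∏ i, μ (v i) = M ^ w := by
    have h := Finset.prod_univ_sum (fun _ : Fin w => (Finset.univ : Finset (Fin m → RK K)))
      (fun _ z => μ z)
    rw [Fintype.piFinset_univ] at h
    rw [← h, Finset.prod_const, Finset.card_univ, Fintype.card_fin]
  have hρM : ρ ≤ M ^ w := by
    rw [← hMw]
    refine hρle.trans (Finset.sum_le_sum_of_subset_of_nonneg (Finset.filter_subset _ _) ?_)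
    intro v _ _
    exact Finset.prod_nonneg (fun i _ => hμ0 _)
  have hMw1 : M ^ w ≤ 1 := pow_le_one₀ hM0' hμ1
  have hMwM : M ^ w ≤ M := by
    calc M ^ w ≤ M ^ 1 := pow_le_pow_of_le_one hM0' hμ1 hw0
      _ = M := pow_one M
  have hMpos : 0 < M := lt_of_lt_of_le hρ (hρM.trans hMwM)
  -- the normalised measure
  set ν : (Fin m → RK K) → ℝ := fun y => μ y / M with hν
  have hνPM : PM ν := by
    refine ⟨fun y => div_nonneg (hμ0 y) hM0', ?_⟩
    rw [hν, ← Finset.sum_div]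
    exact div_self hMpos.ne'
  obtain ⟨R, hR⟩ : ∃ R : (Fin w → Fin m → RK K) → Prop,
      ∀ v, R v ↔ ∀ i j, i ≠ j → B01 (b (v i) (v j)) := ⟨_, fun v => Iff.rfl⟩
  have hsumR : ρ ≤ ∑ t : Fin w → Fin m → RK K, if R t then ∏ l, ν (t l) else 0 := by
    have hfil : ∑ t : Fin w → Fin m → RK K, (if R t then ∏ l, ν (t l) else 0) =
        ∑ v ∈ (Finset.univ.filter fun v : Fin w → Fin m → RK K =>
          ∀ i j, i ≠ j → B01 (b (v i) (v j))), ∏ i, ν (v i) := by
      rw [Finset.sum_filter]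
      refine Finset.sum_congr rfl (fun t _ => ?_)
      by_cases h : R t
      · rw [if_pos h, if_pos ((hR t).1 h)]
      · rw [if_neg h, if_neg (fun h' => h ((hR t).2 h'))]
    rw [hfil]
    have h1 : ∀ t : Fin w → Fin m → RK K, ∏ l, ν (t l) = (∏ l, μ (t l)) / M ^ w := by
      intro t
      simp only [hν]
      rw [Finset.prod_div_distrib, Finset.prod_const, Finset.card_univ, Fintype.card_fin]
    rw [Finset.sum_congr rfl (fun t _ => h1 t), ← Finset.sum_div, le_div_iff₀ (by positivity)]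
    calc ρ * M ^ w ≤ ρ * 1 := mul_le_mul_of_nonneg_left hMw1 hρ.le
      _ = ρ := mul_one ρ
      _ ≤ _ := hρle
  -- the group
  have hkill : ∀ x : Fin m → RK K, 2 ^ K • x = 0 := by
    intro x
    funext i
    have h1 : ((2 ^ K : ℕ) : ZMod (2 ^ K)) = 0 := ZMod.natCast_self (2 ^ K)
    rw [Pi.smul_apply, nsmul_eq_mul, h1, zero_mul]
    rfl
  have hcard : (Nat.card (Fin m → RK K) : ℝ) = (2 : ℝ) ^ ((K : ℝ) * m) := by
    rw [Nat.card_eq_fintype_card, Fintype.card_fun, Fintype.card_fin, ZMod.card]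
    push_cast
    rw [← pow_mul, ← Real.rpow_natCast]
    congr 1
    push_cast
    ring
  have hADm := hAD m hmm1 (Fin m → RK K) hkill hcard.le b
  set D : ℕ → ℝ := fun j => (2 : ℝ) ^ (-((j + 1 : ℝ) * d * m)) with hD
  have hD0 : ∀ j, 0 < D j := fun j => by rw [hD]; positivity
  have hDs : ∀ j, D (j + 1) ≤ (2 : ℝ) ^ (-(d * m)) * D j := by
    intro j
    rw [hD]
    dsimp only
    rw [← Real.rpow_add zero_lt_two]
    refine le_of_eq ?_
    congr 1
    push_cast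
    ring
  set e : ℝ := (2 : ℝ) ^ (-(η * m)) with he
  have he0 : 0 < e := by positivity
  have hJcard : e ^ J * (Nat.card (Fin m → RK K) : ℝ) < 1 := by
    rw [hcard, he, ← Real.rpow_mul_natCast zero_le_two, ← Real.rpow_add zero_lt_two]
    refine Real.rpow_lt_one_of_one_lt_of_neg one_lt_two ?_
    have := mul_lt_mul_of_pos_right hJη hm0
    linarith
  have hDs0 : D 0 = (2 : ℝ) ^ (-(d * m)) := by
    rw [hD]
    dsimp only
    congr 1
    push_cast
    ring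
  have hbound : w * D 0 + (w : ℝ) ^ 2 * (2 * ((2 : ℝ) ^ (k + 1 - 1) / 2 ^ K +
      (2 : ℝ) ^ (-(τ * m)))) < ∑ t : Fin w → Fin m → RK K, if R t then ∏ l, ν (t l) else 0 := by
    refine lt_of_lt_of_le ?_ hsumR
    rw [hDs0, Nat.add_sub_cancel]
    have h1 := hm2 m hmm2
    have h2 := hm3 m hmm3
    rw [le_div_iff₀ (by positivity)] at h1 h2
    nlinarith
  obtain ⟨Z, hZ, hrel⟩ := exists_related_core (k := k + 1) (by omega) hkK
    (fun y : Fin m → RK K => y) b hνPM (D := D) hD0 (e := e) (T := (2 : ℝ) ^ (-(τ * m)))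
    (s := (2 : ℝ) ^ (-(d * m))) he0 (by positivity) (by positivity) hDs J hJcard hADm R
    (fun t ht i j hij => (hR t).1 ht i j hij.ne) hbound
  -- the subgroups
  choose! H1 hH1 H2 hH2 hc1 hc2 horth using hrel
  set b' : (Fin m → RK K) →+ (Fin m → RK K) →+ RK K :=
    { toFun := fun x => (AddMonoidHom.mulLeft ((2 : RK K) ^ (K - (k + 1)))).comp (b x)
      map_zero' := by ext y; simp
      map_add' := by
        intro x x'
        refine AddMonoidHom.ext (fun y => ?_)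
        simp [mul_add] } with hb'
  have hb'a : ∀ x y, b' x y = (2 : RK K) ^ (K - (k + 1)) * b x y := fun x y => rfl
  set p : (Fin m → RK K) →+ (Fin m → ZMod (2 ^ (k + 1))) :=
    AddMonoidHom.compLeft (ZMod.castHom (pow_dvd_pow 2 hkK) (ZMod (2 ^ (k + 1)))).toAddMonoidHom
      (Fin m) with hp
  have hpb : ∀ x y, p x = 0 → b' x y = 0 := by
    intro x y hx
    have h1 : ∀ i, ∃ c : RK K, x i = (2 : RK K) ^ (k + 1) * c := by
      intro i
      exact eq_mul_of_castHom hkK (x i) (congrFun hx i)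
    choose c hc using h1
    have h2 : x = 2 ^ (k + 1) • c := by
      funext i
      rw [hc i, Pi.smul_apply, nsmul_eq_mul]
      push_cast
      rfl
    rw [hb'a, h2, map_nsmul, AddMonoidHom.nsmul_apply, nsmul_eq_mul, ← mul_assoc]
    push_cast
    rw [← pow_add, Nat.sub_add_cancel hkK]
    have h3 : (2 : RK K) ^ K = 0 := by
      have : ((2 ^ K : ℕ) : ZMod (2 ^ K)) = 0 := ZMod.natCast_self (2 ^ K)
      push_cast at this
      exact this
    rw [h3, zero_mul]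
  have hindex : ∀ (V H : AddSubgroup (Fin m → RK K)), H ≤ V →
      e * (Nat.card V : ℝ) ≤ Nat.card H → ((H.relIndex V : ℕ) : ℝ) ≤ 1 / e := by
    intro V H hHV hc
    have h1 : H.relIndex V * Nat.card H = Nat.card V := by
      have h2 := AddSubgroup.card_mul_index (H.addSubgroupOf V)
      have h3 : Nat.card (H.addSubgroupOf V) = Nat.card H :=
        Nat.card_congr (AddSubgroup.addSubgroupOfEquivOfLe hHV).toEquiv
      rw [h3] at h2
      unfold AddSubgroup.relIndex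
      rw [mul_comm]
      exact h2
    have h2 : (0 : ℝ) < Nat.card H := by
      have : 0 < Nat.card H := Nat.card_pos
      exact_mod_cast this
    rw [le_div_iff₀ he0]
    have h3 : ((H.relIndex V : ℕ) : ℝ) * Nat.card H = Nat.card V := by exact_mod_cast h1
    rw [← h3] at hc
    have h4 : (((H.relIndex V : ℕ) : ℝ) * e) * Nat.card H ≤ 1 * Nat.card H := by
      rw [one_mul]; linarith
    exact le_of_mul_le_mul_right h4 h2
  have he1 : 1 ≤ 1 / e := by
    rw [le_div_iff₀ he0, one_mul, he]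
    refine Real.rpow_le_one_of_one_le_of_nonpos one_le_two ?_
    have := mul_pos hη0 hm0
    linarith
  obtain ⟨i, Z', hZ'Z, hZ'o, hZ'm⟩ := exists_orth hw0 b'
    (fun x y => by rw [hb'a, hb'a, hbs]) p hpb (fun y : Fin m → RK K => y) ν hνPM.nonneg Z
    (fun i j => if i < j then H1 i j else H2 j i) (1 / e) ((2 : ℝ) ^ (((k + 1 : ℕ) : ℝ) * m)) he1
    (by
      intro i j hij
      rcases lt_or_gt_of_ne hij with h | h
      · rw [if_pos h]
        exact hindex _ _ (hH1 i j h) (hc1 i j h)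
      · rw [if_neg (not_lt.2 h.le)]
        exact hindex _ _ (hH2 j i h) (hc2 j i h))
    (by
      intro i j hij x hx y hy
      rw [if_pos hij] at hx
      rw [if_neg (not_lt.2 hij.le)] at hy
      exact horth i j hij x hx y hy)
    (by
      rw [Nat.card_eq_fintype_card, Fintype.card_fun, Fintype.card_fin, ZMod.card]
      push_cast
      rw [← pow_mul, ← Real.rpow_natCast]
      refine le_of_eq ?_
      congr 1
      push_cast
      ring)
  -- the mass of `Z'`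
  have hmass : (2 : ℝ) ^ (-(ε / 2 * m)) ≤ ∑ a ∈ Z', ν a := by
    obtain ⟨j, hj, hpj⟩ := hZ i
    have h1 : (2 : ℝ) ^ (-(ε / 8 * m)) ≤ ∑ a ∈ Z i, ν a := by
      refine le_trans ?_ hpj.1
      rw [hD]
      dsimp only
      refine Real.rpow_le_rpow_of_exponent_le one_le_two ?_
      have h2 : (j + 1 : ℝ) ≤ J + 1 := by
        have : j + 1 ≤ J + 1 := by omega
        exact_mod_cast this
      have h3 : (j + 1 : ℝ) * d ≤ ε / 8 := by
        calc (j + 1 : ℝ) * d ≤ (J + 1) * d := mul_le_mul_of_nonneg_right h2 hd0.le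
          _ = ε / 8 := by rw [hd]; field_simp
      have h4 := mul_le_mul_of_nonneg_right h3 hm0.le
      linarith
    have hsum0 : 0 ≤ ∑ a ∈ Z', ν a := Finset.sum_nonneg (fun a _ => hνPM.nonneg a)
    have h2 : (∑ a ∈ Z i, ν a) ^ w ≤
        ((2 : ℝ) ^ (ε / 8 * m) * ((2 : ℝ) ^ (ε / 8 * m) * ∑ a ∈ Z', ν a)) ^ w := by
      refine hZ'm.trans ?_
      rw [mul_pow, mul_pow, ← mul_assoc]
      refine mul_le_mul_of_nonneg_right ?_ (pow_nonneg hsum0 w)
      refine mul_le_mul ?_ ?_ (by positivity) (by positivity)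
      · refine le_of_eq ?_
        congr 1
        rw [he, one_div, ← Real.rpow_neg zero_le_two, ← Real.rpow_mul_natCast zero_le_two]
        congr 1
        rw [hη]
        field_simp
      · rw [← Real.rpow_mul_natCast zero_le_two]
        refine Real.rpow_le_rpow_of_exponent_le one_le_two ?_
        rw [div_le_iff₀ hε] at hw
        push_cast
        nlinarith
    have h3 : ∑ a ∈ Z i, ν a ≤ (2 : ℝ) ^ (ε / 8 * m) * ((2 : ℝ) ^ (ε / 8 * m) * ∑ a ∈ Z', ν a) :=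
      le_of_pow_le_pow_left₀ hw0.ne' (by positivity) h2
    have h4 := h1.trans h3
    have h5 : (2 : ℝ) ^ (-(ε / 8 * m)) * (2 : ℝ) ^ (-(ε / 8 * m)) * (2 : ℝ) ^ (-(ε / 8 * m)) ≤
        ∑ a ∈ Z', ν a := by
      have h6 : (2 : ℝ) ^ (ε / 8 * m) * (2 : ℝ) ^ (-(ε / 8 * m)) = 1 := by
        rw [← Real.rpow_add zero_lt_two]; simp
      have h7 : 0 < (2 : ℝ) ^ (-(ε / 8 * m)) := by positivity
      calc _ = (2 : ℝ) ^ (-(ε / 8 * m)) * ((2 : ℝ) ^ (-(ε / 8 * m)) * (2 : ℝ) ^ (-(ε / 8 * m))) := by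
            ring
        _ ≤ ((2 : ℝ) ^ (ε / 8 * m) * ((2 : ℝ) ^ (ε / 8 * m) * ∑ a ∈ Z', ν a)) *
            ((2 : ℝ) ^ (-(ε / 8 * m)) * (2 : ℝ) ^ (-(ε / 8 * m))) :=
            mul_le_mul_of_nonneg_right h4 (by positivity)
        _ = ((2 : ℝ) ^ (ε / 8 * m) * (2 : ℝ) ^ (-(ε / 8 * m))) *
            ((2 : ℝ) ^ (ε / 8 * m) * (2 : ℝ) ^ (-(ε / 8 * m))) * ∑ a ∈ Z', ν a := by ring
        _ = ∑ a ∈ Z', ν a := by rw [h6]; ring
    refine le_trans ?_ h5
    rw [← Real.rpow_add zero_lt_two, ← Real.rpow_add zero_lt_two]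
    refine Real.rpow_le_rpow_of_exponent_le one_le_two ?_
    have := mul_pos hε hm0
    linarith
  refine ⟨Z'.filter (fun y => μ y ≠ 0), ?_, ?_, ?_⟩
  · intro y hy
    exact (Finset.mem_filter.1 hy).2
  · have h1 : ∑ y ∈ Z'.filter (fun y => μ y ≠ 0), μ y = ∑ y ∈ Z', μ y := by
      rw [Finset.sum_filter_ne_zero]
    rw [h1]
    have h2 : ∑ y ∈ Z', μ y = M * ∑ y ∈ Z', ν y := by
      rw [hν, Finset.mul_sum]
      refine Finset.sum_congr rfl (fun y _ => ?_)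
      field_simp
    rw [h2]
    have h3 := hm4 m hmm4
    calc (2 : ℝ) ^ (-ε * m) = (2 : ℝ) ^ (-(ε / 2 * m)) * (2 : ℝ) ^ (-(ε / 2 * m)) := by
          rw [← Real.rpow_add zero_lt_two]
          congr 1
          ring
      _ ≤ M * ∑ y ∈ Z', ν y :=
          mul_le_mul (h3.trans (hρM.trans hMwM)) hmass (by positivity) hM0'
  · intro y hy z hz
    rw [Finset.mem_filter] at hy hz
    have h1 := hZ'o y hy.1 z hz.1 y hy.1 z hz.1
    rw [hb'a] at h1
    have h2 : b (y - z) (y - z) = -(2 * b y z) := by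
      have h3 : b (y - z) (y - z) = b y y - b y z - (b z y - b z z) := by
        simp only [map_sub, AddMonoidHom.sub_apply]
        ring
      rw [h3, hiso y hy.2, hiso z hz.2, hbs z y]
      ring
    refine red_eq_zero (by omega) _ ?_
    rw [h2] at h1
    have h3 : K - k = (K - (k + 1)) + 1 := by omega
    rw [h3, pow_succ]
    have h4 : (2 : RK K) ^ (K - (k + 1)) * 2 * b y z = -((2 : RK K) ^ (K - (k + 1)) * -(2 * b y z)) := by
      ring
    rw [h4, h1, neg_zero]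

end Pool.Agent.Lib.N2
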