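import Pool.Agent.Lib.N2.Def
import Pool.Agent.Lib.Cnv.Exch

/-!
# N2.ConvEnt: step 1 of the conversion lemma, in the form of the `n^2`-block
-/

set_option autoImplicit false

open Finset Matrix

namespace Pool.Agent.Lib.N2

open Pool.Agent.Lib.PFR Pool.Agent.Lib.Cnv

open scoped Classical in
/-- the uniform law on a finite set of tuples -/
noncomputable def unif {Y : Type} {L : ℕ} (S : Finset (Fin L → Y)) : (Fin L → Y) → ℝ :=
  fun T => if T ∈ S then 1 / (S.card : ℝ) else 0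

theorem unif_pm {Y : Type} [Fintype Y] {L : ℕ} (S : Finset (Fin L → Y)) (hS : 0 < S.card) :
    PM (unif S) := by
  classical
  constructor
  · intro T
    unfold unif
    split_ifs
    · positivity
    · exact le_refl _
  · unfold unif
    rw [Finset.sum_ite_mem, Finset.univ_inter, Finset.sum_const, nsmul_eq_mul,
      mul_one_div_cancel (by exact_mod_cast hS.ne')]

theorem unif_exc {Y : Type} [Fintype Y] {L : ℕ} (S : Finset (Fin L → Y))
    (hS : ∀ T ∈ S, ∀ e : Equiv.Perm (Fin L), T ∘ e ∈ S) : Exc (unif S) := by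
  classical
  intro σ T
  unfold unif
  have h : T ∘ σ ∈ S ↔ T ∈ S := by
    constructor
    · intro h1
      have h2 := hS _ h1 σ⁻¹
      have h3 : (T ∘ σ) ∘ (σ⁻¹ : Equiv.Perm (Fin L)) = T := by
        funext j
        simp
      rwa [h3] at h2
    · intro h1
      exact hS _ h1 σ
  simp only [h]

theorem unif_ent {Y : Type} [Fintype Y] {L : ℕ} (S : Finset (Fin L → Y)) (hS : 0 < S.card) :
    ent (unif S) (fun ω => ω) = Real.log S.card := by
  classical
  unfold ent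
  rw [prb_id]
  have h1 : ∀ T, unif S T * (-Real.log (unif S T)) = unif S T * Real.log S.card := by
    intro T
    unfold unif
    split_ifs
    · rw [one_div, Real.log_inv, neg_neg]
    · simp
  rw [Finset.sum_congr rfl (fun T _ => h1 T), ← Finset.sum_mul, (unif_pm S hS).sum, one_mul]

/-- Step 1 (entropy), abstract.  `S` = symmetric family of `L`-tuples. -/
theorem conv_step1 (κ ε : ℝ) (hκ : 0 < κ) (hε : 0 < ε) (w : ℕ) :
    ∃ ρ : ℝ, 0 < ρ ∧ ∃ M0 : ℕ, ∀ m : ℕ, M0 ≤ m → ∀ L : ℕ, κ * m ≤ L → L ≤ m →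
      ∀ (Y : Type) [Fintype Y] [DecidableEq Y], (Fintype.card Y : ℝ) ≤ (2 : ℝ) ^ (2 * m) →
      ∀ S : Finset (Fin L → Y), (∀ T ∈ S, ∀ e : Equiv.Perm (Fin L), T ∘ e ∈ S) →
      ∀ α : ℝ, 0 ≤ α → (2 : ℝ) ^ (α * L * m) ≤ (S.card : ℝ) →
      ∀ R : (Fin w → Y) → Prop, (∀ T ∈ S, ∀ e : Fin w ↪ Fin L, R (T ∘ e)) →
      ∃ μ : Y → ℝ, (∀ y, 0 ≤ μ y) ∧ ∑ y, μ y = 1 ∧ (∀ y, μ y ≤ (2 : ℝ) ^ (-(α - ε) * m)) ∧
        (∀ y, μ y ≠ 0 → ∃ T ∈ S, ∃ a, T a = y) ∧
        open Classical in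
        ρ ≤ ∑ v ∈ (Finset.univ.filter fun v : Fin w → Y => R v), ∏ i, μ (v i) := by
  have hl2 : 0 < Real.log 2 := Real.log_pos (by norm_num)
  -- the case `1 ≤ w`
  have main : ∀ w : ℕ, 1 ≤ w → ∃ ρ : ℝ, 0 < ρ ∧ ∃ M0 : ℕ, ∀ m : ℕ, M0 ≤ m → ∀ L : ℕ,
      κ * m ≤ L → L ≤ m →
      ∀ (Y : Type) [Fintype Y], (Fintype.card Y : ℝ) ≤ (2 : ℝ) ^ (2 * m) →
      ∀ S : Finset (Fin L → Y), (∀ T ∈ S, ∀ e : Equiv.Perm (Fin L), T ∘ e ∈ S) →
      ∀ α : ℝ, 0 ≤ α → (2 : ℝ) ^ (α * L * m) ≤ (S.card : ℝ) →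
      ∀ R : (Fin w → Y) → Prop, (∀ T ∈ S, ∀ e : Fin w ↪ Fin L, R (T ∘ e)) →
      ∃ μ : Y → ℝ, (∀ y, 0 ≤ μ y) ∧ ∑ y, μ y = 1 ∧ (∀ y, μ y ≤ (2 : ℝ) ^ (-(α - ε) * m)) ∧
        (∀ y, μ y ≠ 0 → ∃ T ∈ S, ∃ a, T a = y) ∧
        open Classical in
        ρ ≤ ∑ v : Fin w → Y, if R v then ∏ i, μ (v i) else 0 := by
    intro w hw
    set e : ℝ := min (ε / 4) 1 with he
    have he0 : 0 < e := lt_min (by positivity) one_pos
    have he1 : e ≤ 1 := min_le_right _ _
    have he4 : e ≤ ε / 4 := min_le_left _ _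
    obtain ⟨ρ, hρ, Λ0, hmain⟩ := exch_product e (κ / (2 * Real.log 2)) he0 he1 (by positivity) w hw
    obtain ⟨M1, hM1⟩ := exists_nat_ge (Λ0 / (2 * Real.log 2))
    obtain ⟨M2, hM2⟩ := exists_nat_ge (2 * (-Real.log ρ) / (ε * Real.log 2))
    refine ⟨ρ, hρ, max M1 M2, ?_⟩
    intro m hm L hL1 hL2 Y _ hY S hS α hα hcard R hR
    have hmM1 : (M1 : ℝ) ≤ m := by exact_mod_cast le_trans (le_max_left _ _) hm
    have hmM2 : (M2 : ℝ) ≤ m := by exact_mod_cast le_trans (le_max_right _ _) hm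
    have hSpos : 0 < S.card := by
      have h1 : (0 : ℝ) < S.card := lt_of_lt_of_le (by positivity) hcard
      exact_mod_cast h1
    have hlogY : Real.log (Fintype.card Y) ≤ 2 * m * Real.log 2 := by
      rcases Nat.eq_zero_or_pos (Fintype.card Y) with h0 | h0
      · rw [h0]
        simp only [Nat.cast_zero, Real.log_zero]
        positivity
      · have h1 : (0 : ℝ) < Fintype.card Y := by exact_mod_cast h0
        have h2 := Real.log_le_log h1 hY
        rw [Real.log_pow] at h2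
        push_cast at h2
        linarith
    obtain ⟨μ, h1, h2, h3, h4⟩ := hmain Y L (unif S) (2 * m * Real.log 2) (α * m * Real.log 2)
      (by
        rw [div_le_iff₀ (by positivity)] at hM1
        have := mul_le_mul_of_nonneg_right hmM1 (by positivity : 0 ≤ 2 * Real.log 2)
        linarith)
      (unif_pm S hSpos) (unif_exc S hS) hlogY
      (by
        have h5 : κ / (2 * Real.log 2) * (2 * m * Real.log 2) = κ * m := by
          field_simp
        rw [h5]
        exact hL1)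
      (by positivity)
      (by
        rw [unif_ent S hSpos]
        have h5 := Real.log_le_log (by positivity) hcard
        rw [Real.log_rpow (by norm_num)] at h5
        linarith)
      R
      (by
        intro ω hω σ hσ
        have h5 : ω ∈ S := by
          by_contra h6
          unfold unif at hω
          rw [if_neg h6] at hω
          exact lt_irrefl _ hω
        exact hR ω h5 ⟨σ, hσ⟩)
    refine ⟨μ, h1.nonneg, h1.sum, fun y => ?_, fun y hy => ?_, ?_⟩
    · refine le_trans (h2 y) ?_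
      have h5 : (2 : ℝ) ^ (-(α - ε) * (m : ℝ)) = Real.exp (Real.log 2 * (-(α - ε) * m)) := by
        rw [Real.rpow_def_of_pos (by norm_num)]
      have h6 : Real.exp (-(α * m * Real.log 2 - e * (2 * m * Real.log 2))) / ρ =
          Real.exp (-(α * m * Real.log 2 - e * (2 * m * Real.log 2)) - Real.log ρ) := by
        rw [Real.exp_sub (-(α * m * Real.log 2 - e * (2 * m * Real.log 2))) (Real.log ρ),
          Real.exp_log hρ]
      rw [h5, h6, Real.exp_le_exp]
      have h7 : 2 * (-Real.log ρ) ≤ m * (ε * Real.log 2) := by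
        rw [div_le_iff₀ (by positivity)] at hM2
        have := mul_le_mul_of_nonneg_right hmM2 (by positivity : 0 ≤ ε * Real.log 2)
        linarith
      have h8 : e * (2 * m * Real.log 2) ≤ ε / 4 * (2 * m * Real.log 2) :=
        mul_le_mul_of_nonneg_right he4 (by positivity)
      nlinarith
    · obtain ⟨ω, h5, a, h6⟩ := h3 y hy
      refine ⟨ω, ?_, a, h6⟩
      by_contra h7
      unfold unif at h5
      rw [if_neg h7] at h5
      exact lt_irrefl _ h5
    · convert h4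
  rcases Nat.eq_zero_or_pos w with hw | hw
  · subst hw
    obtain ⟨ρ, hρ, M0, h⟩ := main 1 (le_refl 1)
    refine ⟨1, one_pos, M0, ?_⟩
    intro m hm L hL1 hL2 Y _ _ hY S hS α hα hcard R hR
    obtain ⟨μ, h1, h2, h3, h4, _⟩ := h m hm L hL1 hL2 Y hY S hS α hα hcard (fun _ => True)
      (fun _ _ _ => trivial)
    refine ⟨μ, h1, h2, h3, h4, ?_⟩
    have hSpos : 0 < S.card := by
      have h5 : (0 : ℝ) < S.card := lt_of_lt_of_le (by positivity) hcard
      exact_mod_cast h5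
    obtain ⟨T, hT⟩ := Finset.card_pos.1 hSpos
    have h6 : ∀ v : Fin 0 → Y, R v := by
      intro v
      have h7 := hR T hT ⟨fun a => a.elim0, fun a => a.elim0⟩
      rwa [Subsingleton.elim v]
    rw [Finset.sum_filter]
    rw [Finset.sum_congr rfl (fun v _ => if_pos (h6 v))]
    simp
  · obtain ⟨ρ, hρ, M0, h⟩ := main w hw
    refine ⟨ρ, hρ, M0, ?_⟩
    intro m hm L hL1 hL2 Y _ _ hY S hS α hα hcard R hR
    obtain ⟨μ, h1, h2, h3, h4, h5⟩ := h m hm L hL1 hL2 Y hY S hS α hα hcard R hR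
    refine ⟨μ, h1, h2, h3, h4, ?_⟩
    rw [Finset.sum_filter]
    exact h5

end Pool.Agent.Lib.N2
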