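import Mathlib
import Pool.Agent.Lib.N2.Def
import Pool.Agent.Lib.S1.Frame
import Pool.Agent.Lib.ThmG.Principal

/-!
# N2.Even: from `main_n2` to graphs over `ℚ` (module S10 of route P, MP_686cbb)

`DivSet k α G`: the adjacency matrix is nonsingular over `ℚ` and there are `2^(α m)` zero-one
vectors on which the form `x^T D⁻¹ y` takes values in `2^k ℤ`.
`div_rare_of`: `main_n2` implies that for some `k` such graphs number at most `2^((1/2-c) m^2)`.

The determinant may be even: `I` = a principal minor which is odd, of size the rank over `F_2`.  The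
difference of the two forms has rational rank at most the corank, hence few rows mod `2^k`
(`row_classes`), so on a large subset the form of the minor is constant mod `2^k`
(`exists_const`); two special indices make it zero (`exists_block`).
-/

set_option autoImplicit false

open Finset Matrix

namespace Pool.Agent.Lib.N2

/-! ### Integer rows of rank `s` have few classes mod `2^k` -/

theorem row_classes {ι V : Type*} [Fintype ι] [DecidableEq ι] (k s : ℕ) (Z : Finset V)
    (w : V → ι → ℤ)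
    (h : Module.finrank ℚ (Submodule.span ℚ
      (Set.range fun y : Z => fun i => ((w y i : ℤ) : ℚ))) ≤ s) :
    (Z.image fun y => fun i => ((w y i : ℤ) : ZMod (2 ^ k))).card ≤ 2 ^ (k * s) := by
  classical
  let N : Submodule ℤ (ι → ℤ) := Submodule.span ℤ (Set.range fun y : Z => w y)
  obtain ⟨n, β⟩ := Submodule.basisOfPid (Pi.basisFun ℤ ι) N
  let β' : Fin n → ι → ℤ := fun j => (β j : ι → ℤ)
  -- the cast map
  let φ : (ι → ℤ) →ₗ[ℤ] (ι → ℚ) :=
    { toFun := fun x i => (x i : ℚ)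
      map_add' := fun x y => by
        funext i
        simp
      map_smul' := fun a x => by
        funext i
        simp }
  have hφ : Function.Injective φ := by
    intro x y hxy
    funext i
    exact Int.cast_injective (congrFun hxy i)
  have hli : LinearIndependent ℤ (fun j => φ (β' j)) := by
    have h1 : LinearIndependent ℤ β' := by
      have := β.linearIndependent.map' N.subtype (Submodule.ker_subtype N)
      exact this
    exact h1.map' φ (LinearMap.ker_eq_bot.2 hφ)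
  have hliQ : LinearIndependent ℚ (fun j => φ (β' j)) :=
    (LinearIndependent.iff_fractionRing ℤ ℚ).1 hli
  have hn : n ≤ s := by
    have h2 : Submodule.span ℚ (Set.range fun j => φ (β' j)) ≤ Submodule.span ℚ
      (Set.range fun y : Z => fun i => ((w y i : ℤ) : ℚ)) := by
      rw [Submodule.span_le]
      rintro _ ⟨j, rfl⟩
      have h3 : β' j ∈ N := (β j).2
      have h4 : ∀ x ∈ N, φ x ∈ Submodule.span ℚ
          (Set.range fun y : Z => fun i => ((w y i : ℤ) : ℚ)) := by
        intro x hx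
        refine Submodule.span_induction (p := fun x _ => φ x ∈ Submodule.span ℚ
          (Set.range fun y : Z => fun i => ((w y i : ℤ) : ℚ))) ?_ ?_ ?_ ?_ hx
        · rintro _ ⟨y, rfl⟩
          exact Submodule.subset_span ⟨y, rfl⟩
        · rw [map_zero]
          exact Submodule.zero_mem _
        · intro x y _ _ hx hy
          rw [map_add]
          exact Submodule.add_mem _ hx hy
        · intro a x _ hx
          have : φ (a • x) = (a : ℚ) • φ x := by
            rw [map_smul]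
            funext i
            simp
          rw [this]
          exact Submodule.smul_mem _ _ hx
      exact h4 _ h3
    calc n = Module.finrank ℚ (Submodule.span ℚ (Set.range fun j => φ (β' j))) := by
          rw [finrank_span_eq_card hliQ, Fintype.card_fin]
      _ ≤ _ := Submodule.finrank_mono h2
      _ ≤ s := h
  -- the image is contained in an image of the coefficient vectors
  have hsub : (Z.image fun y => fun i => ((w y i : ℤ) : ZMod (2 ^ k))) ⊆
      (Finset.univ : Finset (Fin n → ZMod (2 ^ k))).image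
        fun a => fun i => ∑ j, a j * ((β' j i : ℤ) : ZMod (2 ^ k)) := by
    intro x hx
    rw [Finset.mem_image] at hx
    obtain ⟨y, hy, rfl⟩ := hx
    rw [Finset.mem_image]
    have h5 : w y ∈ N := Submodule.subset_span ⟨⟨y, hy⟩, rfl⟩
    refine ⟨fun j => ((β.repr ⟨w y, h5⟩ j : ℤ) : ZMod (2 ^ k)), Finset.mem_univ _, ?_⟩
    funext i
    have h6 := β.sum_repr ⟨w y, h5⟩
    have h7 := congrArg (fun x : N => (x : ι → ℤ) i) h6
    simp only [Submodule.coe_sum, Submodule.coe_smul, Finset.sum_apply, Pi.smul_apply,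
      smul_eq_mul] at h7
    rw [← h7]
    push_cast
    rfl
  refine le_trans (Finset.card_le_card hsub) (le_trans Finset.card_image_le ?_)
  rw [Finset.card_univ, Fintype.card_fun, ZMod.card, Fintype.card_fin, ← pow_mul]
  exact Nat.pow_le_pow_right (by norm_num) (Nat.mul_le_mul_left k hn)

/-! ### The difference of the forms has small rank -/

theorem rank_diff {m r : ℕ} (A : Matrix (Fin m) (Fin m) ℚ) (hA : A.det ≠ 0) (σ : Fin r → Fin m)
    (h0 : (A.submatrix σ σ).det ≠ 0) :
    (A⁻¹ - (1 : Matrix (Fin m) (Fin m) ℚ).submatrix id σ * ((A.submatrix σ σ)⁻¹ *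
      (1 : Matrix (Fin m) (Fin m) ℚ).submatrix σ id)).rank + r ≤ m := by
  have hu : IsUnit A.det := isUnit_iff_ne_zero.2 hA
  have hu0 : IsUnit (A.submatrix σ σ).det := isUnit_iff_ne_zero.2 h0
  have e1 : A⁻¹ * A.submatrix id σ = (1 : Matrix (Fin m) (Fin m) ℚ).submatrix id σ := by
    rw [← Matrix.nonsing_inv_mul A hu]
    rfl
  have e2 : (1 : Matrix (Fin m) (Fin m) ℚ).submatrix σ id * A.submatrix id σ =
      A.submatrix σ σ := by
    ext i j
    rw [Matrix.mul_apply]
    simp [Matrix.one_apply]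
  have h1 : (A⁻¹ - (1 : Matrix (Fin m) (Fin m) ℚ).submatrix id σ * ((A.submatrix σ σ)⁻¹ *
      (1 : Matrix (Fin m) (Fin m) ℚ).submatrix σ id)) * A.submatrix id σ = 0 := by
    rw [Matrix.sub_mul, e1, Matrix.mul_assoc, Matrix.mul_assoc, e2,
      Matrix.nonsing_inv_mul _ hu0, Matrix.mul_one, sub_self]
  have h2 := Matrix.rank_add_rank_le_card_of_mul_eq_zero h1
  have h3 : r ≤ (A.submatrix id σ).rank := by
    have h4 : (A.submatrix σ σ).rank = r := by
      rw [Matrix.rank_of_isUnit _ ((Matrix.isUnit_iff_isUnit_det _).2 hu0), Fintype.card_fin]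
    rw [← e2] at h4
    calc r = _ := h4.symm
      _ ≤ _ := Matrix.rank_mul_le_right _ _
  rw [Fintype.card_fin] at h2
  omega

theorem quad_sub {m r : ℕ} {R : Type*} [CommRing R] (B : Matrix (Fin r) (Fin r) R)
    (σ : Fin r → Fin m) (y z : Fin m → R) :
    y ⬝ᵥ (((1 : Matrix (Fin m) (Fin m) R).submatrix id σ * (B *
      (1 : Matrix (Fin m) (Fin m) R).submatrix σ id)) *ᵥ z) = (y ∘ σ) ⬝ᵥ (B *ᵥ (z ∘ σ)) := by
  have e1 : ∀ z : Fin m → R, (1 : Matrix (Fin m) (Fin m) R).submatrix σ id *ᵥ z = z ∘ σ := by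
    intro z
    ext i
    simp [Matrix.mulVec, dotProduct, Matrix.one_apply]
  have e2 : y ᵥ* (1 : Matrix (Fin m) (Fin m) R).submatrix id σ = y ∘ σ := by
    ext i
    simp [Matrix.vecMul, dotProduct, Matrix.one_apply]
  rw [← Matrix.mulVec_mulVec, ← Matrix.mulVec_mulVec, e1, Matrix.dotProduct_mulVec, e2]

theorem exists_fiber {α β : Type*} [DecidableEq α] [DecidableEq β] (Z : Finset α) (f : α → β)
    (N : ℕ) (hN : (Z.image f).card ≤ N) (hZ : Z.Nonempty) :
    ∃ a ∈ Z, Z.card ≤ N * (Z.filter fun b => f b = f a).card := by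
  obtain ⟨a, ha, hmax⟩ := Finset.exists_max_image Z
    (fun a => (Z.filter fun b => f b = f a).card) hZ
  refine ⟨a, ha, ?_⟩
  rw [Finset.card_eq_sum_card_image f Z]
  calc ∑ b ∈ Z.image f, (Z.filter fun x => f x = b).card ≤
      ∑ b ∈ Z.image f, (Z.filter fun b => f b = f a).card := by
        refine Finset.sum_le_sum fun b hb => ?_
        obtain ⟨c, hc, rfl⟩ := Finset.mem_image.1 hb
        exact hmax c hc
    _ = (Z.image f).card * (Z.filter fun b => f b = f a).card := by
        rw [Finset.sum_const, smul_eq_mul]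
    _ ≤ _ := Nat.mul_le_mul_right _ hN

/-- core of the reduction: on a large subset the form of the odd minor is constant -/
theorem exists_const {m r : ℕ} (k : ℕ) (A : Matrix (Fin m) (Fin m) ℤ) (hs : Aᵀ = A)
    (hA : (A.map (Int.cast : ℤ → ℚ)).det ≠ 0) (σ : Fin r → Fin m)
    (h0 : (A.submatrix σ σ).det ≠ 0)
    (hσ : Function.Injective σ) (Z : Finset (Fin m → ℤ))
    (hZ : ∀ y ∈ Z, ∀ x, y x = 0 ∨ y x = 1)
    (hb : ∀ y ∈ Z, ∀ z ∈ Z, ∃ n : ℤ, (fun i => (y i : ℚ)) ⬝ᵥ
      ((A.map (Int.cast : ℤ → ℚ))⁻¹ *ᵥ fun i => (z i : ℚ)) = 2 ^ k * n) :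
    ∃ Z' : Finset (Fin m → ℤ), Z' ⊆ Z ∧
      Z.card ≤ 2 ^ (k * (m - r)) * 2 ^ (m - r) * Z'.card ∧
      (∀ y ∈ Z', ∀ z ∈ Z', ∀ x, x ∉ Set.range σ → y x = z x) ∧
      ∃ g : ZMod (2 ^ k), ∀ y ∈ Z', ∀ z ∈ Z',
        (((y ∘ σ) ⬝ᵥ ((A.submatrix σ σ).adjugate *ᵥ (z ∘ σ)) : ℤ) : ZMod (2 ^ k)) = g := by
  classical
  rcases Z.eq_empty_or_nonempty with hE | hne
  · refine ⟨∅, Finset.empty_subset _, ?_, ?_, 0, ?_⟩
    · rw [hE]
      simp
    · intro y hy
      exact absurd hy (Finset.notMem_empty _)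
    · intro y hy
      exact absurd hy (Finset.notMem_empty _)
  set AQ := A.map (Int.cast : ℤ → ℚ) with hAQ
  have hsQ : AQᵀ = AQ := by
    rw [hAQ, ← Matrix.transpose_map, hs]
  set D : ℤ := (A.submatrix σ σ).det with hD
  have hsub : AQ.submatrix σ σ = (A.submatrix σ σ).map (Int.cast : ℤ → ℚ) := rfl
  have hdet0 : (AQ.submatrix σ σ).det = (D : ℚ) := by
    rw [hsub, hD]
    exact (Int.cast_det _).symm
  have hD0 : (AQ.submatrix σ σ).det ≠ 0 := by
    rw [hdet0]
    exact_mod_cast h0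
  have hinv0 : (D : ℚ) • (AQ.submatrix σ σ)⁻¹ =
      (A.submatrix σ σ).adjugate.map (Int.cast : ℤ → ℚ) := by
    have h1 : (A.submatrix σ σ).adjugate.map (Int.cast : ℤ → ℚ) =
        (AQ.submatrix σ σ).adjugate := by
      have := RingHom.map_adjugate (Int.castRingHom ℚ) (A.submatrix σ σ)
      exact this
    rw [h1, Matrix.inv_def, smul_smul, hdet0, Ring.mul_inverse_cancel, one_smul]
    exact isUnit_iff_ne_zero.2 (by exact_mod_cast h0)
  have hb' : ∀ y z : Z, ∃ n : ℤ, (fun i => (y.1 i : ℚ)) ⬝ᵥ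
      (AQ⁻¹ *ᵥ fun i => (z.1 i : ℚ)) = 2 ^ k * n := fun y z => hb y.1 y.2 z.1 z.2
  choose n hn using hb'
  -- the integer matrix
  let w : Z → Z → ℤ := fun y z => D * (2 ^ k * n y z) -
    (y.1 ∘ σ) ⬝ᵥ ((A.submatrix σ σ).adjugate *ᵥ (z.1 ∘ σ))
  set W := AQ⁻¹ - (1 : Matrix (Fin m) (Fin m) ℚ).submatrix id σ * ((AQ.submatrix σ σ)⁻¹ *
      (1 : Matrix (Fin m) (Fin m) ℚ).submatrix σ id) with hW
  have hadj : ∀ y z : Fin m → ℤ,
      (((y ∘ σ) ⬝ᵥ ((A.submatrix σ σ).adjugate *ᵥ (z ∘ σ)) : ℤ) : ℚ) =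
        (fun i => (y (σ i) : ℚ)) ⬝ᵥ ((A.submatrix σ σ).adjugate.map (Int.cast : ℤ → ℚ) *ᵥ
          fun i => (z (σ i) : ℚ)) := by
    intro y z
    simp only [dotProduct, Matrix.mulVec, Function.comp_apply, Matrix.map_apply]
    push_cast
    rfl
  have hwQ : ∀ y z : Z, (w y z : ℚ) = (D : ℚ) *
      ((fun i => (y.1 i : ℚ)) ⬝ᵥ (W *ᵥ fun i => (z.1 i : ℚ))) := by
    intro y z
    have h1 : (w y z : ℚ) = (D : ℚ) * (2 ^ k * n y z) -
        (((y.1 ∘ σ) ⬝ᵥ ((A.submatrix σ σ).adjugate *ᵥ (z.1 ∘ σ)) : ℤ) : ℚ) := by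
      change ((D * (2 ^ k * n y z) - _ : ℤ) : ℚ) = _
      rw [Int.cast_sub, Int.cast_mul, Int.cast_mul, Int.cast_pow]
      norm_num
    rw [h1, hadj, ← hinv0, hW, Matrix.sub_mulVec, dotProduct_sub, quad_sub, hn, mul_sub]
    congr 1
    rw [Matrix.smul_mulVec, dotProduct_smul, smul_eq_mul]
    rfl
  have hrank : W.rank + r ≤ m := rank_diff AQ hA σ hD0
  have hfr : Module.finrank ℚ (Submodule.span ℚ
      (Set.range fun y : (Finset.univ : Finset Z) => fun i => ((w y i : ℤ) : ℚ))) ≤ m - r := by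
    -- the rows are in the range of a map of rank at most `m - r`
    let Φ : (Fin m → ℚ) →ₗ[ℚ] (Z → ℚ) :=
      { toFun := fun u z => (D : ℚ) * (u ⬝ᵥ fun i => (z.1 i : ℚ))
        map_add' := fun u v => by
          funext z
          simp only [add_dotProduct, Pi.add_apply]
          ring
        map_smul' := fun a u => by
          funext z
          simp only [smul_dotProduct, Pi.smul_apply, smul_eq_mul, RingHom.id_apply]
          ring }
    have h1 : Submodule.span ℚ
      (Set.range fun y : (Finset.univ : Finset Z) => fun i => ((w y i : ℤ) : ℚ)) ≤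
        (LinearMap.range Wᵀ.mulVecLin).map Φ := by
      rw [Submodule.span_le]
      rintro _ ⟨y, rfl⟩
      refine ⟨Wᵀ *ᵥ (fun i => (y.1.1 i : ℚ)), ⟨_, rfl⟩, ?_⟩
      funext z
      change (D : ℚ) * ((Wᵀ *ᵥ fun i => (y.1.1 i : ℚ)) ⬝ᵥ fun i => (z.1 i : ℚ)) =
        ((w y.1 z : ℤ) : ℚ)
      rw [hwQ, Matrix.mulVec_transpose, ← Matrix.dotProduct_mulVec]
    calc _ ≤ Module.finrank ℚ ((LinearMap.range Wᵀ.mulVecLin).map Φ) := Submodule.finrank_mono h1
      _ ≤ Module.finrank ℚ (LinearMap.range Wᵀ.mulVecLin) := Submodule.finrank_map_le _ _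
      _ = Wᵀ.rank := rfl
      _ = W.rank := Matrix.rank_transpose _
      _ ≤ m - r := by omega
  have hcls := row_classes k (m - r) (Finset.univ : Finset Z) w hfr
  -- classes
  let f : Z → (Z → ZMod (2 ^ k)) × ({x : Fin m // x ∉ Set.range σ} → Bool) :=
    fun y => (fun i => ((w y i : ℤ) : ZMod (2 ^ k)), fun x => decide (y.1 x.1 = 1))
  have himg : ((Finset.univ : Finset Z).image f).card ≤ 2 ^ (k * (m - r)) * 2 ^ (m - r) := by
    have h1 : (Finset.univ : Finset Z).image f ⊆
        ((Finset.univ : Finset Z).image fun y => fun i => ((w y i : ℤ) : ZMod (2 ^ k))) ×ˢ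
          (Finset.univ : Finset ({x : Fin m // x ∉ Set.range σ} → Bool)) := by
      intro p hp
      obtain ⟨y, _, rfl⟩ := Finset.mem_image.1 hp
      rw [Finset.mem_product]
      exact ⟨Finset.mem_image.2 ⟨y, Finset.mem_univ _, rfl⟩, Finset.mem_univ _⟩
    refine le_trans (Finset.card_le_card h1) ?_
    rw [Finset.card_product]
    refine Nat.mul_le_mul hcls ?_
    rw [Finset.card_univ, Fintype.card_fun, Fintype.card_bool]
    refine Nat.pow_le_pow_right (by norm_num) ?_
    have h2 : Fintype.card {x : Fin m // x ∉ Set.range σ} =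
        Fintype.card (Fin m) - Fintype.card {x : Fin m // x ∈ Set.range σ} :=
      Fintype.card_subtype_compl _
    have h3 : Fintype.card {x : Fin m // x ∈ Set.range σ} = r := by
      have := Set.card_range_of_injective hσ
      rw [Fintype.card_fin] at this
      convert this using 1
    rw [h2, h3, Fintype.card_fin]
  obtain ⟨y0, _, hy0⟩ := exists_fiber (Finset.univ : Finset Z) f _ himg
    ⟨⟨hne.choose, hne.choose_spec⟩, Finset.mem_univ _⟩
  -- the class
  set Z1 : Finset Z := Finset.univ.filter fun b => f b = f y0 with hZ1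
  have hrow : ∀ y ∈ Z1, ∀ z : Z, ((w y z : ℤ) : ZMod (2 ^ k)) = ((w y0 z : ℤ) : ZMod (2 ^ k)) := by
    intro y hy z
    rw [hZ1, Finset.mem_filter] at hy
    exact congrFun (congrArg Prod.fst hy.2) z
  have hnsymm : ∀ y z : Z, n y z = n z y := by
    intro y z
    have h1 := hn y z
    have h2 := hn z y
    have h3 : (fun i => (y.1 i : ℚ)) ⬝ᵥ (AQ⁻¹ *ᵥ fun i => (z.1 i : ℚ)) =
        (fun i => (z.1 i : ℚ)) ⬝ᵥ (AQ⁻¹ *ᵥ fun i => (y.1 i : ℚ)) := by
      rw [Matrix.dotProduct_mulVec, ← Matrix.mulVec_transpose, Matrix.transpose_nonsing_inv, hsQ,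
        dotProduct_comm]
    rw [h1, h2] at h3
    have h4 : (n y z : ℚ) = n z y := by
      have : (2 : ℚ) ^ k ≠ 0 := by positivity
      exact mul_left_cancel₀ this h3
    exact_mod_cast h4
  have hasymm : ((A.submatrix σ σ).adjugate)ᵀ = (A.submatrix σ σ).adjugate := by
    rw [Matrix.adjugate_transpose, Matrix.transpose_submatrix, hs]
  have hqsymm : ∀ y z : Fin m → ℤ, (y ∘ σ) ⬝ᵥ ((A.submatrix σ σ).adjugate *ᵥ (z ∘ σ)) =
      (z ∘ σ) ⬝ᵥ ((A.submatrix σ σ).adjugate *ᵥ (y ∘ σ)) := by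
    intro y z
    rw [Matrix.dotProduct_mulVec, ← Matrix.mulVec_transpose, hasymm, dotProduct_comm]
  have hwsymm : ∀ y z : Z, w y z = w z y := by
    intro y z
    change D * (2 ^ k * n y z) - _ = D * (2 ^ k * n z y) - _
    rw [hnsymm y z, hqsymm]
  have hconst : ∀ y ∈ Z1, ∀ z ∈ Z1, ((w y z : ℤ) : ZMod (2 ^ k)) =
      ((w y0 y0 : ℤ) : ZMod (2 ^ k)) := by
    intro y hy z hz
    rw [hrow y hy z, hwsymm y0 z, hrow z hz y0]
  refine ⟨Z1.map (Function.Embedding.subtype _), ?_, ?_, ?_,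
    -((w y0 y0 : ℤ) : ZMod (2 ^ k)), ?_⟩
  · intro y hy
    obtain ⟨z, _, rfl⟩ := Finset.mem_map.1 hy
    exact z.2
  · rw [Finset.card_map]
    have h1 : (Finset.univ : Finset Z).card = Z.card := by
      rw [Finset.card_univ, Fintype.card_coe]
    rw [← h1]
    exact hy0
  · intro y hy z hz x hx
    obtain ⟨y', hy', rfl⟩ := Finset.mem_map.1 hy
    obtain ⟨z', hz', rfl⟩ := Finset.mem_map.1 hz
    rw [hZ1, Finset.mem_filter] at hy' hz'
    have h1 : f y' = f z' := hy'.2.trans hz'.2.symm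
    have h2 := congrFun (congrArg Prod.snd h1) ⟨x, hx⟩
    have h3 : (y'.1 x = 1) ↔ (z'.1 x = 1) := by simpa [f] using h2
    change y'.1 x = z'.1 x
    rcases hZ y'.1 y'.2 x with h4 | h4
    · rcases hZ z'.1 z'.2 x with h5 | h5
      · rw [h4, h5]
      · rw [h3.2 h5] at h4
        exact absurd h4 (by norm_num)
    · rw [h4, h3.1 h4]
  · intro y hy z hz
    obtain ⟨y', hy', rfl⟩ := Finset.mem_map.1 hy
    obtain ⟨z', hz', rfl⟩ := Finset.mem_map.1 hz
    have h1 := hconst y' hy' z' hz'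
    have h2 : ((w y' z' : ℤ) : ZMod (2 ^ k)) =
        -(((y'.1 ∘ σ) ⬝ᵥ ((A.submatrix σ σ).adjugate *ᵥ (z'.1 ∘ σ)) : ℤ) : ZMod (2 ^ k)) := by
      change ((D * (2 ^ k * n y' z') - _ : ℤ) : ZMod (2 ^ k)) = _
      rw [Int.cast_sub, Int.cast_mul, Int.cast_mul, Int.cast_pow]
      have h3 : (((2 : ℤ) : ZMod (2 ^ k))) ^ k = 0 := by
        have := ZMod.natCast_self (2 ^ k)
        push_cast at this ⊢
        exact this
      rw [h3, zero_mul, mul_zero, zero_sub]
    rw [← h1, h2, neg_neg]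
    rfl

/-! ### The class member with two special indices -/

/-- labels: the first two indices are special, all others ordinary -/
def lab2 (r : ℕ) : Fin (2 + r) → ℕ := fun x => if x.val < 2 then 0 else 1

theorem lab2_le (r : ℕ) (x : Fin (2 + r)) : lab2 r x ≤ 1 := by
  unfold lab2
  split_ifs <;> omega

theorem lab2_inl (r : ℕ) (a : Fin 2) : lab2 r (finSumFinEquiv (Sum.inl a)) = 0 := by
  unfold lab2
  rw [finSumFinEquiv_apply_left, if_pos]
  have := a.2
  simp only [Fin.val_castAdd]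
  omega

theorem lab2_inr (r : ℕ) (a : Fin r) : lab2 r (finSumFinEquiv (Sum.inr a)) = 1 := by
  unfold lab2
  rw [finSumFinEquiv_apply_right, if_neg]
  simp only [Fin.val_natAdd]
  omega

theorem nsp_lab2 (r : ℕ) : nsp (lab2 r) = 2 := by
  unfold nsp
  have h : (Finset.univ.filter fun x : Fin (2 + r) => lab2 r x = 0) =
      (Finset.univ : Finset (Fin 2)).map ⟨fun a => finSumFinEquiv (Sum.inl a), by
        intro a b hab
        simpa using hab⟩ := by
    ext x
    simp only [Finset.mem_filter, Finset.mem_univ, true_and, Finset.mem_map]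
    constructor
    · intro hx
      obtain ⟨y, rfl⟩ := finSumFinEquiv.surjective x
      rcases y with a | a
      · exact ⟨a, rfl⟩
      · rw [lab2_inr] at hx
        exact absurd hx (by norm_num)
    · rintro ⟨a, rfl⟩
      exact lab2_inl r a
  rw [h, Finset.card_map, Finset.card_univ, Fintype.card_fin]

/-- the two new indices -/
def hyp {R : Type*} [CommRing R] (g : R) : Matrix (Fin 2) (Fin 2) R := !![0, 1; 1, g]

/-- the matrix with two special indices (sum form) -/
def blk {r : ℕ} {R : Type*} [CommRing R] (g : R) (E : Matrix (Fin r) (Fin r) R) :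
    Matrix (Fin 2 ⊕ Fin r) (Fin 2 ⊕ Fin r) R := Matrix.fromBlocks (hyp g) 0 0 E

theorem blk_inv {r : ℕ} {R : Type*} [CommRing R] (g : R) (E : Matrix (Fin r) (Fin r) R)
    (hE : IsUnit E.det) : (blk g E)⁻¹ = Matrix.fromBlocks !![-g, 1; 1, 0] 0 0 E⁻¹ := by
  refine Matrix.inv_eq_right_inv ?_
  unfold blk hyp
  rw [Matrix.fromBlocks_multiply, Matrix.mul_nonsing_inv _ hE]
  have h1 : (!![0, 1; 1, g] : Matrix (Fin 2) (Fin 2) R) * !![-g, 1; 1, 0] = 1 := by
    ext i j
    fin_cases i <;> fin_cases j <;> simp [Matrix.mul_apply, Fin.sum_univ_two]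
  rw [h1]
  simp

theorem blk_det {r : ℕ} {R : Type*} [CommRing R] (g : R) (E : Matrix (Fin r) (Fin r) R) :
    (blk g E).det = -E.det := by
  unfold blk hyp
  rw [Matrix.det_fromBlocks_zero₂₁, Matrix.det_fin_two_of]
  ring

/-- the vector `(1, 0; y)` -/
def vec2 {r : ℕ} {R : Type*} [CommRing R] (y : Fin r → R) : Fin 2 ⊕ Fin r → R :=
  Sum.elim ![1, 0] y

theorem frm_blk {r : ℕ} {R : Type*} [CommRing R] (g : R) (E : Matrix (Fin r) (Fin r) R)
    (hE : IsUnit E.det) (y z : Fin r → R) :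
    vec2 y ⬝ᵥ ((blk g E)⁻¹ *ᵥ vec2 z) = -g + y ⬝ᵥ (E⁻¹ *ᵥ z) := by
  rw [blk_inv g E hE, Matrix.fromBlocks_mulVec]
  unfold vec2
  simp only [Sum.elim_comp_inl, Sum.elim_comp_inr, Matrix.zero_mulVec, add_zero, zero_add]
  simp only [dotProduct, Fintype.sum_sum_type, Sum.elim_inl, Sum.elim_inr, Fin.sum_univ_two,
    Matrix.mulVec]
  simp

/-- the matrix on `Fin (2 + r)` -/
def blkF {r : ℕ} {R : Type*} [CommRing R] (g : R) (E : Matrix (Fin r) (Fin r) R) :
    Matrix (Fin (2 + r)) (Fin (2 + r)) R := Matrix.reindex finSumFinEquiv finSumFinEquiv (blk g E)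

theorem frm_blkF {r k : ℕ} (g : RK k) (E : Matrix (Fin r) (Fin r) (RK k))
    (hE : IsUnit E.det) (y z : Fin r → RK k) :
    frm (blkF g E) (vec2 y ∘ finSumFinEquiv.symm) (vec2 z ∘ finSumFinEquiv.symm) =
      -g + y ⬝ᵥ (E⁻¹ *ᵥ z) := by
  rw [← frm_blk g E hE]
  unfold frm blkF
  rw [Matrix.inv_reindex, comp_equiv_symm_dotProduct]
  congr 1
  funext i
  simp only [Function.comp_apply, Matrix.mulVec, dotProduct]
  rw [← Equiv.sum_comp (finSumFinEquiv : Fin 2 ⊕ Fin r ≃ Fin (2 + r))]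
  refine Finset.sum_congr rfl fun j _ => ?_
  simp [Matrix.reindex_apply]

theorem cls_blkF {r k : ℕ} (g : RK k) (E : Matrix (Fin r) (Fin r) (RK k))
    (hE : IsUnit E.det) (hs : Eᵀ = E) (hb : ∀ x y, B01 (E x y)) (hd : ∀ x, E x x = 0) :
    Cls k (2 + r) (lab2 r) (blkF g E) := by
  have hval : ∀ a b, blkF g E (finSumFinEquiv a) (finSumFinEquiv b) = blk g E a b := by
    intro a b
    unfold blkF
    simp [Matrix.reindex_apply]
  refine ⟨?_, ?_, ?_, ?_, ?_⟩
  · ext x y
    obtain ⟨a, rfl⟩ := finSumFinEquiv.surjective x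
    obtain ⟨b, rfl⟩ := finSumFinEquiv.surjective y
    rw [Matrix.transpose_apply, hval, hval]
    have : (blk g E)ᵀ = blk g E := by
      unfold blk
      rw [Matrix.fromBlocks_transpose, hs]
      have h1 : (hyp g)ᵀ = hyp g := by
        unfold hyp
        ext i j
        fin_cases i <;> fin_cases j <;> simp
      rw [h1]
      simp
    exact congrFun (congrFun this a) b
  · unfold blkF
    rw [Matrix.reindex_apply, Matrix.det_submatrix_equiv_self, blk_det]
    exact hE.neg
  · intro x y hx hy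
    obtain ⟨a, rfl⟩ := finSumFinEquiv.surjective x
    obtain ⟨b, rfl⟩ := finSumFinEquiv.surjective y
    rw [hval]
    rcases a with a | a
    · exact absurd (lab2_inl r a) hx
    rcases b with b | b
    · exact absurd (lab2_inl r b) hy
    exact hb a b
  · intro x hx
    obtain ⟨a, rfl⟩ := finSumFinEquiv.surjective x
    rw [hval]
    rcases a with a | a
    · exact absurd (lab2_inl r a) hx
    exact hd a
  · intro x y _ hx
    have := lab2_le r x
    omega

/-- the member of the class attached to a graph -/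
theorem exists_block {m r : ℕ} (k : ℕ) (hk : 1 ≤ k) (G : SimpleGraph (Fin m)) [DecidableRel G.Adj]
    (hG : (G.adjMatrix ℚ).det ≠ 0) (σ : Fin r → Fin m) (hσ : Function.Injective σ)
    (hd : ((G.adjMatrix (ZMod 2)).submatrix σ σ).det ≠ 0)
    (Z : Finset (Fin m → ℤ)) (hZ : ∀ y ∈ Z, ∀ x, y x = 0 ∨ y x = 1)
    (hb : ∀ y ∈ Z, ∀ z ∈ Z, ∃ n : ℤ, (fun i => (y i : ℚ)) ⬝ᵥ
      ((G.adjMatrix ℚ)⁻¹ *ᵥ fun i => (z i : ℚ)) = 2 ^ k * n) :
    ∃ M : Matrix (Fin (2 + r)) (Fin (2 + r)) (RK k), Cls k (2 + r) (lab2 r) M ∧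
      (∀ a b, M (finSumFinEquiv (Sum.inr a)) (finSumFinEquiv (Sum.inr b)) =
        if G.Adj (σ a) (σ b) then 1 else 0) ∧
      ∃ Z' : Finset (Fin (2 + r) → RK k), Iso (lab2 r) M Z' ∧
        Z.card ≤ 2 ^ (k * (m - r)) * 2 ^ (m - r) * Z'.card := by
  classical
  set A := G.adjMatrix ℤ with hAdef
  have hAQ : A.map (Int.cast : ℤ → ℚ) = G.adjMatrix ℚ := by
    ext i j
    rw [Matrix.map_apply, hAdef, SimpleGraph.adjMatrix_apply, SimpleGraph.adjMatrix_apply]
    split_ifs <;> simp
  have hA2 : A.map (Int.cast : ℤ → ZMod 2) = G.adjMatrix (ZMod 2) := by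
    ext i j
    rw [Matrix.map_apply, hAdef, SimpleGraph.adjMatrix_apply, SimpleGraph.adjMatrix_apply]
    split_ifs <;> simp
  have hs : Aᵀ = A := SimpleGraph.transpose_adjMatrix G
  -- the determinant of the minor is odd
  have hdet2 : (((A.submatrix σ σ).det : ℤ) : ZMod 2) ≠ 0 := by
    have h1 : (((A.submatrix σ σ).det : ℤ) : ZMod 2) =
        ((A.map (Int.cast : ℤ → ZMod 2)).submatrix σ σ).det := Int.cast_det _
    rw [h1, hA2]
    exact hd
  have h0 : (A.submatrix σ σ).det ≠ 0 := by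
    intro h
    rw [h] at hdet2
    exact hdet2 (by norm_num)
  have hodd : IsUnit (((A.submatrix σ σ).det : ℤ) : ZMod (2 ^ k)) := by
    have h1 : Odd (A.submatrix σ σ).det := by
      rw [← Int.not_even_iff_odd]
      intro h2
      exact hdet2 ((ZMod.intCast_zmod_eq_zero_iff_dvd _ 2).2 (by exact_mod_cast h2.two_dvd))
    have h3 : IsCoprime (A.submatrix σ σ).det (2 ^ k : ℤ) := by
      refine IsCoprime.pow_right ?_
      rw [Int.isCoprime_iff_gcd_eq_one]
      have := h1.natAbs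
      rw [Int.gcd_comm]
      change Nat.gcd 2 _ = 1
      exact (Nat.coprime_two_left).2 this
    obtain ⟨a, b, hab⟩ := h3
    refine IsUnit.of_mul_eq_one ((a : ℤ) : ZMod (2 ^ k)) ?_
    have h4 := congrArg (Int.cast : ℤ → ZMod (2 ^ k)) hab
    have h5 : (((2 : ℤ) : ZMod (2 ^ k))) ^ k = 0 := by
      have := ZMod.natCast_self (2 ^ k)
      push_cast at this ⊢
      exact this
    rw [Int.cast_add, Int.cast_mul, Int.cast_mul, Int.cast_pow, h5, mul_zero, add_zero,
      Int.cast_one] at h4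
    rw [mul_comm]
    exact h4
  obtain ⟨Z', hZ'1, hZ'2, hZ'3, g, hg⟩ := exists_const k A hs (by rw [hAQ]; exact hG) σ h0 hσ Z hZ
    (by
      intro y hy z hz
      rw [hAQ]
      exact hb y hy z hz)
  -- the matrix
  set E : Matrix (Fin r) (Fin r) (RK k) := (A.submatrix σ σ).map (Int.cast : ℤ → ZMod (2 ^ k))
    with hEdef
  have hEdet : E.det = (((A.submatrix σ σ).det : ℤ) : ZMod (2 ^ k)) := (Int.cast_det _).symm
  have hEu : IsUnit E.det := by
    rw [hEdet]
    exact hodd
  have hEs : Eᵀ = E := by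
    rw [hEdef, ← Matrix.transpose_map, Matrix.transpose_submatrix, hs]
  have hEv : ∀ a b, E a b = if G.Adj (σ a) (σ b) then 1 else 0 := by
    intro a b
    rw [hEdef, Matrix.map_apply, Matrix.submatrix_apply, hAdef, SimpleGraph.adjMatrix_apply]
    split_ifs <;> simp
  have hadj : E.adjugate = (A.submatrix σ σ).adjugate.map (Int.cast : ℤ → ZMod (2 ^ k)) := by
    have := RingHom.map_adjugate (Int.castRingHom (ZMod (2 ^ k))) (A.submatrix σ σ)
    exact this.symm
  have hinv : E⁻¹ = Ring.inverse E.det • E.adjugate := Matrix.inv_def E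
  set γ : RK k := Ring.inverse E.det * g with hγ
  have hform : ∀ y ∈ Z', ∀ z ∈ Z', (fun i => ((y (σ i) : ℤ) : RK k)) ⬝ᵥ
      (E⁻¹ *ᵥ fun i => ((z (σ i) : ℤ) : RK k)) = γ := by
    intro y hy z hz
    rw [hinv, Matrix.smul_mulVec, dotProduct_smul, smul_eq_mul, hγ, ← hg y hy z hz, hadj]
    congr 1
    simp only [dotProduct, Matrix.mulVec, Function.comp_apply, Matrix.map_apply]
    push_cast
    rfl
  refine ⟨blkF γ E, cls_blkF γ E hEu hEs ?_ ?_, ?_, ?_⟩
  · intro x y
    rw [hEv]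
    split_ifs
    · exact Or.inr rfl
    · exact Or.inl rfl
  · intro x
    rw [hEv, if_neg (G.loopless.irrefl _)]
  · intro a b
    rw [← hEv]
    unfold blkF
    simp [Matrix.reindex_apply, blk]
  · let v : (Fin m → ℤ) → Fin (2 + r) → RK k :=
      fun y => vec2 (fun i => ((y (σ i) : ℤ) : RK k)) ∘ finSumFinEquiv.symm
    refine ⟨Z'.image v, ⟨?_, ?_⟩, ?_⟩
    · intro y hy x hx
      obtain ⟨z, hz, rfl⟩ := Finset.mem_image.1 hy
      obtain ⟨a, rfl⟩ := finSumFinEquiv.surjective x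
      rcases a with a | a
      · exact absurd (lab2_inl r a) hx
      change B01 (vec2 _ (finSumFinEquiv.symm (finSumFinEquiv (Sum.inr a))))
      rw [Equiv.symm_apply_apply]
      change B01 (((z (σ a) : ℤ) : RK k))
      rcases hZ z (hZ'1 hz) (σ a) with h | h
      · rw [h]
        exact Or.inl (by simp)
      · rw [h]
        exact Or.inr (by simp)
    · intro y hy z hz
      obtain ⟨y', hy', rfl⟩ := Finset.mem_image.1 hy
      obtain ⟨z', hz', rfl⟩ := Finset.mem_image.1 hz
      change frm (blkF γ E) (vec2 _ ∘ finSumFinEquiv.symm) (vec2 _ ∘ finSumFinEquiv.symm) = 0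
      rw [frm_blkF γ E hEu, hform y' hy' z' hz', neg_add_cancel]
    · rw [Finset.card_image_of_injOn]
      · exact hZ'2
      · intro y hy z hz hyz
        have h1 : ∀ i, ((y (σ i) : ℤ) : RK k) = ((z (σ i) : ℤ) : RK k) := by
          intro i
          have h2 := congrFun hyz (finSumFinEquiv (Sum.inr i))
          change vec2 _ (finSumFinEquiv.symm (finSumFinEquiv (Sum.inr i))) =
            vec2 _ (finSumFinEquiv.symm (finSumFinEquiv (Sum.inr i))) at h2
          rw [Equiv.symm_apply_apply] at h2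
          exact h2
        have hne : (1 : RK k) ≠ 0 := by
          have : Fact (1 < 2 ^ k) := ⟨Nat.one_lt_two_pow (by omega)⟩
          exact one_ne_zero
        funext x
        by_cases hx : x ∈ Set.range σ
        · obtain ⟨i, rfl⟩ := hx
          have h3 := h1 i
          rcases hZ y (hZ'1 hy) (σ i) with h4 | h4 <;> rcases hZ z (hZ'1 hz) (σ i) with h5 | h5
          · rw [h4, h5]
          · rw [h4, h5] at h3
            exact absurd (by simpa using h3.symm) hne
          · rw [h4, h5] at h3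
            exact absurd (by simpa using h3) hne
          · rw [h4, h5]
        · exact hZ'3 y hy z hz x hx

/-! ### Counting -/

open scoped Classical in
/-- graphs with a large set of cube vectors on which the form is divisible by `2^k` -/
def DivSet {m : ℕ} (k : ℕ) (α : ℝ) (G : SimpleGraph (Fin m)) : Prop :=
  (G.adjMatrix ℚ).det ≠ 0 ∧ ∃ Z : Finset (Fin m → ℤ), (∀ y ∈ Z, ∀ x, y x = 0 ∨ y x = 1) ∧
    (∀ y ∈ Z, ∀ z ∈ Z, ∃ n : ℤ, S1.bf G y z = 2 ^ k * n) ∧ (2 : ℝ) ^ (α * m) ≤ (Z.card : ℝ)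

theorem card_compl_range {m r : ℕ} (σ : Fin r → Fin m) (hσ : Function.Injective σ) :
    Nat.card {x : Fin m // x ∉ Set.range σ} = m - r := by
  classical
  rw [Nat.card_eq_fintype_card]
  have h2 : Fintype.card {x : Fin m // x ∉ Set.range σ} =
      Fintype.card (Fin m) - Fintype.card {x : Fin m // x ∈ Set.range σ} :=
    Fintype.card_subtype_compl _
  have h3 : Fintype.card {x : Fin m // x ∈ Set.range σ} = r := by
    have := Set.card_range_of_injective hσ
    rw [Fintype.card_fin] at this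
    convert this using 1
  rw [h2, h3, Fintype.card_fin]

open scoped Classical in
theorem card_even {m r : ℕ} (k : ℕ) (hk : 1 ≤ k) (hr : r ≤ m) (σ : Fin r → Fin m)
    (hσ : Function.Injective σ) (α β : ℝ)
    (hβ : β * ((2 + r : ℕ) : ℝ) ≤ α * m - (k + 1) * (m - r)) :
    Nat.card {G : SimpleGraph (Fin m) // DivSet k α G ∧
      ((G.adjMatrix (ZMod 2)).submatrix σ σ).det ≠ 0} ≤
      NI k (2 + r) (lab2 r) β * 2 ^ (m * (m - r)) := by
  have key : ∀ G : {G : SimpleGraph (Fin m) // DivSet k α G ∧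
      ((G.adjMatrix (ZMod 2)).submatrix σ σ).det ≠ 0},
      ∃ M : Matrix (Fin (2 + r)) (Fin (2 + r)) (RK k), (Cls k (2 + r) (lab2 r) M ∧
        ∃ Z, Iso (lab2 r) M Z ∧ (2 : ℝ) ^ (β * ((2 + r : ℕ) : ℝ)) ≤ (Z.card : ℝ)) ∧
      (∀ a b, M (finSumFinEquiv (Sum.inr a)) (finSumFinEquiv (Sum.inr b)) =
        if G.1.Adj (σ a) (σ b) then 1 else 0) := by
    rintro ⟨G, ⟨hG, Z, hZ1, hZ2, hZ3⟩, hd⟩
    obtain ⟨M, hM1, hM2, Z', hZ'1, hZ'2⟩ := exists_block k hk G hG σ hσ hd Z hZ1 hZ2
    refine ⟨M, ⟨hM1, Z', hZ'1, ?_⟩, hM2⟩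
    have h1 : (Z.card : ℝ) ≤ 2 ^ (k * (m - r)) * 2 ^ (m - r) * (Z'.card : ℝ) := by
      exact_mod_cast hZ'2
    have h2 : (2 : ℝ) ^ (k * (m - r)) * 2 ^ (m - r) = (2 : ℝ) ^ (((k : ℝ) + 1) * (m - r)) := by
      rw [← pow_add, ← Real.rpow_natCast]
      congr 1
      push_cast [Nat.cast_sub hr]
      ring
    rw [h2] at h1
    have h3 : (2 : ℝ) ^ (β * ((2 + r : ℕ) : ℝ)) * (2 : ℝ) ^ (((k : ℝ) + 1) * (m - r)) ≤
        (2 : ℝ) ^ (α * m) := by
      rw [← Real.rpow_add (by norm_num)]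
      refine Real.rpow_le_rpow_of_exponent_le (by norm_num) ?_
      linarith
    have h4 : (0 : ℝ) < (2 : ℝ) ^ (((k : ℝ) + 1) * (m - r)) := by positivity
    have h5 := h3.trans (hZ3.trans h1)
    rw [mul_comm ((2 : ℝ) ^ (((k : ℝ) + 1) * (m - r)))] at h5
    exact le_of_mul_le_mul_right h5 h4
  choose M hM1 hM2 using key
  have hne : (1 : RK k) ≠ 0 := by
    have : Fact (1 < 2 ^ k) := ⟨Nat.one_lt_two_pow (by omega)⟩
    exact one_ne_zero
  have hcard : Nat.card ({x : Fin m // x ∉ Set.range σ} → Fin m → Bool) = 2 ^ (m * (m - r)) := by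
    rw [Nat.card_fun, card_compl_range σ hσ, Nat.card_fun, Nat.card_eq_fintype_card,
      Nat.card_eq_fintype_card, Fintype.card_bool, Fintype.card_fin, ← pow_mul]
  unfold NI
  rw [← hcard, ← Nat.card_prod]
  refine Nat.card_le_card_of_injective (fun G => (⟨M G, hM1 G⟩,
    fun x y => decide (G.1.Adj x.1 y))) ?_
  intro G H hGH
  have h1 : M G = M H := congrArg (fun p => p.1.1) hGH
  have h2 : (fun (x : {x : Fin m // x ∉ Set.range σ}) y => decide (G.1.Adj x.1 y)) =
      fun x y => decide (H.1.Adj x.1 y) := congrArg (fun p => p.2) hGH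
  have h3 : ∀ x, x ∉ Set.range σ → ∀ y, G.1.Adj x y ↔ H.1.Adj x y := by
    intro x hx y
    exact decide_eq_decide.1 (congrFun (congrFun h2 ⟨x, hx⟩) y)
  apply Subtype.ext
  ext x y
  by_cases hx : x ∈ Set.range σ
  · by_cases hy : y ∈ Set.range σ
    · obtain ⟨a, rfl⟩ := hx
      obtain ⟨b, rfl⟩ := hy
      have h4 := hM2 G a b
      rw [h1, hM2 H a b] at h4
      by_cases hg : G.1.Adj (σ a) (σ b)
      · by_cases hh : H.1.Adj (σ a) (σ b)
        · exact ⟨fun _ => hh, fun _ => hg⟩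
        · rw [if_pos hg, if_neg hh] at h4
          exact absurd h4.symm hne
      · by_cases hh : H.1.Adj (σ a) (σ b)
        · rw [if_neg hg, if_pos hh] at h4
          exact absurd h4 hne
        · exact ⟨fun h => absurd h hg, fun h => absurd h hh⟩
    · rw [SimpleGraph.adj_comm G.1, SimpleGraph.adj_comm H.1]
      exact h3 y hy x
  · exact h3 x hx y

open scoped Classical in
theorem card_rank {m r : ℕ} (σ : Fin r → Fin m) (hσ : Function.Injective σ) :
    Nat.card {G : SimpleGraph (Fin m) //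
      ((G.adjMatrix (ZMod 2)).submatrix σ σ).det ≠ 0 ∧ (G.adjMatrix (ZMod 2)).rank ≤ r} ≤
      Nat.card (SimpleGraph (Fin r)) * 2 ^ (r * (m - r)) := by
  have hcard : Nat.card ({x : Fin m // x ∉ Set.range σ} → Fin r → Bool) = 2 ^ (r * (m - r)) := by
    rw [Nat.card_fun, card_compl_range σ hσ, Nat.card_fun, Nat.card_eq_fintype_card,
      Nat.card_eq_fintype_card, Fintype.card_bool, Fintype.card_fin, ← pow_mul]
  rw [← hcard, ← Nat.card_prod]
  refine Nat.card_le_card_of_injective (fun G => (G.1.comap σ,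
    fun x y => decide (G.1.Adj x.1 (σ y)))) ?_
  intro G H hGH
  have h1 : G.1.comap σ = H.1.comap σ := congrArg (fun p => p.1) hGH
  have h2 : (fun (x : {x : Fin m // x ∉ Set.range σ}) y => decide (G.1.Adj x.1 (σ y))) =
      fun x y => decide (H.1.Adj x.1 (σ y)) := congrArg (fun p => p.2) hGH
  have h3 : ∀ x y, G.1.Adj x (σ y) ↔ H.1.Adj x (σ y) := by
    intro x y
    by_cases hx : x ∈ Set.range σ
    · obtain ⟨a, rfl⟩ := hx
      have h4 : (G.1.comap σ).Adj a y ↔ (H.1.comap σ).Adj a y := by rw [h1]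
      exact h4
    · exact decide_eq_decide.1 (congrFun (congrFun h2 ⟨x, hx⟩) y)
  have h4 : (G.1.adjMatrix (ZMod 2)).submatrix id σ = (H.1.adjMatrix (ZMod 2)).submatrix id σ := by
    ext x y
    simp only [Matrix.submatrix_apply, SimpleGraph.adjMatrix_apply, id]
    simp only [h3]
  have h5 : (G.1.adjMatrix (ZMod 2)).submatrix σ id = (H.1.adjMatrix (ZMod 2)).submatrix σ id := by
    ext x y
    simp only [Matrix.submatrix_apply, SimpleGraph.adjMatrix_apply, id]
    simp only [SimpleGraph.adj_comm _ (σ x) y, h3]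
  have h6 : (G.1.adjMatrix (ZMod 2)).submatrix σ σ = (H.1.adjMatrix (ZMod 2)).submatrix σ σ := by
    ext x y
    exact congrFun (congrFun h4 (σ x)) y
  have h7 : G.1.adjMatrix (ZMod 2) = H.1.adjMatrix (ZMod 2) := by
    rw [ThmG.eq_schur _ σ G.2.1 G.2.2, ThmG.eq_schur _ σ H.2.1 H.2.2, h4, h5, h6]
  apply Subtype.ext
  ext x y
  have h8 := congrFun (congrFun h7 x) y
  rw [SimpleGraph.adjMatrix_apply, SimpleGraph.adjMatrix_apply] at h8
  by_cases hg : G.1.Adj x y
  · by_cases hh : H.1.Adj x y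
    · exact ⟨fun _ => hh, fun _ => hg⟩
    · rw [if_pos hg, if_neg hh] at h8
      exact absurd h8 (by decide)
  · by_cases hh : H.1.Adj x y
    · rw [if_neg hg, if_pos hh] at h8
      exact absurd h8 (by decide)
    · exact ⟨fun h => absurd h hg, fun h => absurd h hh⟩

theorem card_graph_le (r : ℕ) : (Nat.card (SimpleGraph (Fin r)) : ℝ) ≤
    (2 : ℝ) ^ ((r : ℝ) ^ 2 / 2) := by
  induction r with
  | zero =>
    have : Nat.card (SimpleGraph (Fin 0)) = 1 := Nat.card_unique
    rw [this]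
    simp
  | succ r ih =>
    rw [S1.card_succ, ← Real.rpow_natCast 2 r]
    refine le_trans (mul_le_mul_of_nonneg_left ih (by positivity)) ?_
    rw [← Real.rpow_add (by norm_num)]
    refine Real.rpow_le_rpow_of_exponent_le (by norm_num) ?_
    push_cast
    nlinarith

open scoped Classical in
/-- union over the minors -/
theorem card_union {m : ℕ} (P : SimpleGraph (Fin m) → Prop) (B : ℝ) (hB : 0 ≤ B)
    (h : ∀ r ≤ m, ∀ σ : Fin r → Fin m, Function.Injective σ →
      (Nat.card {G : SimpleGraph (Fin m) // P G ∧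
        ((G.adjMatrix (ZMod 2)).submatrix σ σ).det ≠ 0 ∧
        (G.adjMatrix (ZMod 2)).rank ≤ r} : ℝ) ≤ B) :
    (Nat.card {G : SimpleGraph (Fin m) // P G} : ℝ) ≤ (m + 1) ^ (m + 1) * B := by
  have e : ∀ Q : SimpleGraph (Fin m) → Prop, Nat.card {A // Q A} =
      (Finset.univ.filter Q).card := by
    intro Q
    rw [Nat.card_eq_fintype_card, Fintype.card_subtype]
  have hsub : (Finset.univ.filter P) ⊆ (Finset.range (m + 1)).biUnion fun r =>
      (Finset.univ.filter fun σ : Fin r → Fin m => Function.Injective σ).biUnion fun σ =>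
        Finset.univ.filter fun G : SimpleGraph (Fin m) => P G ∧
        ((G.adjMatrix (ZMod 2)).submatrix σ σ).det ≠ 0 ∧
        (G.adjMatrix (ZMod 2)).rank ≤ r := by
    intro G hG
    rw [Finset.mem_filter] at hG
    obtain ⟨σ, hσ, hd⟩ := ThmG.exists_principal (G.adjMatrix (ZMod 2))
      (SimpleGraph.transpose_adjMatrix G) rfl
    rw [Finset.mem_biUnion]
    refine ⟨(G.adjMatrix (ZMod 2)).rank, ?_, ?_⟩
    · rw [Finset.mem_range]
      have := Matrix.rank_le_card_width (G.adjMatrix (ZMod 2))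
      rw [Fintype.card_fin] at this
      omega
    · rw [Finset.mem_biUnion]
      refine ⟨σ, by simpa using hσ, ?_⟩
      rw [Finset.mem_filter]
      exact ⟨Finset.mem_univ _, hG.2, hd, le_refl _⟩
  rw [e]
  have h1 : ((Finset.univ.filter P).card : ℝ) ≤ ∑ r ∈ Finset.range (m + 1),
      ∑ σ ∈ (Finset.univ.filter fun σ : Fin r → Fin m => Function.Injective σ),
        ((Finset.univ.filter fun G : SimpleGraph (Fin m) => P G ∧
        ((G.adjMatrix (ZMod 2)).submatrix σ σ).det ≠ 0 ∧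
        (G.adjMatrix (ZMod 2)).rank ≤ r).card : ℝ) := by
    have h2 := le_trans (Finset.card_le_card hsub) Finset.card_biUnion_le
    have h3 : (∑ r ∈ Finset.range (m + 1),
      ((Finset.univ.filter fun σ : Fin r → Fin m => Function.Injective σ).biUnion fun σ =>
        Finset.univ.filter fun G : SimpleGraph (Fin m) => P G ∧
        ((G.adjMatrix (ZMod 2)).submatrix σ σ).det ≠ 0 ∧
        (G.adjMatrix (ZMod 2)).rank ≤ r).card) ≤ ∑ r ∈ Finset.range (m + 1),
      ∑ σ ∈ (Finset.univ.filter fun σ : Fin r → Fin m => Function.Injective σ),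
        (Finset.univ.filter fun G : SimpleGraph (Fin m) => P G ∧
        ((G.adjMatrix (ZMod 2)).submatrix σ σ).det ≠ 0 ∧
        (G.adjMatrix (ZMod 2)).rank ≤ r).card :=
      Finset.sum_le_sum fun r _ => Finset.card_biUnion_le
    exact_mod_cast h2.trans h3
  refine h1.trans ?_
  have h4 : ∀ r ∈ Finset.range (m + 1),
      ∑ σ ∈ (Finset.univ.filter fun σ : Fin r → Fin m => Function.Injective σ),
        ((Finset.univ.filter fun G : SimpleGraph (Fin m) => P G ∧
        ((G.adjMatrix (ZMod 2)).submatrix σ σ).det ≠ 0 ∧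
        (G.adjMatrix (ZMod 2)).rank ≤ r).card : ℝ) ≤ (m + 1) ^ m * B := by
    intro r hr
    rw [Finset.mem_range] at hr
    have h5 : ∀ σ ∈ (Finset.univ.filter fun σ : Fin r → Fin m => Function.Injective σ),
        ((Finset.univ.filter fun G : SimpleGraph (Fin m) => P G ∧
        ((G.adjMatrix (ZMod 2)).submatrix σ σ).det ≠ 0 ∧
        (G.adjMatrix (ZMod 2)).rank ≤ r).card : ℝ) ≤ B := by
      intro σ hσ
      rw [Finset.mem_filter] at hσ
      have := h r (by omega) σ hσ.2
      rw [e] at this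
      convert this
    refine (Finset.sum_le_sum h5).trans ?_
    rw [Finset.sum_const, nsmul_eq_mul]
    refine mul_le_mul_of_nonneg_right ?_ hB
    have h6 : (Finset.univ.filter fun σ : Fin r → Fin m => Function.Injective σ).card ≤ m ^ r := by
      refine le_trans (Finset.card_filter_le _ _) ?_
      rw [Finset.card_univ, Fintype.card_fun, Fintype.card_fin, Fintype.card_fin]
    calc ((Finset.univ.filter fun σ : Fin r → Fin m => Function.Injective σ).card : ℝ) ≤
        ((m ^ r : ℕ) : ℝ) := by exact_mod_cast h6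
      _ = (m : ℝ) ^ r := by push_cast; rfl
      _ ≤ ((m : ℝ) + 1) ^ r := pow_le_pow_left₀ (Nat.cast_nonneg _) (by linarith) _
      _ ≤ ((m : ℝ) + 1) ^ m := pow_le_pow_right₀ (by
          have : (0 : ℝ) ≤ m := Nat.cast_nonneg _
          linarith) (by omega)
  refine (Finset.sum_le_sum h4).trans ?_
  rw [Finset.sum_const, nsmul_eq_mul, Finset.card_range]
  push_cast
  rw [pow_succ]
  nlinarith [hB]

/-! ### The theorem -/

/-- statement of the `n^2`-scale theorem (`main_n2`) -/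
def MainN2 : Prop := ∀ α : ℝ, 0 < α →
  ∃ K : ℕ, 1 ≤ K ∧ ∃ δ : ℝ, 0 < δ ∧ ∃ c : ℝ, 0 < c ∧ ∃ M0 : ℕ, ∀ m : ℕ, M0 ≤ m →
    ∀ lab : Fin m → ℕ, (∀ x, lab x ≤ 1) → (K : ℝ) * nsp lab ≤ δ * m →
      (NI K m lab α : ℝ) ≤ (2 : ℝ) ^ ((1 / 2 - c) * (m : ℝ) ^ 2)

theorem poly_le (η : ℝ) (hη : 0 < η) : ∃ M : ℕ, ∀ m : ℕ, M ≤ m →
    ((m : ℝ) + 1) ^ (m + 1) ≤ (2 : ℝ) ^ (η * (m : ℝ) ^ 2) := by
  have hr : (1 : ℝ) < 2 ^ η := Real.one_lt_rpow (by norm_num) hη
  have ht := tendsto_pow_const_div_const_pow_of_one_lt 2 hr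
  have ht2 := (ht.const_mul 4).eventually (gt_mem_nhds (show (4 : ℝ) * 0 < 1 by norm_num))
  obtain ⟨N, hN⟩ := Filter.eventually_atTop.1 ht2
  refine ⟨max N 1, fun m hm => ?_⟩
  have h4 := hN m (le_trans (le_max_left _ _) hm)
  have hm1 : 1 ≤ m := le_trans (le_max_right _ _) hm
  have h5 : (1 : ℝ) ≤ m := by exact_mod_cast hm1
  have h6 : (0 : ℝ) < (2 ^ η) ^ m := by positivity
  rw [← mul_div_assoc, div_lt_one h6] at h4
  have h7 : ((m : ℝ) + 1) ^ 2 ≤ (2 ^ η) ^ m := by nlinarith
  calc ((m : ℝ) + 1) ^ (m + 1) ≤ ((m : ℝ) + 1) ^ (2 * m) :=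
        pow_le_pow_right₀ (by linarith) (by omega)
    _ = (((m : ℝ) + 1) ^ 2) ^ m := by rw [pow_mul]
    _ ≤ ((2 ^ η) ^ m) ^ m := pow_le_pow_left₀ (by positivity) h7 m
    _ = (2 : ℝ) ^ (η * (m : ℝ) ^ 2) := by
        rw [← pow_mul, ← Real.rpow_natCast, ← Real.rpow_mul (by norm_num)]
        congr 1
        push_cast
        ring

theorem ni_anti {K m : ℕ} {lab : Fin m → ℕ} {α β : ℝ} (h : α ≤ β) :
    NI K m lab β ≤ NI K m lab α := by
  unfold NI
  refine Nat.card_le_card_of_injective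
    (fun E => ⟨E.1, E.2.1, ?_⟩) ?_
  · obtain ⟨Z, hZ, hZ2⟩ := E.2.2
    refine ⟨Z, hZ, le_trans ?_ hZ2⟩
    refine Real.rpow_le_rpow_of_exponent_le (by norm_num) ?_
    exact mul_le_mul_of_nonneg_right h (Nat.cast_nonneg _)
  · intro E E' hEE
    exact Subtype.ext (congrArg (fun x => x.1) hEE)

/-- **Graphs with a large set of cube vectors on which the form is divisible by `2^k` are
`n^2`-rare.** -/
theorem div_rare_of (hmain : MainN2) (α : ℝ) (hα : 0 < α) :
    ∃ k : ℕ, 1 ≤ k ∧ ∃ c : ℝ, 0 < c ∧ ∃ M0 : ℕ, ∀ m : ℕ, M0 ≤ m →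
      (Nat.card {G : SimpleGraph (Fin m) // DivSet k α G} : ℝ) ≤
        (2 : ℝ) ^ ((1 / 2 - c) * (m : ℝ) ^ 2) := by
  classical
  obtain ⟨K, hK, δ, hδ, c0, hc0, M1, hM⟩ := hmain (α / 2) (by linarith)
  set c := min c0 (1 / 4) with hc
  have hcpos : 0 < c := lt_min hc0 (by norm_num)
  have hc4 : c ≤ 1 / 4 := min_le_right _ _
  have hcc : c ≤ c0 := min_le_left _ _
  have hK1 : (0 : ℝ) < K + 1 := by positivity
  set θ : ℝ := min (min (α / (4 * (K + 1))) (c / 4)) (1 / 2) with hθ
  have hθpos : 0 < θ := lt_min (lt_min (by positivity) (by linarith)) (by norm_num)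
  have hθ1 : θ ≤ α / (4 * (K + 1)) := le_trans (min_le_left _ _) (min_le_left _ _)
  have hθ2 : θ ≤ c / 4 := le_trans (min_le_left _ _) (min_le_right _ _)
  have hθ3 : θ ≤ 1 / 2 := min_le_right _ _
  set c1 : ℝ := min (θ ^ 2 / 2) (c / 2) with hc1
  have hc1pos : 0 < c1 := lt_min (by positivity) (by linarith)
  have hc1a : c1 ≤ θ ^ 2 / 2 := min_le_left _ _
  have hc1b : c1 ≤ c / 2 := min_le_right _ _
  obtain ⟨M2, hM2⟩ := poly_le (c1 / 2) (by linarith)
  obtain ⟨M3, hM3⟩ := exists_nat_gt (2 * (2 * K / δ))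
  obtain ⟨M4, hM4⟩ := exists_nat_gt (16 / c)
  refine ⟨K, hK, c1 / 2, by linarith, max (max (2 * M1) M2) (max M3 (max M4 4)), fun m hm => ?_⟩
  have hmM1 : 2 * M1 ≤ m := le_trans (le_trans (le_max_left _ _) (le_max_left _ _)) hm
  have hmM2 : M2 ≤ m := le_trans (le_trans (le_max_right _ _) (le_max_left _ _)) hm
  have hmM3 : M3 ≤ m := le_trans (le_trans (le_max_left _ _) (le_max_right _ _)) hm
  have hmM4 : M4 ≤ m := le_trans (le_trans (le_trans (le_max_left _ _) (le_max_right _ _))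
    (le_max_right _ _)) hm
  have hm4 : 4 ≤ m := le_trans (le_trans (le_trans (le_max_right _ _) (le_max_right _ _))
    (le_max_right _ _)) hm
  have hm4' : (4 : ℝ) ≤ m := by exact_mod_cast hm4
  have hm3' : 2 * (2 * K / δ) < (m : ℝ) := lt_of_lt_of_le hM3 (by exact_mod_cast hmM3)
  have hm4'' : 16 / c < (m : ℝ) := lt_of_lt_of_le hM4 (by exact_mod_cast hmM4)
  have hcm : 16 < c * m := by
    rw [div_lt_iff₀ hcpos] at hm4''
    linarith
  have hB := card_union (DivSet K α) ((2 : ℝ) ^ ((1 / 2 - c1) * (m : ℝ) ^ 2)) (by positivity)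
    (by
      intro r hr σ hσ
      have hr' : (r : ℝ) ≤ m := by exact_mod_cast hr
      have hr0 : (0 : ℝ) ≤ r := Nat.cast_nonneg _
      by_cases hcase : (m : ℝ) - r ≤ θ * m
      · -- small corank
        have hhalf : (m : ℝ) / 2 ≤ r := by nlinarith
        have h1 : (Nat.card {G : SimpleGraph (Fin m) // DivSet K α G ∧
            ((G.adjMatrix (ZMod 2)).submatrix σ σ).det ≠ 0 ∧
            (G.adjMatrix (ZMod 2)).rank ≤ r} : ℝ) ≤
            (Nat.card {G : SimpleGraph (Fin m) // DivSet K α G ∧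
            ((G.adjMatrix (ZMod 2)).submatrix σ σ).det ≠ 0} : ℝ) := by
          refine Nat.cast_le.2 ?_
          refine Nat.card_le_card_of_injective
            (fun G => ⟨G.1, G.2.1, G.2.2.1⟩) ?_
          intro G H h
          exact Subtype.ext (congrArg (fun x => x.1) h)
        have h2 := card_even K hK hr σ hσ α (α / 2) (by
          push_cast
          have e1 : ((K : ℝ) + 1) * (m - r) ≤ α / 4 * m := by
            calc ((K : ℝ) + 1) * (m - r) ≤ (K + 1) * (θ * m) :=
                  mul_le_mul_of_nonneg_left hcase hK1.le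
              _ ≤ (K + 1) * (α / (4 * (K + 1)) * m) := by
                  refine mul_le_mul_of_nonneg_left ?_ hK1.le
                  exact mul_le_mul_of_nonneg_right hθ1 (by linarith)
              _ = α / 4 * m := by
                  field_simp
          nlinarith)
        have h3 : M1 ≤ 2 + r := by
          have : (M1 : ℝ) ≤ m / 2 := by
            have : ((2 * M1 : ℕ) : ℝ) ≤ m := by exact_mod_cast hmM1
            push_cast at this
            linarith
          have h4 : (M1 : ℝ) ≤ r := this.trans hhalf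
          have h5 : M1 ≤ r := by exact_mod_cast h4
          omega
        have h4 := hM (2 + r) h3 (lab2 r) (lab2_le r) (by
          rw [nsp_lab2]
          push_cast
          have e1 : 2 * (2 * K / δ) * δ = 4 * K := by
            field_simp
            ring
          have e2 : 4 * K ≤ δ * m := by
            rw [← e1]
            nlinarith
          nlinarith)
        have h5 : (NI K (2 + r) (lab2 r) (α / 2) : ℝ) ≤
            (2 : ℝ) ^ ((1 / 2 - c) * ((m : ℝ) + 2) ^ 2) := by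
          refine h4.trans ?_
          refine Real.rpow_le_rpow_of_exponent_le (by norm_num) ?_
          push_cast
          have e1 : (2 + (r : ℝ)) ^ 2 ≤ ((m : ℝ) + 2) ^ 2 := by
            apply pow_le_pow_left₀ (by linarith)
            linarith
          have e2 : (1 / 2 - c0) * (2 + (r : ℝ)) ^ 2 ≤ (1 / 2 - c) * (2 + (r : ℝ)) ^ 2 :=
            mul_le_mul_of_nonneg_right (by linarith) (by positivity)
          have e3 : (1 / 2 - c) * (2 + (r : ℝ)) ^ 2 ≤ (1 / 2 - c) * ((m : ℝ) + 2) ^ 2 :=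
            mul_le_mul_of_nonneg_left e1 (by linarith)
          linarith
        have h6 : (Nat.card {G : SimpleGraph (Fin m) // DivSet K α G ∧
            ((G.adjMatrix (ZMod 2)).submatrix σ σ).det ≠ 0} : ℝ) ≤
            (2 : ℝ) ^ ((1 / 2 - c) * ((m : ℝ) + 2) ^ 2) * (2 : ℝ) ^ ((m : ℝ) * (m - r)) := by
          have e1 : ((2 : ℝ) ^ (m * (m - r)) : ℝ) = (2 : ℝ) ^ ((m : ℝ) * (m - r)) := by
            rw [← Real.rpow_natCast]
            congr 1
            push_cast [Nat.cast_sub hr]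
            ring
          rw [← e1]
          have h7 := (Nat.cast_le (α := ℝ)).2 h2
          push_cast at h7
          refine h7.trans ?_
          exact mul_le_mul_of_nonneg_right h5 (by positivity)
        refine h1.trans (h6.trans ?_)
        rw [← Real.rpow_add (by norm_num)]
        refine Real.rpow_le_rpow_of_exponent_le (by norm_num) ?_
        have e1 : (m : ℝ) * (m - r) ≤ c / 4 * (m : ℝ) ^ 2 := by
          calc (m : ℝ) * (m - r) ≤ m * (θ * m) := mul_le_mul_of_nonneg_left hcase (by linarith)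
            _ ≤ m * (c / 4 * m) := by
                refine mul_le_mul_of_nonneg_left ?_ (by linarith)
                exact mul_le_mul_of_nonneg_right hθ2 (by linarith)
            _ = c / 4 * (m : ℝ) ^ 2 := by ring
        have e2 : c1 * (m : ℝ) ^ 2 ≤ c / 2 * (m : ℝ) ^ 2 :=
          mul_le_mul_of_nonneg_right hc1b (by positivity)
        have e3 : 2 * (m : ℝ) + 2 ≤ c / 4 * (m : ℝ) ^ 2 := by
          have e5 : 16 * (m : ℝ) ≤ c * m * m := mul_le_mul_of_nonneg_right hcm.le (by linarith)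
          have e6 : c / 4 * (m : ℝ) ^ 2 = c * m * m / 4 := by ring
          rw [e6]
          linarith
        have e4 : (1 / 2 - c) * ((m : ℝ) + 2) ^ 2 ≤ (1 / 2 - c) * (m : ℝ) ^ 2 + (2 * m + 2) := by
          have e5 : 0 ≤ c * (4 * (m : ℝ) + 4) := by positivity
          have e6 : (1 / 2 - c) * ((m : ℝ) + 2) ^ 2 =
              (1 / 2 - c) * (m : ℝ) ^ 2 + (2 * m + 2) - c * (4 * m + 4) := by ring
          linarith
        have e7 : (1 / 2 - c) * (m : ℝ) ^ 2 = 1 / 2 * (m : ℝ) ^ 2 - c * (m : ℝ) ^ 2 := by ring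
        have e8 : (1 / 2 - c1) * (m : ℝ) ^ 2 = 1 / 2 * (m : ℝ) ^ 2 - c1 * (m : ℝ) ^ 2 := by ring
        have e9 : c / 2 * (m : ℝ) ^ 2 = c * (m : ℝ) ^ 2 / 2 := by ring
        have e10 : c / 4 * (m : ℝ) ^ 2 = c * (m : ℝ) ^ 2 / 4 := by ring
        rw [e8]
        rw [e7] at e4
        rw [e9] at e2
        rw [e10] at e1 e3
        linarith
      · -- large corank
        have hcase' : θ * m ≤ (m : ℝ) - r := le_of_lt (not_le.1 hcase)
        have h1 : (Nat.card {G : SimpleGraph (Fin m) // DivSet K α G ∧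
            ((G.adjMatrix (ZMod 2)).submatrix σ σ).det ≠ 0 ∧
            (G.adjMatrix (ZMod 2)).rank ≤ r} : ℝ) ≤
            (Nat.card {G : SimpleGraph (Fin m) //
            ((G.adjMatrix (ZMod 2)).submatrix σ σ).det ≠ 0 ∧
            (G.adjMatrix (ZMod 2)).rank ≤ r} : ℝ) := by
          refine Nat.cast_le.2 ?_
          refine Nat.card_le_card_of_injective
            (fun G => ⟨G.1, G.2.2.1, G.2.2.2⟩) ?_
          intro G H h
          exact Subtype.ext (congrArg (fun x => x.1) h)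
        have h2 := (Nat.cast_le (α := ℝ)).2 (card_rank σ hσ)
        push_cast at h2
        have h3 := card_graph_le r
        have h4 : ((2 : ℝ) ^ (r * (m - r)) : ℝ) = (2 : ℝ) ^ ((r : ℝ) * (m - r)) := by
          rw [← Real.rpow_natCast]
          congr 1
          push_cast [Nat.cast_sub hr]
          ring
        rw [h4] at h2
        refine h1.trans (h2.trans ?_)
        refine (mul_le_mul_of_nonneg_right h3 (by positivity)).trans ?_
        rw [← Real.rpow_add (by norm_num)]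
        refine Real.rpow_le_rpow_of_exponent_le (by norm_num) ?_
        have e1 : (θ * m) ^ 2 ≤ ((m : ℝ) - r) ^ 2 := pow_le_pow_left₀ (by positivity) hcase' 2
        have e2 : c1 * (m : ℝ) ^ 2 ≤ θ ^ 2 / 2 * (m : ℝ) ^ 2 :=
          mul_le_mul_of_nonneg_right hc1a (by positivity)
        nlinarith)
  refine hB.trans ?_
  refine (mul_le_mul_of_nonneg_right (hM2 m hmM2) (by positivity)).trans ?_
  rw [← Real.rpow_add (by norm_num)]
  refine Real.rpow_le_rpow_of_exponent_le (by norm_num) ?_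
  nlinarith

end Pool.Agent.Lib.N2
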