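import Mathlib

/-!
# N2.Exch: the exchange of `k` vertices as an involution (any commutative ring)

`E` symmetric invertible on `ι`, `T t` (`t : κ`) new columns, `q : κ → ι` injective.
`xm q A` = identity matrix with row `q t` replaced by `A t`, `A t = E⁻¹ T t`.
`E' = xm * E * xmᵀ`, `T' t = (xm * E) e_(q t)`.
-/

set_option autoImplicit false

open Matrix

namespace Pool.Agent.Lib.N2

section algebra

variable {ι κ R : Type*} [Fintype ι] [DecidableEq ι] [CommRing R]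

/-- identity matrix with row `q t` replaced by `A t` -/
noncomputable def xm (q : κ → ι) (A : κ → ι → R) : Matrix ι ι R :=
  Matrix.of (Function.extend q A (fun i j => (1 : Matrix ι ι R) i j))

omit [Fintype ι] in
theorem xm_q {q : κ → ι} (hq : Function.Injective q) (A : κ → ι → R) (t : κ) (j : ι) :
    xm q A (q t) j = A t j := by
  simp only [xm, Matrix.of_apply]
  rw [hq.extend_apply]

omit [Fintype ι] in
theorem xm_off {q : κ → ι} (A : κ → ι → R) {i : ι} (hi : ∀ t, q t ≠ i) (j : ι) :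
    xm q A i j = (1 : Matrix ι ι R) i j := by
  simp only [xm, Matrix.of_apply]
  rw [Function.extend_apply']
  rintro ⟨t, ht⟩
  exact hi t ht

theorem xm_mul_off {q : κ → ι} (A : κ → ι → R) (E : Matrix ι ι R) {i : ι} (hi : ∀ t, q t ≠ i)
    (j : ι) : (xm q A * E) i j = E i j := by
  have h : (xm q A * E) i j = ((1 : Matrix ι ι R) * E) i j := by
    simp only [Matrix.mul_apply, xm_off A hi]
  rw [h, Matrix.one_mul]

theorem xm_mul_q {q : κ → ι} (hq : Function.Injective q) (A : κ → ι → R) (E : Matrix ι ι R)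
    (t : κ) (j : ι) : (xm q A * E) (q t) j = (A t ᵥ* E) j := by
  simp only [Matrix.mul_apply, xm_q hq, Matrix.vecMul, dotProduct]

/-- the exchanged matrix -/
noncomputable def xE (q : κ → ι) (E : Matrix ι ι R) (T : κ → ι → R) : Matrix ι ι R :=
  xm q (fun t => E⁻¹ *ᵥ T t) * E * (xm q (fun t => E⁻¹ *ᵥ T t))ᵀ

variable {E : Matrix ι ι R} {T : κ → ι → R} {q : κ → ι}

theorem inv_vecMul (hE : IsUnit E.det) (hs : Eᵀ = E) (v : ι → R) : (E⁻¹ *ᵥ v) ᵥ* E = v := by
  have h : (E⁻¹ *ᵥ v) ᵥ* E = Eᵀ *ᵥ (E⁻¹ *ᵥ v) := by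
    rw [Matrix.mulVec_transpose]
  rw [h, hs, Matrix.mulVec_mulVec, Matrix.mul_nonsing_inv E hE, Matrix.one_mulVec]

theorem xE_symm (hs : Eᵀ = E) : (xE q E T)ᵀ = xE q E T := by
  rw [xE, Matrix.transpose_mul, Matrix.transpose_mul, Matrix.transpose_transpose, hs,
    Matrix.mul_assoc]

/-- rows of `xm * E` -/
theorem xmE_off {i : ι} (hi : ∀ t, q t ≠ i) (j : ι) :
    (xm q (fun t => E⁻¹ *ᵥ T t) * E) i j = E i j := xm_mul_off _ _ hi j

theorem xmE_q (hE : IsUnit E.det) (hs : Eᵀ = E) (hq : Function.Injective q) (t : κ) (j : ι) :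
    (xm q (fun t => E⁻¹ *ᵥ T t) * E) (q t) j = T t j := by
  rw [xm_mul_q hq, inv_vecMul hE hs]

theorem xE_off_off {i j : ι} (hi : ∀ t, q t ≠ i) (hj : ∀ t, q t ≠ j) :
    xE q E T i j = E i j := by
  rw [xE, Matrix.mul_apply]
  simp only [Matrix.transpose_apply, xm_off _ hj, xmE_off hi]
  simp [Matrix.one_apply]

theorem xE_off_q (hE : IsUnit E.det) (hq : Function.Injective q) {i : ι}
    (hi : ∀ t, q t ≠ i) (t : κ) : xE q E T i (q t) = T t i := by
  rw [xE, Matrix.mul_apply]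
  simp only [Matrix.transpose_apply, xm_q hq, xmE_off hi]
  have h : ∑ j, E i j * (E⁻¹ *ᵥ T t) j = (E *ᵥ (E⁻¹ *ᵥ T t)) i := by
    simp only [Matrix.mulVec, dotProduct]
  rw [h, Matrix.mulVec_mulVec, Matrix.mul_nonsing_inv E hE, Matrix.one_mulVec]

theorem xE_q_off (hE : IsUnit E.det) (hs : Eᵀ = E) (hq : Function.Injective q) {i : ι}
    (hi : ∀ t, q t ≠ i) (t : κ) : xE q E T (q t) i = T t i := by
  rw [← xE_off_q (T := T) hE hq hi t]
  conv_lhs => rw [← xE_symm hs]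
  rfl

theorem xE_q_q (hE : IsUnit E.det) (hs : Eᵀ = E) (hq : Function.Injective q) (s t : κ) :
    xE q E T (q s) (q t) = T s ⬝ᵥ (E⁻¹ *ᵥ T t) := by
  rw [xE, Matrix.mul_apply]
  simp only [Matrix.transpose_apply, xm_q hq, xmE_q hE hs hq]
  rfl

/-- the columns of the vertices `q t` left out -/
noncomputable def xT (q : κ → ι) (E : Matrix ι ι R) (T : κ → ι → R) (t : κ) : ι → R :=
  fun i => (xm q (fun t => E⁻¹ *ᵥ T t) * E) i (q t)

theorem xT_off {i : ι} (hi : ∀ t, q t ≠ i) (t : κ) : xT q E T t i = E i (q t) := xmE_off hi _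

theorem xT_q (hE : IsUnit E.det) (hs : Eᵀ = E) (hq : Function.Injective q) (t s : κ) :
    xT q E T t (q s) = T s (q t) := xmE_q hE hs hq s _

theorem xE_det : (xE q E T).det = (xm q (fun t => E⁻¹ *ᵥ T t)).det ^ 2 * E.det := by
  rw [xE, Matrix.det_mul, Matrix.det_mul, Matrix.det_transpose]
  ring

theorem xE_inv_xT (hE' : IsUnit (xE q E T).det) (s : κ) :
    (xE q E T)⁻¹ *ᵥ xT q E T s
      = ((xm q (fun t => E⁻¹ *ᵥ T t))ᵀ)⁻¹ *ᵥ Pi.single (q s) 1 := by
  set X := xm q (fun t => E⁻¹ *ᵥ T t) with hX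
  have hXu : IsUnit X.det := by
    rw [xE_det] at hE'
    exact isUnit_of_mul_isUnit_left ((pow_two (X.det)) ▸ (isUnit_of_mul_isUnit_left hE'))
  have h1 : xT q E T s = xE q E T *ᵥ ((Xᵀ)⁻¹ *ᵥ Pi.single (q s) 1) := by
    rw [xE, ← hX, Matrix.mulVec_mulVec, Matrix.mul_assoc,
      Matrix.mul_nonsing_inv _ (by rwa [Matrix.det_transpose]), Matrix.mul_one]
    ext i
    rw [Matrix.mulVec_single_one]
    rfl
  rw [h1, Matrix.mulVec_mulVec, Matrix.nonsing_inv_mul _ hE', Matrix.one_mulVec]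

theorem xT_form (hs : Eᵀ = E) (hE' : IsUnit (xE q E T).det) (t s : κ) :
    xT q E T t ⬝ᵥ ((xE q E T)⁻¹ *ᵥ xT q E T s) = E (q t) (q s) := by
  rw [xE_inv_xT hE']
  set X := xm q (fun t => E⁻¹ *ᵥ T t) with hX
  have hXu : IsUnit X.det := by
    rw [xE_det] at hE'
    exact isUnit_of_mul_isUnit_left ((pow_two (X.det)) ▸ (isUnit_of_mul_isUnit_left hE'))
  have h1 : xT q E T t = (X * E) *ᵥ Pi.single (q t) 1 := by
    ext i
    rw [Matrix.mulVec_single_one]
    rfl
  rw [h1, ← Matrix.vecMul_transpose, ← Matrix.dotProduct_mulVec, Matrix.mulVec_mulVec,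
    Matrix.transpose_mul, Matrix.mul_assoc,
    Matrix.mul_nonsing_inv _ (by rwa [Matrix.det_transpose]), Matrix.mul_one, hs,
    Matrix.mulVec_single_one, single_one_dotProduct]
  rfl

end algebra

end Pool.Agent.Lib.N2
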