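import Mathlib
import Pool.Agent.Lib.N2.Even
import Pool.Agent.Lib.EndG.End

/-!
# N2.Rare: `Rare` from the `n^2`-scale theorem (route P, MP_686cbb)

`rare_of_main`: `main_n2` and the end game (`EndG.eg_rare`) give `S1.Rare`: integral isotropic
bounded cliques with `2^(ξ m)` elements exist with probability at most `4^(-m)`.
-/

set_option autoImplicit false

open Finset Matrix

namespace Pool.Agent.Lib.N2

theorem card_graph_ge (r : ℕ) : (2 : ℝ) ^ (((r : ℝ) ^ 2 - r) / 2) ≤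
    (Nat.card (SimpleGraph (Fin r)) : ℝ) := by
  induction r with
  | zero =>
    have : Nat.card (SimpleGraph (Fin 0)) = 1 := Nat.card_unique
    rw [this]
    simp
  | succ r ih =>
    rw [S1.card_succ, ← Real.rpow_natCast 2 r]
    refine le_trans ?_ (mul_le_mul_of_nonneg_left ih (by positivity))
    rw [← Real.rpow_add (by norm_num)]
    refine Real.rpow_le_rpow_of_exponent_le (by norm_num) ?_
    push_cast
    nlinarith

theorem card_le_add {α : Type*} [Finite α] (P Q R : α → Prop) (h : ∀ a, P a → Q a ∨ R a) :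
    Nat.card {a // P a} ≤ Nat.card {a // Q a} + Nat.card {a // R a} := by
  classical
  have := Fintype.ofFinite α
  simp only [Nat.card_eq_fintype_card, Fintype.card_subtype]
  refine le_trans (Finset.card_le_card ?_) (Finset.card_union_le _ _)
  intro a ha
  simp only [Finset.mem_union, Finset.mem_filter, Finset.mem_univ, true_and] at ha ⊢
  exact h a ha

/-- **`Rare` from `main_n2`** -/
theorem rare_of_main (hmain : MainN2) : S1.Rare := by
  classical
  intro ξ hξ C0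
  obtain ⟨k, _, c, hc, M0, hM0⟩ := div_rare_of hmain (ξ / 2) (by linarith)
  obtain ⟨M1, hM1⟩ := EndG.eg_rare (ξ / 2) (by linarith) k C0
  obtain ⟨M2, hM2⟩ := exists_nat_gt (4 / c)
  refine ⟨max (max M0 M1) (max M2 1), fun m hm => ?_⟩
  have h0 : M0 ≤ m := ((le_max_left _ _).trans (le_max_left _ _)).trans hm
  have h1 : M1 ≤ m := ((le_max_right _ _).trans (le_max_left _ _)).trans hm
  have h2 : M2 ≤ m := ((le_max_left _ _).trans (le_max_right _ _)).trans hm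
  have h3 : 1 ≤ m := ((le_max_right _ _).trans (le_max_right _ _)).trans hm
  have h3' : (1 : ℝ) ≤ m := by exact_mod_cast h3
  have h4 : 4 / c < (m : ℝ) := lt_of_lt_of_le hM2 (by exact_mod_cast h2)
  have h5 : 4 < c * m := by
    rw [div_lt_iff₀ hc] at h4
    linarith
  have hE := hM1 m h1
  have hD := hM0 m h0
  set N : ℝ := (Nat.card (SimpleGraph (Fin m)) : ℝ) with hN
  set N1 : ℝ := (Nat.card {G : SimpleGraph (Fin m) // (G.adjMatrix ℚ).det ≠ 0 ∧
      ∃ X : Finset (Fin m → ℤ), S1.IsClique G C0 X ∧ X.Nonempty ∧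
        ∀ Z, Z ⊆ X → (∀ y ∈ Z, ∀ z ∈ Z, ∃ n : ℤ, S1.bf G y z = 2 ^ k * n) →
          (Z.card : ℝ) < 2 ^ (-(ξ / 2 * m)) * X.card} : ℝ) with hN1
  set N2 : ℝ := (Nat.card {G : SimpleGraph (Fin m) // DivSet k (ξ / 2) G} : ℝ) with hN2
  have hsum : (Nat.card {G : SimpleGraph (Fin m) // (G.adjMatrix ℚ).det ≠ 0 ∧
      ∃ X : Finset (Fin m → ℤ), S1.IsClique G C0 X ∧ (2 : ℝ) ^ (ξ * m) ≤ (X.card : ℝ)} : ℝ) ≤
      N1 + N2 := by
    rw [hN1, hN2, ← Nat.cast_add, Nat.cast_le]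
    refine card_le_add _ _ _ ?_
    rintro G ⟨hdet, X, hX, hcard⟩
    by_cases hbad : ∀ Z, Z ⊆ X → (∀ y ∈ Z, ∀ z ∈ Z, ∃ n : ℤ, S1.bf G y z = 2 ^ k * n) →
          (Z.card : ℝ) < 2 ^ (-(ξ / 2 * m)) * X.card
    · left
      refine ⟨hdet, X, hX, ?_, hbad⟩
      have h6 : (0 : ℝ) < X.card := lt_of_lt_of_le (by positivity) hcard
      rw [← Finset.card_pos]
      exact_mod_cast h6
    · right
      push Not at hbad
      obtain ⟨Z, hZX, hZ, hZc⟩ := hbad
      refine ⟨hdet, Z, fun y hy => hX.cube y (hZX hy), hZ, ?_⟩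
      refine le_trans ?_ hZc
      calc (2 : ℝ) ^ (ξ / 2 * m) = 2 ^ (-(ξ / 2 * m)) * 2 ^ (ξ * m) := by
            rw [← Real.rpow_add (by norm_num)]
            congr 1
            ring
        _ ≤ 2 ^ (-(ξ / 2 * m)) * X.card := mul_le_mul_of_nonneg_left hcard (by positivity)
  have hNge := card_graph_ge m
  rw [← hN] at hNge
  have hNpos : 0 < N := lt_of_lt_of_le (by positivity) hNge
  have hN1pos : 0 ≤ N1 := Nat.cast_nonneg _
  -- the first part
  have p1 : N1 * 4 ^ m ≤ N / 2 := by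
    have e1 : (8 : ℝ) ^ m = 2 ^ m * 4 ^ m := by
      rw [← mul_pow]
      norm_num
    have e2 : (2 : ℝ) ≤ 2 ^ m := by
      calc (2 : ℝ) = 2 ^ 1 := by norm_num
        _ ≤ 2 ^ m := pow_le_pow_right₀ (by norm_num) h3
    have e3 : N1 * 8 ^ m ≤ N := hE
    rw [e1] at e3
    have e4 : 0 ≤ N1 * 4 ^ m := by positivity
    nlinarith
  have p2 : N2 * 4 ^ m ≤ N / 2 := by
    have e1 : N2 ≤ (2 : ℝ) ^ ((1 / 2 - c) * (m : ℝ) ^ 2) := hD
    have e2 : (4 : ℝ) ^ m = (2 : ℝ) ^ (2 * (m : ℝ)) := by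
      rw [Real.rpow_mul (by norm_num), Real.rpow_natCast]
      norm_num
    have e3 : (2 : ℝ) ^ ((1 / 2 - c) * (m : ℝ) ^ 2) * (2 : ℝ) ^ (2 * (m : ℝ)) ≤
        (2 : ℝ) ^ (((m : ℝ) ^ 2 - m) / 2 - 1) := by
      rw [← Real.rpow_add (by norm_num)]
      refine Real.rpow_le_rpow_of_exponent_le (by norm_num) ?_
      have e5 : 4 * (m : ℝ) ≤ c * m * m := mul_le_mul_of_nonneg_right h5.le (by linarith)
      nlinarith
    have e4 : (2 : ℝ) ^ (((m : ℝ) ^ 2 - m) / 2 - 1) = (2 : ℝ) ^ (((m : ℝ) ^ 2 - m) / 2) / 2 := by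
      rw [Real.rpow_sub (by norm_num), Real.rpow_one]
    calc N2 * 4 ^ m ≤ (2 : ℝ) ^ ((1 / 2 - c) * (m : ℝ) ^ 2) * 4 ^ m :=
          mul_le_mul_of_nonneg_right e1 (by positivity)
      _ = (2 : ℝ) ^ ((1 / 2 - c) * (m : ℝ) ^ 2) * (2 : ℝ) ^ (2 * (m : ℝ)) := by rw [e2]
      _ ≤ _ := e3
      _ = _ := e4
      _ ≤ N / 2 := by linarith
  calc _ ≤ (N1 + N2) * 4 ^ m := mul_le_mul_of_nonneg_right hsum (by positivity)
    _ = N1 * 4 ^ m + N2 * 4 ^ m := by ring
    _ ≤ N := by linarith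

end Pool.Agent.Lib.N2
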