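import Pool.Agent.Lib.N2.Big
import Pool.Agent.Lib.N2.Rare

/-!
# RARE (route P): the unconditional statement
-/

set_option autoImplicit false

namespace Pool.Agent.Lib.N2

/-- The rarity statement of the frame S1, unconditionally. -/
theorem rare : S1.Rare := rare_of_main main_n2

end Pool.Agent.Lib.N2
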