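import Pool.Agent.Lib.N2.Pick

/-!
# N2.IndCount (S3): many independent tuples
-/

set_option autoImplicit false

open Finset Matrix

namespace Pool.Agent.Lib.N2

variable {K m : ℕ}

private theorem ne_pow (K : ℕ) : NeZero (2 ^ K) := ⟨by positivity⟩

/-- `0/1` residues are determined by their reduction mod 2 -/
private theorem b01_eq (hK : 1 ≤ K) {x y : RK K} (hx : B01 x) (hy : B01 y)
    (h : red2 x = red2 y) : x = y := by
  have h0 : red2 (0 : RK K) = 0 := by
    change (ZMod.castHom (dvd_pow_self 2 (by omega)) (ZMod 2)) (0 : RK K) = 0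
    exact map_zero _
  have h1 : red2 (1 : RK K) = 1 := by
    change (ZMod.castHom (dvd_pow_self 2 (by omega)) (ZMod 2)) (1 : RK K) = 1
    exact map_one _
  rcases hx with rfl | rfl <;> rcases hy with rfl | rfl
  · rfl
  · rw [h0, h1] at h
    exact absurd h (by decide)
  · rw [h0, h1] at h
    exact absurd h (by decide)
  · rfl

/-- a new vector which makes an independent tuple dependent is determined by few data -/
private theorem bad_card (hK : 1 ≤ K) (lab : Fin m → ℕ) (E : Matrix (Fin m) (Fin m) (RK K))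
    (Z : Finset (Fin m → RK K)) (hZ : ∀ y ∈ Z, Vec lab y) (r : ℕ) (T : Fin r → Fin m → RK K)
    (hT : Ind lab E T) (B : Finset (Fin m → RK K)) (hBZ : B ⊆ Z)
    (hB : ∀ y ∈ B, ¬ Ind lab E (Fin.cons y T : Fin (r + 1) → Fin m → RK K)) :
    B.card ≤ 2 ^ (nlab lab + r + K * nsp lab) := by
  classical
  have := ne_pow K
  -- the data of a bad vector
  have hdata : ∀ y ∈ B, ∃ (c : Fin r → ZMod 2) (d : {x : Fin m // lab x ≠ 1} → ZMod 2),
      ∀ x, red2 (y x) = ∑ a, c a * red2 (T a x) +
        ∑ z, red2 (E x z) * (if h : lab z ≠ 1 then d ⟨z, h⟩ else 0) := by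
    intro y hy
    have h1 := hB y hy
    unfold Ind at h1
    push Not at h1
    obtain ⟨c, d, hd, hcd, hc0⟩ := h1
    have hd' : ∀ z, (if h : lab z ≠ 1 then (fun w : {x : Fin m // lab x ≠ 1} => d w.1) ⟨z, h⟩
        else 0) = d z := by
      intro z
      by_cases hz : lab z ≠ 1
      · rw [dif_pos hz]
      · rw [dif_neg hz]
        push Not at hz
        exact (hd z hz).symm
    have hsum : ∀ x, c 0 * red2 (y x) + ∑ a : Fin r, c a.succ * red2 (T a x) =
        ∑ z, red2 (E x z) * d z := by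
      intro x
      have h2 := hcd x
      rw [Fin.sum_univ_succ] at h2
      simpa using h2
    have hc : c 0 = 1 := by
      have h3 : c 0 = 0 ∨ c 0 = 1 := by
        have : ∀ t : ZMod 2, t = 0 ∨ t = 1 := by decide
        exact this _
      rcases h3 with h3 | h3
      · exfalso
        apply hc0
        have h4 := hT (fun a => c a.succ) d hd (fun x => by
          have h5 := hsum x
          rw [h3, zero_mul, zero_add] at h5
          exact h5)
        funext i
        refine Fin.cases ?_ ?_ i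
        · exact h3
        · intro j
          exact congrFun h4 j
      · exact h3
    refine ⟨fun a => c a.succ, fun w => d w.1, fun x => ?_⟩
    have h5 := hsum x
    rw [hc, one_mul] at h5
    have h6 : ∑ z, red2 (E x z) * (if h : lab z ≠ 1 then
        (fun w : {x : Fin m // lab x ≠ 1} => d w.1) ⟨z, h⟩ else 0) = ∑ z, red2 (E x z) * d z :=
      Finset.sum_congr rfl fun z _ => by rw [hd' z]
    rw [h6, ← h5]
    have h7 : ∀ s t : ZMod 2, t = s + (t + s) := by decide
    exact h7 _ _
  choose! cc dd hcd using hdata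
  let F : (Fin m → RK K) → (Fin r → ZMod 2) × ({x : Fin m // lab x ≠ 1} → ZMod 2) ×
      ({x : Fin m // lab x = 0} → RK K) := fun y => (cc y, dd y, fun w => y w.1)
  have hinj : Set.InjOn F (B : Set (Fin m → RK K)) := by
    intro y hy y' hy' hF
    have hy1 : y ∈ B := hy
    have hy1' : y' ∈ B := hy'
    have hc : cc y = cc y' := congrArg Prod.fst hF
    have hd : dd y = dd y' := congrArg (fun t => t.2.1) hF
    have hs : (fun w : {x : Fin m // lab x = 0} => y w.1) = fun w => y' w.1 :=
      congrArg (fun t => t.2.2) hF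
    funext x
    by_cases hx : lab x = 0
    · exact congrFun hs ⟨x, hx⟩
    · apply b01_eq hK (hZ y (hBZ hy1) x hx) (hZ y' (hBZ hy1') x hx)
      rw [hcd y hy1 x, hcd y' hy1' x, hc, hd]
  have hle : B.card ≤ (Finset.univ : Finset ((Fin r → ZMod 2) × ({x : Fin m // lab x ≠ 1} →
      ZMod 2) × ({x : Fin m // lab x = 0} → RK K))).card :=
    Finset.card_le_card_of_injOn F (fun _ _ => Finset.mem_coe.2 (Finset.mem_univ _)) hinj
  refine hle.trans (le_of_eq ?_)
  rw [Finset.card_univ, Fintype.card_prod, Fintype.card_prod, Fintype.card_fun, Fintype.card_fun,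
    Fintype.card_fun, ZMod.card, ZMod.card, Fintype.card_fin, Fintype.card_subtype,
    Fintype.card_subtype]
  have e1 : (Finset.univ.filter fun x => lab x ≠ 1).card = nlab lab := rfl
  have e2 : (Finset.univ.filter fun x => lab x = 0).card = nsp lab := rfl
  rw [e1, e2, ← pow_mul, ← pow_add, ← pow_add]
  congr 1
  ring

private theorem ind_zero (lab : Fin m → ℕ) (E : Matrix (Fin m) (Fin m) (RK K))
    (T : Fin 0 → Fin m → RK K) : Ind lab E T := by
  intro c d _ _
  funext i
  exact i.elim0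

/-- the independent tuples, as a finset -/
private noncomputable def Sr (lab : Fin m → ℕ) (E : Matrix (Fin m) (Fin m) (RK K))
    (Z : Finset (Fin m → RK K)) (r : ℕ) : Finset (Fin r → Fin m → RK K) :=
  open Classical in
  (Fintype.piFinset fun _ : Fin r => Z).filter fun T => Ind lab E T

private theorem mem_Sr (lab : Fin m → ℕ) (E : Matrix (Fin m) (Fin m) (RK K))
    (Z : Finset (Fin m → RK K)) (r : ℕ) (T : Fin r → Fin m → RK K) :
    T ∈ Sr lab E Z r ↔ (∀ a, T a ∈ Z) ∧ Ind lab E T := by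
  classical
  unfold Sr
  rw [Finset.mem_filter, Fintype.mem_piFinset]

private theorem step (hK : 1 ≤ K) (lab : Fin m → ℕ) (E : Matrix (Fin m) (Fin m) (RK K))
    (Z : Finset (Fin m → RK K)) (hZ : ∀ y ∈ Z, Vec lab y) (r : ℕ)
    (h : 2 ^ (nlab lab + r + K * nsp lab + 1) ≤ Z.card) :
    (Sr lab E Z r).card * Z.card ≤ 2 * (Sr lab E Z (r + 1)).card := by
  classical
  let G : (Fin r → Fin m → RK K) → Finset (Fin m → RK K) := fun T =>
    Z.filter fun y => Ind lab E (Fin.cons y T : Fin (r + 1) → Fin m → RK K)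
  have hG : ∀ T ∈ Sr lab E Z r, Z.card ≤ 2 * (G T).card := by
    intro T hT
    have h1 := bad_card hK lab E Z hZ r T ((mem_Sr lab E Z r T).1 hT).2
      (Z.filter fun y => ¬ Ind lab E (Fin.cons y T : Fin (r + 1) → Fin m → RK K))
      (Finset.filter_subset _ _) (fun y hy => (Finset.mem_filter.1 hy).2)
    have h2 : (G T).card + (Z.filter fun y => ¬ Ind lab E (Fin.cons y T :
        Fin (r + 1) → Fin m → RK K)).card = Z.card :=
      Finset.card_filter_add_card_filter_not _
    rw [pow_succ] at h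
    omega
  have hsum : (Sr lab E Z r).card * Z.card ≤ 2 * ((Sr lab E Z r).sigma G).card := by
    rw [Finset.card_sigma, Finset.mul_sum, ← smul_eq_mul]
    exact Finset.card_nsmul_le_sum _ _ _ hG
  refine hsum.trans (Nat.mul_le_mul_left 2 ?_)
  refine Finset.card_le_card_of_injOn
    (fun p : (_ : Fin r → Fin m → RK K) × (Fin m → RK K) =>
      (Fin.cons p.2 p.1 : Fin (r + 1) → Fin m → RK K)) ?_ ?_
  · intro p hp
    have hp1 := Finset.mem_sigma.1 (Finset.mem_coe.1 hp)
    have hp2 := (mem_Sr lab E Z r p.1).1 hp1.1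
    have hp3 := Finset.mem_filter.1 hp1.2
    rw [Finset.mem_coe, mem_Sr]
    refine ⟨fun a => ?_, hp3.2⟩
    refine Fin.cases ?_ ?_ a
    · exact hp3.1
    · intro j
      exact hp2.1 j
  · rintro ⟨T, y⟩ _ ⟨T', y'⟩ _ hpq
    have h1 : (Fin.cons y T : Fin (r + 1) → Fin m → RK K) = Fin.cons y' T' := hpq
    have h2 : y = y' := congrFun h1 0
    have h3 : T = T' := by
      funext j
      exact congrFun h1 j.succ
    rw [h2, h3]

private theorem main_ind (hK : 1 ≤ K) (lab : Fin m → ℕ) (E : Matrix (Fin m) (Fin m) (RK K))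
    (Z : Finset (Fin m → RK K)) (hZ : ∀ y ∈ Z, Vec lab y) (r : ℕ)
    (h : 2 ^ (nlab lab + r + K * nsp lab + 1) ≤ Z.card) :
    ((Z.card : ℝ) / 2) ^ r ≤ ((Sr lab E Z r).card : ℝ) := by
  induction r with
  | zero =>
    have h1 : 0 < (Sr lab E Z 0).card := by
      apply Finset.card_pos.2
      refine ⟨fun i => i.elim0, ?_⟩
      rw [mem_Sr]
      exact ⟨fun i => i.elim0, ind_zero lab E _⟩
    rw [pow_zero]
    exact_mod_cast h1
  | succ r ih =>
    have h1 : 2 ^ (nlab lab + r + K * nsp lab + 1) ≤ Z.card :=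
      (Nat.pow_le_pow_right (by norm_num) (by omega)).trans h
    have h2 := ih h1
    have h3 := step hK lab E Z hZ r h1
    have h4 : ((Sr lab E Z r).card : ℝ) * (Z.card : ℝ) ≤ 2 * ((Sr lab E Z (r + 1)).card : ℝ) := by
      exact_mod_cast h3
    have h5 : (0 : ℝ) ≤ (Z.card : ℝ) / 2 := by positivity
    rw [pow_succ]
    have h6 : ((Z.card : ℝ) / 2) ^ r * ((Z.card : ℝ) / 2) ≤
        ((Sr lab E Z r).card : ℝ) * ((Z.card : ℝ) / 2) := mul_le_mul_of_nonneg_right h2 h5
    linarith

theorem ind_count (hK : 1 ≤ K) (lab : Fin m → ℕ) (E : Matrix (Fin m) (Fin m) (RK K))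
    (Z : Finset (Fin m → RK K)) (hZ : ∀ y ∈ Z, Vec lab y) (r : ℕ)
    (h : 2 ^ (nlab lab + r + K * nsp lab + 1) ≤ Z.card) :
    ((Z.card : ℝ) / 2) ^ r ≤
      (Nat.card {T : Fin r → Fin m → RK K // (∀ a, T a ∈ Z) ∧ Ind lab E T} : ℝ) := by
  refine (main_ind hK lab E Z hZ r h).trans (le_of_eq ?_)
  congr 1
  have h1 : Nat.card {T : Fin r → Fin m → RK K // (∀ a, T a ∈ Z) ∧ Ind lab E T} =
      Nat.card {T : Fin r → Fin m → RK K // T ∈ Sr lab E Z r} :=
    Nat.card_congr (Equiv.subtypeEquivRight fun T => (mem_Sr lab E Z r T).symm)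
  rw [h1, Nat.card_eq_fintype_card, Fintype.card_coe]

end Pool.Agent.Lib.N2
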