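import Pool.Agent.Lib.N2.Def

/-!
# N2.Pick (S2): the leaving indices
-/

set_option autoImplicit false

open Finset Matrix

namespace Pool.Agent.Lib.N2

variable {K m r : ℕ}

variable {E : Matrix (Fin m) (Fin m) (RK K)} {T : Fin r → Fin m → RK K} {lab : Fin m → ℕ}

/-- reduction mod 2 -/
def red2 (x : RK K) : ZMod 2 := ZMod.cast x

/-- `T` is independent mod 2, modulo the columns of `E` with labels `≠ 1`. -/
def Ind (lab : Fin m → ℕ) (E : Matrix (Fin m) (Fin m) (RK K)) (T : Fin r → Fin m → RK K) : Prop :=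
  ∀ (c : Fin r → ZMod 2) (d : Fin m → ZMod 2), (∀ x, lab x = 1 → d x = 0) →
    (∀ x, ∑ a, c a * red2 (T a x) = ∑ y, red2 (E x y) * d y) → c = 0

private theorem two_dvd (hK : 1 ≤ K) : 2 ∣ 2 ^ K := dvd_pow_self 2 (by omega)

/-- reduction mod 2 as a ring homomorphism -/
private def rh (hK : 1 ≤ K) : RK K →+* ZMod 2 := ZMod.castHom (two_dvd hK) (ZMod 2)

private theorem rh_apply (hK : 1 ≤ K) (x : RK K) : rh hK x = red2 x := rfl

/-- a residue mod `2^K` is a unit iff it is nonzero mod 2 -/
private theorem unit_of_rh (hK : 1 ≤ K) {x : RK K} (h : rh hK x ≠ 0) : IsUnit x := by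
  have : NeZero (2 ^ K) := ⟨by positivity⟩
  have hx : ((x.val : ℕ) : RK K) = x := ZMod.natCast_zmod_val x
  rw [← hx, ZMod.isUnit_iff_coprime]
  apply Nat.Coprime.pow_right
  rw [Nat.coprime_comm, Nat.Prime.coprime_iff_not_dvd Nat.prime_two]
  intro h2
  apply h
  rw [← hx, map_natCast]
  exact (ZMod.natCast_eq_zero_iff _ _).2 h2

private theorem nM_mem (σ : Fin r ↪ Fin m) (x : Fin m) (a : Fin r) :
    nM E T σ x (σ a) = (E⁻¹ *ᵥ T a) x := by
  have h : ∃ b, σ b = σ a := ⟨a, rfl⟩
  have hc : h.choose = a := σ.injective h.choose_spec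
  rw [nM, Matrix.of_apply, dif_pos h, hc]

private theorem nM_off (σ : Fin r ↪ Fin m) (x y : Fin m) (hy : ∀ a, σ a ≠ y) :
    nM E T σ x y = if x = y then 1 else 0 := by
  have h : ¬ ∃ a, σ a = y := fun ⟨a, ha⟩ => hy a ha
  rw [nM, Matrix.of_apply, dif_neg h]

/-- splitting a sum over `Fin m` -/
private theorem sum_split {M : Type*} [AddCommMonoid M] (σ : Fin r ↪ Fin m) (f : Fin m → M) :
    ∑ y, f y = ∑ a, f (σ a) + ∑ y ∈ univ.filter (fun y => ∀ a, σ a ≠ y), f y := by
  classical
  have h1 : ∑ a, f (σ a) = ∑ y ∈ univ.filter (fun y => ¬ ∀ a, σ a ≠ y), f y := by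
    rw [← Finset.sum_map univ σ f]
    apply Finset.sum_congr _ (fun _ _ => rfl)
    ext y
    simp
  rw [h1, add_comm, Finset.sum_filter_add_sum_filter_not]

theorem pick (hK : 1 ≤ K) (hu : IsUnit E.det) (hT : Ind lab E T) :
    ∃ σ : Fin r ↪ Fin m, (∀ a, lab (σ a) = 1) ∧ IsUnit (nM E T σ).det := by
  classical
  -- the rows
  set W : Fin m → Fin r → ZMod 2 := fun x a => rh hK ((E⁻¹ *ᵥ T a) x) with hW
  -- key: a vector killed by all the rows with label 1 is zero
  have key : ∀ c : Fin r → ZMod 2, (∀ x, lab x = 1 → ∑ a, c a * W x a = 0) → c = 0 := by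
    intro c hc
    refine hT c (fun x => ∑ a, c a * W x a) hc ?_
    intro x
    have h1 : ∀ a, red2 (T a x) = ∑ y, red2 (E x y) * W y a := by
      intro a
      have h2 : T a = E *ᵥ (E⁻¹ *ᵥ T a) := by
        rw [Matrix.mulVec_mulVec, Matrix.mul_nonsing_inv _ hu, Matrix.one_mulVec]
      have h3 : T a x = ∑ y, E x y * (E⁻¹ *ᵥ T a) y := by
        conv_lhs => rw [h2]
        rfl
      rw [← rh_apply hK, h3, map_sum]
      exact Finset.sum_congr rfl fun y _ => by rw [map_mul, rh_apply]
    calc ∑ a, c a * red2 (T a x) = ∑ a, ∑ y, red2 (E x y) * (c a * W y a) := by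
          refine Finset.sum_congr rfl fun a _ => ?_
          rw [h1 a, Finset.mul_sum]
          exact Finset.sum_congr rfl fun y _ => by ring
      _ = ∑ y, red2 (E x y) * ∑ a, c a * W y a := by
          rw [Finset.sum_comm]
          exact Finset.sum_congr rfl fun y _ => by rw [Finset.mul_sum]
  -- the rows with label 1 span
  let S := {x : Fin m // lab x = 1}
  let v : S → (Fin r → ZMod 2) := fun x => W x.1
  have hspan : Submodule.span (ZMod 2) (Set.range v) = ⊤ := by
    by_contra hne
    obtain ⟨f, hf0, hf⟩ := Submodule.exists_dual_map_eq_bot_of_lt_top (lt_top_iff_ne_top.2 hne)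
      inferInstance
    apply hf0
    have hfv : ∀ x : S, f (v x) = 0 := by
      intro x
      have hx : f (v x) ∈ Submodule.map f (Submodule.span (ZMod 2) (Set.range v)) :=
        Submodule.mem_map_of_mem (Submodule.subset_span ⟨x, rfl⟩)
      rw [hf] at hx
      exact (Submodule.mem_bot _).1 hx
    have hc : (fun a => f (Pi.single a 1)) = (0 : Fin r → ZMod 2) := by
      apply key
      intro x hx
      have h4 := hfv ⟨x, hx⟩
      have h5 : v ⟨x, hx⟩ = ∑ a, W x a • (Pi.single a 1 : Fin r → ZMod 2) := by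
        funext b
        simp [v, Finset.sum_apply, Pi.single_apply]
      rw [h5, map_sum] at h4
      rw [← h4]
      refine Finset.sum_congr rfl fun a _ => ?_
      rw [map_smul, smul_eq_mul, mul_comm]
    apply LinearMap.pi_ext'
    intro a
    ext
    have := congrFun hc a
    simpa using this
  obtain ⟨κ, g, hg, hgs, hli⟩ := exists_linearIndependent' (ZMod 2) v
  rw [hspan] at hgs
  let b := Module.Basis.mk hli (by rw [hgs])
  have : Fintype κ := Fintype.ofInjective g hg
  have hcard : Fintype.card κ = r := by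
    rw [← Module.finrank_eq_card_basis b, Module.finrank_fin_fun]
  let e : Fin r ≃ κ := (Fintype.equivFinOfCardEq hcard).symm
  let σ : Fin r ↪ Fin m :=
    ⟨fun a => (g (e a)).1, fun a a' h => e.injective (hg (Subtype.ext h))⟩
  have hli' : LinearIndependent (ZMod 2) (fun a => W (σ a)) := hli.comp e e.injective
  refine ⟨σ, fun a => (g (e a)).2, unit_of_rh hK ?_⟩
  rw [RingHom.map_det]
  intro h0
  obtain ⟨u, hu0, hMu⟩ := Matrix.exists_mulVec_eq_zero_iff.2 h0
  have hrow : ∀ x, ∑ a, W x a * u (σ a) + (if ∀ a, σ a ≠ x then u x else 0) = 0 := by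
    intro x
    have h1 := congrFun hMu x
    have h2 : ∑ y, (rh hK).mapMatrix (nM E T σ) x y * u y = 0 := h1
    rw [sum_split σ] at h2
    refine Eq.trans ?_ h2
    congr 1
    · refine Finset.sum_congr rfl fun a _ => ?_
      rw [RingHom.mapMatrix_apply, Matrix.map_apply, nM_mem]
    · by_cases hx : ∀ a, σ a ≠ x
      · rw [if_pos hx, Finset.sum_eq_single x]
        · rw [RingHom.mapMatrix_apply, Matrix.map_apply, nM_off σ x x hx, if_pos rfl, map_one,
            one_mul]
        · intro y hy hyx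
          rw [RingHom.mapMatrix_apply, Matrix.map_apply,
            nM_off σ x y (Finset.mem_filter.1 hy).2, if_neg (Ne.symm hyx), map_zero, zero_mul]
        · intro hx2
          exact absurd (Finset.mem_filter.2 ⟨Finset.mem_univ _, hx⟩) hx2
      · rw [if_neg hx]
        symm
        apply Finset.sum_eq_zero
        intro y hy
        have hy2 := (Finset.mem_filter.1 hy).2
        have hyx : x ≠ y := fun h => hx (h ▸ hy2)
        rw [RingHom.mapMatrix_apply, Matrix.map_apply, nM_off σ x y hy2, if_neg hyx, map_zero,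
          zero_mul]
  let A : Matrix (Fin r) (Fin r) (ZMod 2) := Matrix.of fun b a => W (σ b) a
  have hA : IsUnit A := Matrix.linearIndependent_rows_iff_isUnit.1 hli'
  have hAu : A *ᵥ (fun a => u (σ a)) = 0 := by
    funext b
    have h1 := hrow (σ b)
    rw [if_neg (fun h => h b rfl), add_zero] at h1
    exact h1
  have hu1 : (fun a => u (σ a)) = 0 := by
    have h1 := Matrix.mulVec_injective_of_isUnit hA
    apply h1
    rw [hAu, Matrix.mulVec_zero]
  apply hu0
  funext x
  by_cases hx : ∀ a, σ a ≠ x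
  · have h1 := hrow x
    rw [if_pos hx, Finset.sum_eq_zero, zero_add] at h1
    · exact h1
    · intro a _
      have h2 : u (σ a) = 0 := congrFun hu1 a
      rw [h2, mul_zero]
  · push Not at hx
    obtain ⟨a, ha⟩ := hx
    rw [← ha]
    exact congrFun hu1 a

end Pool.Agent.Lib.N2
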