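import Pool.Agent.Lib.N2.Def
import Pool.Agent.Lib.N2.Exch

/-!
# N2.Swap (S1): algebra of the exchange, over `Z/2^K`, in place
-/

set_option autoImplicit false

open Finset Matrix

namespace Pool.Agent.Lib.N2

variable {K m r : ℕ}

variable {E E' : Matrix (Fin m) (Fin m) (RK K)} {T T' : Fin r → Fin m → RK K}
  {σ : Fin r ↪ Fin m} {lab : Fin m → ℕ}

theorem nM_eq : nM E T σ = (xm σ (fun t => E⁻¹ *ᵥ T t))ᵀ := by
  ext x y
  rw [Matrix.transpose_apply, nM, Matrix.of_apply]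
  by_cases h : ∃ a, σ a = y
  · rw [dif_pos h]
    obtain ⟨a, rfl⟩ := h
    rw [xm_q σ.injective]
    have h' : ∃ b, σ b = σ a := ⟨a, rfl⟩
    have : h'.choose = a := σ.injective h'.choose_spec
    rw [this]
  · rw [dif_neg h, xm_off _ (fun t ht => h ⟨t, ht⟩), Matrix.one_apply]
    by_cases hxy : x = y
    · rw [if_pos hxy, if_pos hxy.symm]
    · rw [if_neg hxy, if_neg (fun h => hxy h.symm)]

theorem swE_eq : swE E T σ = xE σ E T := by
  rw [swE, nM_eq, Matrix.transpose_transpose, xE]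

theorem swQ_eq : swQ E T σ = xT σ E T := by
  funext a
  rw [swQ, nM_eq, Matrix.transpose_transpose]
  funext i
  simp only [xT, Matrix.mul_apply, Matrix.mulVec, dotProduct]

theorem off_of {x : Fin m} (hx : x ∉ Set.range σ) (t : Fin r) : σ t ≠ x :=
  fun h => hx ⟨t, h⟩

theorem swE_out (_hs : Eᵀ = E) {x y : Fin m} (hx : x ∉ Set.range σ) (hy : y ∉ Set.range σ) :
    swE E T σ x y = E x y := by
  rw [swE_eq, xE_off_off (off_of hx) (off_of hy)]

theorem swE_mix (_hs : Eᵀ = E) (hu : IsUnit E.det) {x : Fin m} (hx : x ∉ Set.range σ) (a : Fin r) :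
    swE E T σ x (σ a) = T a x := by
  rw [swE_eq, xE_off_q hu σ.injective (off_of hx)]

theorem swE_in (hs : Eᵀ = E) (hu : IsUnit E.det) (a b : Fin r) :
    swE E T σ (σ a) (σ b) = frm E (T a) (T b) := by
  rw [swE_eq, xE_q_q hu hs σ.injective, frm]

theorem swQ_out {x : Fin m} (hx : x ∉ Set.range σ) (a : Fin r) :
    swQ E T σ a x = E x (σ a) := by
  rw [swQ_eq, xT_off (off_of hx)]

theorem swQ_in (hs : Eᵀ = E) (hu : IsUnit E.det) (a b : Fin r) :
    swQ E T σ a (σ b) = T b (σ a) := by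
  rw [swQ_eq, xT_q hu hs σ.injective]

theorem swE_symm (hs : Eᵀ = E) : (swE E T σ)ᵀ = swE E T σ := by
  rw [swE_eq, xE_symm hs]

theorem swE_mix' (hs : Eᵀ = E) (hu : IsUnit E.det) {x : Fin m} (hx : x ∉ Set.range σ) (a : Fin r) :
    swE E T σ (σ a) x = T a x := by
  rw [← swE_mix (T := T) hs hu hx a]
  conv_lhs => rw [← swE_symm hs]
  rfl

theorem swE_unit (hu : IsUnit E.det) (hN : IsUnit (nM E T σ).det) :
    IsUnit (swE E T σ).det := by
  rw [swE, Matrix.det_mul, Matrix.det_mul, Matrix.det_transpose]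
  exact (hN.mul hu).mul hN

theorem frm_swQ (hs : Eᵀ = E) (hu : IsUnit E.det) (hN : IsUnit (nM E T σ).det) (a b : Fin r) :
    frm (swE E T σ) (swQ E T σ a) (swQ E T σ b) = E (σ a) (σ b) := by
  have h := swE_unit hu hN
  rw [swE_eq] at h ⊢
  rw [frm, swQ_eq, xT_form hs h]

theorem upd_mem (j : ℕ) (a : Fin r) : upd lab σ j (σ a) = j := by
  rw [upd, if_pos ⟨a, rfl⟩]

theorem upd_notMem (j : ℕ) {x : Fin m} (hx : x ∉ Set.range σ) : upd lab σ j x = lab x := by
  rw [upd, if_neg hx]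

theorem swap_cls (hE : Cls K m lab E) (hT : ∀ a, Vec lab (T a))
    (h0 : ∀ a b, frm E (T a) (T b) = 0) (_hσ : ∀ a, lab (σ a) = 1)
    (hN : IsUnit (nM E T σ).det) {j : ℕ} (_hj : 2 ≤ j) (hfree : ∀ x, lab x ≠ j) :
    Cls K m (upd lab σ j) (swE E T σ) where
  symm := swE_symm hE.symm
  unit := swE_unit hE.unit hN
  bool := by
    intro x y hx hy
    by_cases h1 : x ∈ Set.range σ <;> by_cases h2 : y ∈ Set.range σ
    · obtain ⟨a, rfl⟩ := h1
      obtain ⟨b, rfl⟩ := h2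
      rw [swE_in hE.symm hE.unit, h0]
      exact Or.inl rfl
    · obtain ⟨a, rfl⟩ := h1
      rw [swE_mix' hE.symm hE.unit h2]
      rw [upd_notMem j h2] at hy
      exact hT a y hy
    · obtain ⟨b, rfl⟩ := h2
      rw [swE_mix hE.symm hE.unit h1]
      rw [upd_notMem j h1] at hx
      exact hT b x hx
    · rw [swE_out hE.symm h1 h2]
      rw [upd_notMem j h1] at hx
      rw [upd_notMem j h2] at hy
      exact hE.bool x y hx hy
  diag := by
    intro x hx
    by_cases h1 : x ∈ Set.range σ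
    · obtain ⟨a, rfl⟩ := h1
      rw [swE_in hE.symm hE.unit, h0]
    · rw [swE_out hE.symm h1 h1]
      rw [upd_notMem j h1] at hx
      exact hE.diag x hx
  zero := by
    intro x y hxy hx
    by_cases h1 : x ∈ Set.range σ <;> by_cases h2 : y ∈ Set.range σ
    · obtain ⟨a, rfl⟩ := h1
      obtain ⟨b, rfl⟩ := h2
      rw [swE_in hE.symm hE.unit, h0]
    · obtain ⟨a, rfl⟩ := h1
      rw [upd_mem, upd_notMem j h2] at hxy
      exact absurd hxy.symm (hfree y)
    · obtain ⟨b, rfl⟩ := h2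
      rw [upd_mem, upd_notMem j h1] at hxy
      exact absurd hxy (hfree x)
    · rw [swE_out hE.symm h1 h2]
      rw [upd_notMem j h1, upd_notMem j h2] at hxy
      rw [upd_notMem j h1] at hx
      exact hE.zero x y hxy hx

theorem swap_btup (hE : Cls K m lab E) (hT : ∀ a, Vec lab (T a))
    (_h0 : ∀ a b, frm E (T a) (T b) = 0) (hσ : ∀ a, lab (σ a) = 1)
    (hN : IsUnit (nM E T σ).det) {j : ℕ} (_hj : 2 ≤ j) :
    BTup (upd lab σ j) (swE E T σ) (swQ E T σ) := by
  have hne : ∀ a, lab (σ a) ≠ 0 := fun a => by rw [hσ a]; exact one_ne_zero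
  refine ⟨?_, ?_, ?_⟩
  · intro a x hx
    by_cases h1 : x ∈ Set.range σ
    · obtain ⟨b, rfl⟩ := h1
      rw [swQ_in hE.symm hE.unit]
      exact hT b (σ a) (hne a)
    · rw [swQ_out h1]
      rw [upd_notMem j h1] at hx
      exact hE.bool x (σ a) hx (hne a)
  · intro a
    rw [frm_swQ hE.symm hE.unit hN]
    exact hE.diag (σ a) (hne a)
  · intro a b
    rw [frm_swQ hE.symm hE.unit hN]
    exact hE.bool _ _ (hne a) (hne b)

theorem swap_inj (hE : Eᵀ = E) (hE' : E'ᵀ = E') (hu : IsUnit E.det) (hu' : IsUnit E'.det)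
    (hN : IsUnit (nM E T σ).det) (hN' : IsUnit (nM E' T' σ).det)
    (h1 : swE E T σ = swE E' T' σ) (h2 : swQ E T σ = swQ E' T' σ) : E = E' ∧ T = T' := by
  have hin : ∀ a b, E (σ a) (σ b) = E' (σ a) (σ b) := by
    intro a b
    rw [← frm_swQ hE hu hN, ← frm_swQ hE' hu' hN', h1, h2]
  have hmix : ∀ x, x ∉ Set.range σ → ∀ b, E x (σ b) = E' x (σ b) := by
    intro x hx b
    rw [← swQ_out (E := E) (T := T) hx b, ← swQ_out (E := E') (T := T') hx b, h2]
  refine ⟨?_, ?_⟩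
  · ext x y
    by_cases hx : x ∈ Set.range σ <;> by_cases hy : y ∈ Set.range σ
    · obtain ⟨a, rfl⟩ := hx
      obtain ⟨b, rfl⟩ := hy
      exact hin a b
    · obtain ⟨a, rfl⟩ := hx
      have h3 := hmix y hy a
      rw [← hE, ← hE']
      exact h3
    · obtain ⟨b, rfl⟩ := hy
      exact hmix x hx b
    · rw [← swE_out (T := T) hE hx hy, ← swE_out (T := T') hE' hx hy, h1]
  · funext a x
    by_cases hx : x ∈ Set.range σ
    · obtain ⟨b, rfl⟩ := hx
      rw [← swQ_in (T := T) (σ := σ) hE hu b a, ← swQ_in (T := T') (σ := σ) hE' hu' b a, h2]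
    · rw [← swE_mix (T := T) (σ := σ) hE hu hx a, ← swE_mix (T := T') (σ := σ) hE' hu' hx a, h1]

end Pool.Agent.Lib.N2
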