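import Pool.Agent.Lib.N2.SwapCountAux
import Pool.Agent.Lib.N2.IndCount

/-!
# N2.SwapCount (S4): the counting version of the exchange
-/

set_option autoImplicit false

namespace Pool.Agent.Lib.N2

variable {K m : ℕ}

theorem swap_count (hK : 1 ≤ K) (lab : Fin m → ℕ) (r : ℕ) (α : ℝ)
    (hα : (nlab lab + r + K * nsp lab + 1 : ℝ) ≤ α * m) {j : ℕ} (hj : 2 ≤ j)
    (hfree : ∀ x, lab x ≠ j) (h0 : 0 < NI K m lab α) :
    ∃ σ : Fin r ↪ Fin m, (∀ a, lab (σ a) = 1) ∧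
      (NI K m lab α : ℝ) * (2 : ℝ) ^ ((α * m - 1) * r) ≤
        (m : ℝ) ^ r * (NP K m r (upd lab σ j) : ℝ) := by
  refine swap_count_aux lab r α (fun E T => Ind lab E T)
    (fun E T hu hT => pick hK hu hT) (fun E Z hZ hc => ?_) hj hfree h0
  refine ind_count hK lab E Z hZ r ?_
  have h1 : ((2 : ℝ) ^ (nlab lab + r + K * nsp lab + 1 : ℕ)) ≤ (Z.card : ℝ) := by
    refine le_trans ?_ hc
    rw [← Real.rpow_natCast]
    apply Real.rpow_le_rpow_of_exponent_le (by norm_num)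
    push_cast
    exact hα
  exact_mod_cast h1

end Pool.Agent.Lib.N2
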